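import Pool.Agent.R872.SEC.Stm

open MeasureTheory Set
open scoped ENNReal

namespace Pool.R872.SEC

namespace Area2

variable {θ₀ : ℝ} {R : Set (ℝ × ℝ)}

/-- the slice -/
noncomputable def m (R : Set (ℝ × ℝ)) (r : ℝ) : ℝ≥0∞ := volume {θ : ℝ | (r, θ) ∈ R}

theorem m_meas (hR : MeasurableSet R) : Measurable (m R) := measurable_measure_prodMk_left hR

theorem m_le (hs : R ⊆ sector θ₀) (r : ℝ) : m R r ≤ ENNReal.ofReal θ₀ := by
  have h : {θ : ℝ | (r, θ) ∈ R} ⊆ Ioo 0 θ₀ := by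
    intro θ hθ
    have := hs (show (r, θ) ∈ R from hθ)
    exact ⟨this.2.1, this.2.2⟩
  refine (measure_mono h).trans ?_
  rw [Real.volume_Ioo, sub_zero]

theorem m_zero (hs : R ⊆ sector θ₀) (r : ℝ) (hr : r ≤ 0) : m R r = 0 := by
  have h : {θ : ℝ | (r, θ) ∈ R} = ∅ := by
    ext θ
    constructor
    · intro hθ
      have := (hs (show (r, θ) ∈ R from hθ)).1
      exact absurd this (not_lt.2 hr)
    · intro h; exact h.elim
  unfold m
  rw [h, measure_empty]

theorem m_eq (hθ : 0 < θ₀) (hs : R ⊆ sector θ₀) (r : ℝ) :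
    m R r = ENNReal.ofReal (θ₀ * lamOf θ₀ R r) := by
  have hfin : m R r ≠ ⊤ := ne_top_of_le_ne_top ENNReal.ofReal_ne_top (m_le hs r)
  have : θ₀ * lamOf θ₀ R r = (m R r).toReal := by
    unfold lamOf m; field_simp
  rw [this, ENNReal.ofReal_toReal hfin]

theorem lam_meas (hR : MeasurableSet R) : Measurable (lamOf θ₀ R) :=
  (m_meas hR).ennreal_toReal.div_const θ₀

theorem lam_nonneg (hθ : 0 < θ₀) (r : ℝ) : 0 ≤ lamOf θ₀ R r :=
  div_nonneg ENNReal.toReal_nonneg hθ.le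

theorem lam_le (hθ : 0 < θ₀) (hs : R ⊆ sector θ₀) (r : ℝ) : lamOf θ₀ R r ≤ 1 := by
  unfold lamOf
  rw [div_le_one hθ]
  exact ENNReal.toReal_le_of_le_ofReal hθ.le (m_le hs r)

theorem lam_zero (hs : R ⊆ sector θ₀) (r : ℝ) (hr : r ≤ 0) : lamOf θ₀ R r = 0 := by
  have := m_zero hs r hr
  unfold m at this
  unfold lamOf
  rw [this]; simp

theorem area_eq (hθ : 0 < θ₀) {p : ℝ} (hR : MeasurableSet R) (hs : R ⊆ sector θ₀) :
    area p R = ENNReal.ofReal θ₀ * ∫⁻ r, ENNReal.ofReal (lamOf θ₀ R r * r ^ (p + 1)) := by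
  unfold area
  have hm : Measurable fun x : ℝ × ℝ => ENNReal.ofReal (x.1 ^ p * x.1) := by
    apply Measurable.ennreal_ofReal
    exact (measurable_fst.pow_const p).mul measurable_fst
  rw [← lintegral_indicator hR, Measure.volume_eq_prod, lintegral_prod _
    (hm.indicator hR).aemeasurable, ← lintegral_const_mul' _ _ ENNReal.ofReal_ne_top]
  refine lintegral_congr fun r => ?_
  have h1 : ∀ θ, R.indicator (fun x : ℝ × ℝ => ENNReal.ofReal (x.1 ^ p * x.1)) (r, θ) =
      {θ : ℝ | (r, θ) ∈ R}.indicator (fun _ => ENNReal.ofReal (r ^ p * r)) θ := by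
    intro θ
    by_cases h : (r, θ) ∈ R
    · rw [indicator_of_mem h, indicator_of_mem (show θ ∈ {θ : ℝ | (r, θ) ∈ R} from h)]
    · rw [indicator_of_notMem h, indicator_of_notMem (show θ ∉ {θ : ℝ | (r, θ) ∈ R} from h)]
  simp only [h1]
  have hsl : MeasurableSet {θ : ℝ | (r, θ) ∈ R} := measurable_prodMk_left hR
  rw [lintegral_indicator hsl, setLIntegral_const]
  change ENNReal.ofReal (r ^ p * r) * m R r = _
  rcases le_or_gt r 0 with hr | hr
  · rw [m_zero hs r hr, lam_zero hs r hr]; simp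
  · rw [m_eq hθ hs r, ENNReal.ofReal_mul hθ.le, ENNReal.ofReal_mul (lam_nonneg hθ r),
      Real.rpow_add hr, Real.rpow_one]
    ring

end Area2

open Area2 in
theorem AREA2 : S_AREA2 := by
  intro θ₀ p hθ hp R hR hs hA
  have hmeas : Measurable (fun r => lamOf θ₀ R r * r ^ (p + 1)) :=
    (lam_meas hR).mul (measurable_id.pow_const _)
  have hnn : ∀ r, 0 ≤ lamOf θ₀ R r * r ^ (p + 1) := by
    intro r
    rcases le_or_gt r 0 with hr | hr
    · rw [lam_zero hs r hr, zero_mul]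
    · exact mul_nonneg (lam_nonneg hθ r) (Real.rpow_nonneg hr.le _)
  have he := area_eq (p := p) hθ hR hs
  have hint : Integrable (fun r => lamOf θ₀ R r * r ^ (p + 1)) := by
    refine ⟨hmeas.aestronglyMeasurable, ?_⟩
    rw [hasFiniteIntegral_iff_ofReal (Filter.Eventually.of_forall hnn)]
    rw [he] at hA
    exact ENNReal.lt_top_of_mul_ne_top_right hA.ne (by simpa using hθ)
  refine ⟨⟨lam_meas hR, lam_nonneg hθ, lam_le hθ hs, lam_zero hs, hint⟩, ?_⟩
  rw [ENNReal.ofReal_mul hθ.le, he,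
    ofReal_integral_eq_lintegral_ofReal hint (Filter.Eventually.of_forall hnn)]

end Pool.R872.SEC
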