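import Pool.Agent.R872.SEC.Stm

open MeasureTheory Set
open scoped ENNReal

namespace Pool.R872.SEC

namespace CutAux

theorem ii {f : ℝ → ℝ} (hm : Measurable f) {C : ℝ} (hb : ∀ r, |f r| ≤ C) (a b : ℝ) :
    IntervalIntegrable f volume a b := by
  refine (intervalIntegrable_const (c := C)).mono_fun hm.aestronglyMeasurable ?_
  exact Filter.Eventually.of_forall fun r => by
    show |f r| ≤ |C|
    exact (hb r).trans (le_abs_self C)

theorem intg {f : ℝ → ℝ} (hm : Measurable f) {C c d : ℝ} (hb : ∀ r, |f r| ≤ C)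
    (hs : ∀ r, r ∉ Icc c d → f r = 0) : Integrable f := by
  have h : IntegrableOn f (Icc c d) :=
    Measure.integrableOn_of_bounded (M := C) (by simp) hm.aestronglyMeasurable
      (Filter.Eventually.of_forall hb)
  refine (integrableOn_iff_integrable_of_support_subset ?_).1 h
  intro r hr
  by_contra hne
  exact hr (hs r hne)

theorem whole {f : ℝ → ℝ} {c d M : ℝ} (hc : 0 < c) (hs : ∀ r, r ∉ Icc c d → f r = 0)
    (hM : d ≤ M) : ∫ r, f r = ∫ s in (0 : ℝ)..M, f s := by
  symm
  refine intervalIntegral.integral_eq_integral_of_support_subset ?_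
  intro r hr
  have h1 : r ∈ Icc c d := by
    by_contra hne
    exact hr (hs r hne)
  exact ⟨lt_of_lt_of_le hc h1.1, h1.2.trans hM⟩

/-- the glued field -/
noncomputable def gg (x δ a b : ℝ) (g₁ g₂ : ℝ → ℝ) (r : ℝ) : ℝ :=
  if r ≤ x - δ then g₁ r else if r ≤ x then a else if r ≤ x + δ then b else g₂ r

noncomputable def bb (x δ : ℝ) (β₁ β₂ : ℝ → ℝ) (r : ℝ) : ℝ :=
  if r ≤ x - δ then β₁ r else if r ≤ x + δ then 0 else β₂ r

theorem gg_meas {x δ a b : ℝ} {g₁ g₂ : ℝ → ℝ} (h1 : Measurable g₁) (h2 : Measurable g₂) :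
    Measurable (gg x δ a b g₁ g₂) := by
  unfold gg
  refine Measurable.ite (measurableSet_le measurable_id measurable_const) h1 ?_
  refine Measurable.ite (measurableSet_le measurable_id measurable_const) measurable_const ?_
  exact Measurable.ite (measurableSet_le measurable_id measurable_const) measurable_const h2

theorem bb_meas {x δ : ℝ} {g₁ g₂ : ℝ → ℝ} (h1 : Measurable g₁) (h2 : Measurable g₂) :
    Measurable (bb x δ g₁ g₂) := by
  unfold bb
  refine Measurable.ite (measurableSet_le measurable_id measurable_const) h1 ?_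
  exact Measurable.ite (measurableSet_le measurable_id measurable_const) measurable_const h2

theorem gg_bdd {x δ a b : ℝ} {g₁ g₂ : ℝ → ℝ} {C₁ C₂ : ℝ} (h1 : ∀ r, |g₁ r| ≤ C₁)
    (h2 : ∀ r, |g₂ r| ≤ C₂) (r : ℝ) : |gg x δ a b g₁ g₂ r| ≤ C₁ + C₂ + |a| + |b| := by
  have p1 := (abs_nonneg _).trans (h1 0)
  have p2 := (abs_nonneg _).trans (h2 0)
  have p3 := abs_nonneg a
  have p4 := abs_nonneg b
  unfold gg
  split_ifs
  · have := h1 r
    linarith
  · linarith
  · linarith
  · have := h2 r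
    linarith

section

variable {n x δ : ℝ} {g₁ g₂ β₁ β₂ : ℝ → ℝ}

theorem F1 (a b : ℝ) {r : ℝ} (hr0 : 0 ≤ r) (hr : r ≤ x - δ) :
    ∫ s in (0 : ℝ)..r, gg x δ a b g₁ g₂ s = ∫ s in (0 : ℝ)..r, g₁ s := by
  refine intervalIntegral.integral_congr fun s hs => ?_
  rw [uIcc_of_le hr0] at hs
  unfold gg
  exact if_pos (hs.2.trans hr)

theorem F2 (hδ : 0 < δ) (hδx : δ < x) (b : ℝ) (h1 : Measurable g₁) (h2 : Measurable g₂)
    {C₁ C₂ : ℝ} (k1 : ∀ r, |g₁ r| ≤ C₁) (k2 : ∀ r, |g₂ r| ≤ C₂) {r : ℝ} (hr0 : x - δ ≤ r)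
    (hr : r ≤ x) :
    ∫ s in (0 : ℝ)..r, gg x δ (-((∫ s in (0 : ℝ)..(x - δ), g₁ s) / δ)) b g₁ g₂ s =
      (∫ s in (0 : ℝ)..(x - δ), g₁ s) * ((x - r) / δ) := by
  obtain ⟨a, ha⟩ : ∃ a, a = -((∫ s in (0 : ℝ)..(x - δ), g₁ s) / δ) := ⟨_, rfl⟩
  rw [← ha]
  have hi := ii (gg_meas (x := x) (δ := δ) (a := a) (b := b) h1 h2) (gg_bdd k1 k2)
  rw [← intervalIntegral.integral_add_adjacent_intervals (hi 0 (x - δ)) (hi (x - δ) r),
    F1 a b (by linarith) le_rfl]
  have e : ∫ s in (x - δ)..r, gg x δ a b g₁ g₂ s = ∫ _s in (x - δ)..r, a := by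
    refine intervalIntegral.integral_congr_ae (Filter.Eventually.of_forall fun s hs => ?_)
    rw [uIoc_of_le hr0] at hs
    unfold gg
    rw [if_neg (not_le.2 hs.1), if_pos (hs.2.trans hr)]
  rw [e, intervalIntegral.integral_const, ha, smul_eq_mul]
  field_simp
  ring

theorem F3 (hδ : 0 < δ) (hδx : δ < x) (h1 : Measurable g₁) (h2 : Measurable g₂)
    {C₁ C₂ : ℝ} (k1 : ∀ r, |g₁ r| ≤ C₁) (k2 : ∀ r, |g₂ r| ≤ C₂) {r : ℝ} (hr0 : x ≤ r)
    (hr : r ≤ x + δ) :
    ∫ s in (0 : ℝ)..r, gg x δ (-((∫ s in (0 : ℝ)..(x - δ), g₁ s) / δ))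
      ((∫ s in (0 : ℝ)..(x + δ), g₂ s) / δ) g₁ g₂ s =
      (∫ s in (0 : ℝ)..(x + δ), g₂ s) * ((r - x) / δ) := by
  have hF2 := F2 hδ hδx ((∫ s in (0 : ℝ)..(x + δ), g₂ s) / δ) h1 h2 k1 k2 (r := x) (by linarith)
    le_rfl
  obtain ⟨a, ha⟩ : ∃ a, a = -((∫ s in (0 : ℝ)..(x - δ), g₁ s) / δ) := ⟨_, rfl⟩
  obtain ⟨b, hb⟩ : ∃ b, b = (∫ s in (0 : ℝ)..(x + δ), g₂ s) / δ := ⟨_, rfl⟩
  rw [← ha, ← hb] at hF2 ⊢
  have hi := ii (gg_meas (x := x) (δ := δ) (a := a) (b := b) h1 h2) (gg_bdd k1 k2)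
  rw [← intervalIntegral.integral_add_adjacent_intervals (hi 0 x) (hi x r), hF2]
  have e : ∫ s in x..r, gg x δ a b g₁ g₂ s = ∫ _s in x..r, b := by
    refine intervalIntegral.integral_congr_ae (Filter.Eventually.of_forall fun s hs => ?_)
    rw [uIoc_of_le hr0] at hs
    unfold gg
    rw [if_neg (by have := hs.1; linarith), if_neg (not_le.2 hs.1), if_pos (hs.2.trans hr)]
  rw [e, intervalIntegral.integral_const, hb, smul_eq_mul]
  field_simp
  ring

theorem F4 (hδ : 0 < δ) (hδx : δ < x) (h1 : Measurable g₁) (h2 : Measurable g₂)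
    {C₁ C₂ : ℝ} (k1 : ∀ r, |g₁ r| ≤ C₁) (k2 : ∀ r, |g₂ r| ≤ C₂) {r : ℝ} (hr0 : x + δ ≤ r) :
    ∫ s in (0 : ℝ)..r, gg x δ (-((∫ s in (0 : ℝ)..(x - δ), g₁ s) / δ))
      ((∫ s in (0 : ℝ)..(x + δ), g₂ s) / δ) g₁ g₂ s = ∫ s in (0 : ℝ)..r, g₂ s := by
  have hF3 := F3 hδ hδx h1 h2 k1 k2 (r := x + δ) (by linarith) le_rfl
  obtain ⟨a, ha⟩ : ∃ a, a = -((∫ s in (0 : ℝ)..(x - δ), g₁ s) / δ) := ⟨_, rfl⟩
  obtain ⟨b, hb⟩ : ∃ b, b = (∫ s in (0 : ℝ)..(x + δ), g₂ s) / δ := ⟨_, rfl⟩
  rw [← ha, ← hb] at hF3 ⊢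
  have hi := ii (gg_meas (x := x) (δ := δ) (a := a) (b := b) h1 h2) (gg_bdd k1 k2)
  rw [← intervalIntegral.integral_add_adjacent_intervals (hi 0 (x + δ)) (hi (x + δ) r), hF3,
    ← intervalIntegral.integral_add_adjacent_intervals (ii h2 k2 0 (x + δ)) (ii h2 k2 (x + δ) r)]
  have e : ∫ s in (x + δ)..r, gg x δ a b g₁ g₂ s = ∫ s in (x + δ)..r, g₂ s := by
    refine intervalIntegral.integral_congr_ae (Filter.Eventually.of_forall fun s hs => ?_)
    rw [uIoc_of_le hr0] at hs
    unfold gg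
    rw [if_neg (by have := hs.1; linarith), if_neg (by have := hs.1; linarith),
      if_neg (not_le.2 hs.1)]
  rw [e, add_sub_cancel_left, div_self hδ.ne', mul_one]

end

theorem Y_le {n : ℝ} {g β : ℝ → ℝ} (A : Adm n g β) {r : ℝ} (hr : 0 < r) :
    |∫ s in (0 : ℝ)..r, g s| ≤ r ^ n := by
  have h := A.norm_le r hr
  have h2 : (∫ s in (0 : ℝ)..r, g s) ^ 2 ≤ (r ^ n) ^ 2 := by
    have := sq_nonneg (r ^ n * β r)
    linarith
  exact abs_le_of_sq_le_sq h2 (Real.rpow_nonneg hr.le n)

theorem β_le {n : ℝ} {g β : ℝ → ℝ} (A : Adm n g β) (r : ℝ) : β r ≤ 1 := by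
  by_cases hr : 0 < r
  · have h := A.norm_le r hr
    have h0 : 0 < r ^ n := Real.rpow_pos_of_pos hr n
    have h2 : (r ^ n * β r) ^ 2 ≤ (r ^ n) ^ 2 := by
      have := sq_nonneg (∫ s in (0 : ℝ)..r, g s)
      linarith
    have h3 : r ^ n * β r ≤ r ^ n := (le_abs_self _).trans (abs_le_of_sq_le_sq h2 h0.le)
    exact le_of_mul_le_mul_left (by linarith) h0
  · obtain ⟨c, d, hc, hcd, -, h2⟩ := A.supp
    rw [h2 r (fun h => hr (lt_of_lt_of_le hc h.1))]
    norm_num

/-- the glued pair is admissible -/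
theorem glue {n x δ : ℝ} {g₁ g₂ β₁ β₂ : ℝ → ℝ} (hn : 1 < n) (hδ : 0 < δ) (hδx : δ < x)
    (hnδ : n * δ ≤ x + δ) (A1 : Adm n g₁ β₁) (A2 : Adm n g₂ β₂) :
    Adm n (gg x δ (-((∫ s in (0 : ℝ)..(x - δ), g₁ s) / δ))
      ((∫ s in (0 : ℝ)..(x + δ), g₂ s) / δ) g₁ g₂) (bb x δ β₁ β₂) := by
  obtain ⟨C₁, k1⟩ := A1.g_bdd
  obtain ⟨C₂, k2⟩ := A2.g_bdd
  obtain ⟨c1, d1, hc1, hcd1, s1, t1⟩ := A1.supp
  obtain ⟨c2, d2, hc2, hcd2, s2, t2⟩ := A2.supp
  have hxδ : 0 < x - δ := by linarith
  have sup : ∀ r, r ∉ Icc (min (min c1 c2) (x - δ)) (max (max d1 d2) (x + δ)) →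
      (r ≤ x - δ ∧ r ∉ Icc c1 d1) ∨ (x + δ < r ∧ r ∉ Icc c2 d2) := by
    intro r hr
    rw [mem_Icc, not_and_or, not_le, not_le] at hr
    rcases hr with hr | hr
    · left
      rw [lt_min_iff, lt_min_iff] at hr
      exact ⟨hr.2.le, fun h => absurd h.1 (not_le.2 hr.1.1)⟩
    · right
      rw [max_lt_iff, max_lt_iff] at hr
      exact ⟨hr.2, fun h => absurd h.2 (not_le.2 hr.1.2)⟩
  refine ⟨gg_meas A1.g_meas A2.g_meas, ⟨_, gg_bdd k1 k2⟩, bb_meas A1.β_meas A2.β_meas, ?_, ?_, ?_,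
    ?_⟩
  · intro r
    unfold bb
    split_ifs
    · exact A1.β_nonneg r
    · exact le_rfl
    · exact A2.β_nonneg r
  · refine ⟨min (min c1 c2) (x - δ), max (max d1 d2) (x + δ), ?_, ?_, ?_, ?_⟩
    · exact lt_min (lt_min hc1 hc2) hxδ
    · have h1 : min (min c1 c2) (x - δ) ≤ x - δ := min_le_right _ _
      have h2 : x + δ ≤ max (max d1 d2) (x + δ) := le_max_right _ _
      linarith
    · intro r hr
      unfold gg
      rcases sup r hr with h | h
      · rw [if_pos h.1, s1 r h.2]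
      · rw [if_neg (by linarith), if_neg (by linarith), if_neg (not_le.2 h.1), s2 r h.2]
    · intro r hr
      unfold bb
      rcases sup r hr with h | h
      · rw [if_pos h.1, t1 r h.2]
      · rw [if_neg (by linarith), if_neg (not_le.2 h.1), t2 r h.2]
  · obtain ⟨M, hM⟩ : ∃ M, M = max (max d1 d2) (x + δ) := ⟨_, rfl⟩
    rw [whole (c := min (min c1 c2) (x - δ)) (d := max (max d1 d2) (x + δ)) (M := M)
      (lt_min (lt_min hc1 hc2) hxδ) ?_ hM.ge,
      F4 hδ hδx A1.g_meas A2.g_meas k1 k2 (by rw [hM]; exact le_max_right _ _),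
      ← whole hc2 s2 (by rw [hM]; exact (le_max_right _ _).trans (le_max_left _ _)), A2.int_zero]
    intro r hr
    unfold gg
    rcases sup r hr with h | h
    · rw [if_pos h.1, s1 r h.2]
    · rw [if_neg (by linarith), if_neg (by linarith), if_neg (not_le.2 h.1), s2 r h.2]
  · intro r hr
    by_cases q1 : r ≤ x - δ
    · rw [F1 _ _ hr.le q1]
      have e : bb x δ β₁ β₂ r = β₁ r := by
        unfold bb
        rw [if_pos q1]
      rw [e]
      exact A1.norm_le r hr
    · by_cases q4 : x + δ < r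
      · rw [F4 hδ hδx A1.g_meas A2.g_meas k1 k2 q4.le]
        have e : bb x δ β₁ β₂ r = β₂ r := by
          unfold bb
          rw [if_neg q1, if_neg (not_le.2 q4)]
        rw [e]
        exact A2.norm_le r hr
      · push Not at q1 q4
        have e : bb x δ β₁ β₂ r = 0 := by
          unfold bb
          rw [if_neg (not_le.2 q1), if_pos q4]
        rw [e, mul_zero, zero_pow (by norm_num), add_zero]
        by_cases q2 : r ≤ x
        · rw [F2 hδ hδx _ A1.g_meas A2.g_meas k1 k2 q1.le q2]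
          have hY := Y_le A1 hxδ
          have hm : (x - δ) ^ n ≤ r ^ n := Real.rpow_le_rpow hxδ.le q1.le (by linarith)
          have h5 : |(∫ s in (0 : ℝ)..(x - δ), g₁ s) * ((x - r) / δ)| ≤ r ^ n := by
            rw [abs_mul]
            have h6 : |(x - r) / δ| ≤ 1 := by
              rw [abs_of_nonneg (div_nonneg (by linarith) hδ.le), div_le_one hδ]
              linarith
            calc |∫ s in (0 : ℝ)..(x - δ), g₁ s| * |(x - r) / δ| ≤ (x - δ) ^ n * 1 := by
                  gcongr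
              _ ≤ r ^ n := by rw [mul_one]; exact hm
          rw [← sq_abs]
          gcongr
        · push Not at q2
          rw [F3 hδ hδx A1.g_meas A2.g_meas k1 k2 q2.le q4]
          have hxd : 0 < x + δ := by linarith
          have hY := Y_le A2 hxd
          have h5 : |(∫ s in (0 : ℝ)..(x + δ), g₂ s) * ((r - x) / δ)| ≤ r ^ n := by
            rw [abs_mul]
            have h6 : 0 ≤ (r - x) / δ := div_nonneg (by linarith) hδ.le
            rw [abs_of_nonneg h6]
            have hB := one_add_mul_self_le_rpow_one_add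
              (s := -((x + δ - r) / (x + δ))) (by
                rw [neg_le_neg_iff, div_le_one hxd]
                linarith) hn.le
            have h7 : (r - x) / δ ≤ 1 + n * -((x + δ - r) / (x + δ)) := by
              have h8 : n * ((x + δ - r) / (x + δ)) ≤ (x + δ - r) / δ := by
                rw [← mul_div_assoc, div_le_div_iff₀ hxd hδ]
                nlinarith
              have h9 : (r - x) / δ = 1 - (x + δ - r) / δ := by
                field_simp
                ring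
              rw [h9]
              linarith
            have h10 : 1 + -((x + δ - r) / (x + δ)) = r / (x + δ) := by
              field_simp
              ring
            rw [h10] at hB
            calc |∫ s in (0 : ℝ)..(x + δ), g₂ s| * ((r - x) / δ)
                ≤ (x + δ) ^ n * (r / (x + δ)) ^ n := by
                  refine mul_le_mul hY (h7.trans hB) h6 (Real.rpow_nonneg hxd.le n)
              _ = r ^ n := by
                  rw [← Real.mul_rpow hxd.le (by positivity)]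
                  congr 1
                  field_simp
          rw [← sq_abs]
          gcongr

/-- truncation errors of the linear part -/
theorem lin_err {n x δ a b C₁ C₂ : ℝ} {g₁ g₂ β₁ β₂ lam : ℝ → ℝ}
    (hδ : 0 < δ) (hδx : δ < x)
    (A1 : Adm n g₁ β₁) (A2 : Adm n g₂ β₂) (k1 : ∀ r, |g₁ r| ≤ C₁) (k2 : ∀ r, |g₂ r| ≤ C₂)
    (hl : Prof n lam) :
    (∫ r, (if r < x then lam r else 0) * g₁ r) + (∫ r, (if x < r then lam r else 0) * g₂ r) ≤
      (∫ r, lam r * gg x δ a b g₁ g₂ r) + (C₁ * δ + |a| * ∫ r in (x - δ)..x, lam r) +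
        (C₂ * δ + |b| * ∫ r in x..(x + δ), lam r) := by
  obtain ⟨c1, d1, hc1, hcd1, s1, t1⟩ := A1.supp
  obtain ⟨c2, d2, hc2, hcd2, s2, t2⟩ := A2.supp
  have p1 := (abs_nonneg _).trans (k1 0)
  have p2 := (abs_nonneg _).trans (k2 0)
  have la : ∀ r, |lam r| ≤ 1 := fun r => by rw [abs_of_nonneg (hl.nonneg r)]; exact hl.le_one r
  have m1 : Measurable fun r => (if r < x then lam r else 0) * g₁ r :=
    (Measurable.ite measurableSet_Iio hl.meas measurable_const).mul A1.g_meas
  have m2 : Measurable fun r => (if x < r then lam r else 0) * g₂ r :=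
    (Measurable.ite measurableSet_Ioi hl.meas measurable_const).mul A2.g_meas
  have i1 : Integrable fun r => (if r < x then lam r else 0) * g₁ r := by
    refine intg m1 (C := 1 * C₁) (c := c1) (d := d1) (fun r => ?_) fun r hr => by
      rw [s1 r hr, mul_zero]
    rw [abs_mul]
    refine mul_le_mul ?_ (k1 r) (abs_nonneg _) zero_le_one
    split_ifs
    · exact la r
    · simp
  have i2 : Integrable fun r => (if x < r then lam r else 0) * g₂ r := by
    refine intg m2 (C := 1 * C₂) (c := c2) (d := d2) (fun r => ?_) fun r hr => by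
      rw [s2 r hr, mul_zero]
    rw [abs_mul]
    refine mul_le_mul ?_ (k2 r) (abs_nonneg _) zero_le_one
    split_ifs
    · exact la r
    · simp
  have i3 : Integrable fun r => lam r * gg x δ a b g₁ g₂ r := by
    refine intg (hl.meas.mul (gg_meas A1.g_meas A2.g_meas)) (C := 1 * (C₁ + C₂ + |a| + |b|))
      (c := min c1 (x - δ)) (d := max d2 (x + δ)) (fun r => ?_) fun r hr => ?_
    · rw [abs_mul]
      exact mul_le_mul (la r) (gg_bdd k1 k2 r) (abs_nonneg _) zero_le_one
    · rw [mem_Icc, not_and_or, not_le, not_le, lt_min_iff, max_lt_iff] at hr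
      unfold gg
      rcases hr with h | h
      · rw [if_pos h.2.le, s1 r (fun h' => absurd h'.1 (not_le.2 h.1)), mul_zero]
      · rw [if_neg (by linarith), if_neg (by linarith), if_neg (not_le.2 h.2),
          s2 r (fun h' => absurd h'.2 (not_le.2 h.1)), mul_zero]
  have li : ∀ u v : ℝ, IntegrableOn lam (Ioc u v) := fun u v =>
    Measure.integrableOn_of_bounded (M := 1) (by simp) hl.meas.aestronglyMeasurable
      (Filter.Eventually.of_forall la)
  have ic : ∀ (c u v : ℝ), IntegrableOn (fun _ : ℝ => c) (Ioc u v) := fun c u v =>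
    integrableOn_const (by simp)
  have i4 : Integrable (fun r => (Ioc (x - δ) x).indicator (fun r => C₁ + |a| * lam r) r) := by
    have h : Integrable ((Ioc (x - δ) x).indicator fun r => C₁ + |a| * lam r) := by
      rw [integrable_indicator_iff measurableSet_Ioc]
      exact (ic _ _ _).add ((li _ _).const_mul _)
    exact h
  have i5 : Integrable (fun r => (Ioc x (x + δ)).indicator (fun r => C₂ + |b| * lam r) r) := by
    have h : Integrable ((Ioc x (x + δ)).indicator fun r => C₂ + |b| * lam r) := by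
      rw [integrable_indicator_iff measurableSet_Ioc]
      exact (ic _ _ _).add ((li _ _).const_mul _)
    exact h
  have e4 : ∫ r, (Ioc (x - δ) x).indicator (fun r => C₁ + |a| * lam r) r =
      C₁ * δ + |a| * ∫ r in (x - δ)..x, lam r := by
    rw [integral_indicator measurableSet_Ioc,
      integral_add (ic C₁ (x - δ) x) ((li (x - δ) x).const_mul |a|), integral_const_mul,
      intervalIntegral.integral_of_le (by linarith)]
    congr 1
    rw [setIntegral_const, smul_eq_mul, Real.volume_real_Ioc_of_le (by linarith)]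
    ring
  have e5 : ∫ r, (Ioc x (x + δ)).indicator (fun r => C₂ + |b| * lam r) r =
      C₂ * δ + |b| * ∫ r in x..(x + δ), lam r := by
    rw [integral_indicator measurableSet_Ioc,
      integral_add (ic C₂ x (x + δ)) ((li x (x + δ)).const_mul |b|), integral_const_mul,
      intervalIntegral.integral_of_le (by linarith)]
    congr 1
    rw [setIntegral_const, smul_eq_mul, Real.volume_real_Ioc_of_le (by linarith)]
    ring
  have i34 : Integrable (fun r => lam r * gg x δ a b g₁ g₂ r +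
      (Ioc (x - δ) x).indicator (fun r => C₁ + |a| * lam r) r) := i3.add i4
  rw [← e4, ← e5, ← integral_add i1 i2, ← integral_add i3 i4, ← integral_add i34 i5]
  refine integral_mono (i1.add i2) (i34.add i5) fun r => ?_
  have hlr := hl.nonneg r
  have hlr1 := hl.le_one r
  simp only [Pi.add_apply]
  unfold gg
  by_cases q1 : r ≤ x - δ
  · rw [if_pos q1, if_pos (by linarith), if_neg (by linarith),
      indicator_of_notMem (by rw [mem_Ioc]; rintro ⟨h, -⟩; linarith),
      indicator_of_notMem (by rw [mem_Ioc]; rintro ⟨h, -⟩; linarith)]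
    linarith
  · by_cases q2 : r ≤ x
    · rw [if_neg q1, if_pos q2, if_neg (not_lt.2 q2),
        indicator_of_mem (by rw [mem_Ioc]; exact ⟨not_le.1 q1, q2⟩),
        indicator_of_notMem (by rw [mem_Ioc]; rintro ⟨h, -⟩; linarith)]
      have h1 : (if r < x then lam r else 0) * g₁ r ≤ C₁ := by
        split_ifs
        · have h2 := (le_abs_self _).trans (k1 r)
          nlinarith [mul_le_mul_of_nonneg_left h2 hlr]
        · rw [zero_mul]; exact p1
      have h3 : -(|a| * lam r) ≤ lam r * a := by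
        have := neg_abs_le a
        nlinarith
      linarith
    · by_cases q4 : r ≤ x + δ
      · rw [if_neg q1, if_neg q2, if_pos q4, if_neg (by linarith), if_pos (not_le.1 q2),
          indicator_of_notMem (by rw [mem_Ioc]; rintro ⟨-, h⟩; exact q2 h),
          indicator_of_mem (by rw [mem_Ioc]; exact ⟨not_le.1 q2, q4⟩)]
        have h2 := (le_abs_self _).trans (k2 r)
        have h1 : lam r * g₂ r ≤ C₂ := by
          nlinarith [mul_le_mul_of_nonneg_left h2 hlr]
        have h3 : -(|b| * lam r) ≤ lam r * b := by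
          have := neg_abs_le b
          nlinarith
        linarith
      · rw [if_neg q1, if_neg q2, if_neg q4, if_neg (by linarith), if_pos (not_le.1 q2),
          indicator_of_notMem (by rw [mem_Ioc]; rintro ⟨-, h⟩; exact q2 h),
          indicator_of_notMem (by rw [mem_Ioc]; rintro ⟨-, h⟩; exact q4 h)]
        linarith

theorem D_meas {lam : ℝ → ℝ} (hl : Measurable lam) : MeasurableSet {r | 0 < lam r ∧ lam r < 1} :=
  (measurableSet_lt measurable_const hl).inter (measurableSet_lt hl measurable_const)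

theorem f_int {n : ℝ} {g β lam : ℝ → ℝ} (hn : 1 < n) (A : Adm n g β) (hl : Measurable lam) :
    Integrable ({r | 0 < lam r ∧ lam r < 1}.indicator fun r => r ^ (n - 1) * β r) := by
  obtain ⟨c, d, hc, hcd, s, t⟩ := A.supp
  have hd : 0 < d := hc.trans hcd
  have hm : Measurable ({r | 0 < lam r ∧ lam r < 1}.indicator fun r : ℝ => r ^ (n - 1) * β r) :=
    ((measurable_id.pow_const (n - 1)).mul A.β_meas).indicator (D_meas hl)
  refine intg hm (C := d ^ (n - 1)) (c := c) (d := d) (fun r => ?_) fun r hr => ?_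
  · by_cases hr : r ∈ Icc c d
    · by_cases hD : r ∈ {r | 0 < lam r ∧ lam r < 1}
      · rw [indicator_of_mem hD]
        have hr0 : 0 < r := lt_of_lt_of_le hc hr.1
        rw [abs_of_nonneg (mul_nonneg (Real.rpow_nonneg hr0.le _) (A.β_nonneg r))]
        calc r ^ (n - 1) * β r ≤ d ^ (n - 1) * 1 :=
              mul_le_mul (Real.rpow_le_rpow hr0.le hr.2 (by linarith)) (β_le A r)
                (A.β_nonneg r) (Real.rpow_nonneg hd.le _)
          _ = d ^ (n - 1) := mul_one _
      · rw [indicator_of_notMem hD, abs_zero]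
        exact Real.rpow_nonneg hd.le _
    · have : ({r | 0 < lam r ∧ lam r < 1}.indicator fun r : ℝ => r ^ (n - 1) * β r) r = 0 := by
        by_cases hD : r ∈ {r | 0 < lam r ∧ lam r < 1}
        · rw [indicator_of_mem hD, t r hr, mul_zero]
        · rw [indicator_of_notMem hD]
      rw [this, abs_zero]
      exact Real.rpow_nonneg hd.le _
  · by_cases hD : r ∈ {r | 0 < lam r ∧ lam r < 1}
    · rw [indicator_of_mem hD, t r hr, mul_zero]
    · rw [indicator_of_notMem hD]

/-- truncation errors of the second part -/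
theorem bet_err {n x δ : ℝ} {g₁ g₂ β₁ β₂ g lam : ℝ → ℝ} (hn : 1 < n) (hδ : 0 < δ) (hδx : δ < x)
    (hδ1 : δ ≤ 1)
    (A1 : Adm n g₁ β₁) (A2 : Adm n g₂ β₂) (A : Adm n g (bb x δ β₁ β₂)) (hl : Prof n lam) :
    (∫ r in {r | 0 < (if r < x then lam r else 0) ∧ (if r < x then lam r else 0) < 1},
        r ^ (n - 1) * β₁ r) +
      (∫ r in {r | 0 < (if x < r then lam r else 0) ∧ (if x < r then lam r else 0) < 1},
        r ^ (n - 1) * β₂ r) ≤
      (∫ r in {r | 0 < lam r ∧ lam r < 1}, r ^ (n - 1) * bb x δ β₁ β₂ r) +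
        2 * δ * (x + 1) ^ (n - 1) := by
  have l1 : Measurable fun r => if r < x then lam r else 0 :=
    Measurable.ite measurableSet_Iio hl.meas measurable_const
  have l2 : Measurable fun r => if x < r then lam r else 0 :=
    Measurable.ite measurableSet_Ioi hl.meas measurable_const
  have i1 := f_int hn A1 l1
  have i2 := f_int hn A2 l2
  have i3 := f_int hn A hl.meas
  have i4 : Integrable ((Ioc (x - δ) (x + δ)).indicator fun _ => (x + 1) ^ (n - 1)) := by
    rw [integrable_indicator_iff measurableSet_Ioc]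
    exact integrableOn_const (by simp)
  have e4 : ∫ r, (Ioc (x - δ) (x + δ)).indicator (fun _ => (x + 1) ^ (n - 1)) r =
      2 * δ * (x + 1) ^ (n - 1) := by
    rw [integral_indicator measurableSet_Ioc, setIntegral_const, smul_eq_mul,
      Real.volume_real_Ioc_of_le (by linarith)]
    ring
  rw [← integral_indicator (D_meas l1), ← integral_indicator (D_meas l2),
    ← integral_indicator (D_meas hl.meas), ← e4, ← integral_add i1 i2, ← integral_add i3 i4]
  refine integral_mono (i1.add i2) (i3.add i4) fun r => ?_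
  have hx : 0 < x := hδ.trans hδx
  have hpow : ∀ r, 0 < r → r ≤ x + δ → ∀ b : ℝ, 0 ≤ b → b ≤ 1 →
      r ^ (n - 1) * b ≤ (x + 1) ^ (n - 1) := by
    intro r h0 h1 b hb0 hb1
    calc r ^ (n - 1) * b ≤ (x + 1) ^ (n - 1) * 1 :=
          mul_le_mul (Real.rpow_le_rpow h0.le (by linarith) (by linarith)) hb1 hb0
            (Real.rpow_nonneg (by linarith) _)
      _ = _ := mul_one _
  have hp0 : 0 ≤ (x + 1) ^ (n - 1) := Real.rpow_nonneg (by linarith) _
  simp only [Pi.add_apply, indicator, mem_ofPred_eq, mem_Ioc]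
  unfold bb
  by_cases q1 : r ≤ x - δ
  · have a1 : r < x := by linarith
    have a2 : ¬ x < r := by linarith
    have a3 : ¬ (x - δ < r ∧ r ≤ x + δ) := fun h => by linarith [h.1]
    simp only [a1, a2, a3, q1, if_true, if_false, lt_irrefl, false_and]
    linarith
  · by_cases q4 : r ≤ x + δ
    · have a3 : x - δ < r ∧ r ≤ x + δ := ⟨not_le.1 q1, q4⟩
      have hr0 : 0 < r := by linarith [a3.1]
      simp only [a3, q1, q4, if_true, if_false, mul_zero, and_self]
      have b1 := hpow r hr0 q4 (β₁ r) (A1.β_nonneg r) (β_le A1 r)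
      have b2 := hpow r hr0 q4 (β₂ r) (A2.β_nonneg r) (β_le A2 r)
      have e0 : (if 0 < lam r ∧ lam r < 1 then (0 : ℝ) else 0) = 0 := ite_self _
      rw [e0, zero_add]
      rcases lt_trichotomy r x with h | h | h
      · have a2 : ¬ x < r := not_lt.2 h.le
        simp only [h, a2, if_true, if_false, lt_irrefl, false_and, add_zero]
        split_ifs
        · exact b1
        · exact hp0
      · have a1 : ¬ r < x := by rw [h]; exact lt_irrefl x
        have a2 : ¬ x < r := by rw [h]; exact lt_irrefl x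
        simp only [a1, a2, if_false, lt_irrefl, false_and, add_zero]
        exact hp0
      · have a1 : ¬ r < x := not_lt.2 h.le
        simp only [h, a1, if_true, if_false, lt_irrefl, false_and, zero_add]
        split_ifs
        · exact b2
        · exact hp0
    · have a1 : ¬ r < x := by linarith
      have a2 : x < r := by linarith
      have a3 : ¬ (x - δ < r ∧ r ≤ x + δ) := fun h => q4 h.2
      simp only [a1, a2, q1, q4, if_true, if_false, lt_irrefl, false_and, and_false]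
      linarith

theorem claim {θ₀ n : ℝ} {lam : ℝ → ℝ} {P : ℝ} (hθ : 0 < θ₀) (hn : 1 < n) (hl : Prof n lam)
    (hP : LB θ₀ n lam P) {x : ℝ} (hx : Cut lam x) {g₁ β₁ g₂ β₂ : ℝ → ℝ} (A1 : Adm n g₁ β₁)
    (A2 : Adm n g₂ β₂) :
    T θ₀ n (fun r => if r < x then lam r else 0) g₁ β₁ +
      T θ₀ n (fun r => if x < r then lam r else 0) g₂ β₂ ≤ P := by
  obtain ⟨C₁, k1⟩ := A1.g_bdd
  obtain ⟨C₂, k2⟩ := A2.g_bdd
  have hx0 := hx.1
  have hev : ∀ᶠ δ : ℝ in nhdsWithin 0 (Ioi 0),
      T θ₀ n (fun r => if r < x then lam r else 0) g₁ β₁ +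
        T θ₀ n (fun r => if x < r then lam r else 0) g₂ β₂ ≤
      P + (θ₀ * ((C₁ * δ + x ^ n * (δ⁻¹ * ∫ r in (x - δ)..x, lam r)) +
        (C₂ * δ + (x + 1) ^ n * (δ⁻¹ * ∫ r in x..(x + δ), lam r))) +
        2 * δ * (x + 1) ^ (n - 1)) := by
    have hs : Ioo (0 : ℝ) (min (min 1 x) (x / n)) ∈ nhdsWithin (0 : ℝ) (Ioi 0) :=
      Ioo_mem_nhdsGT (lt_min (lt_min one_pos hx0) (by positivity))
    filter_upwards [hs] with δ hδm
    obtain ⟨hδ, hδ2⟩ := hδm
    rw [lt_min_iff, lt_min_iff] at hδ2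
    obtain ⟨⟨hδ1, hδx⟩, hδn⟩ := hδ2
    have hnδ : n * δ ≤ x + δ := by
      rw [lt_div_iff₀ (by linarith)] at hδn
      nlinarith
    have hA := glue hn hδ hδx hnδ A1 A2
    have hT := hP _ _ hA
    have e1 := lin_err (a := -((∫ s in (0 : ℝ)..(x - δ), g₁ s) / δ))
      (b := (∫ s in (0 : ℝ)..(x + δ), g₂ s) / δ) hδ hδx A1 A2 k1 k2 hl
    have e2 := bet_err hn hδ hδx hδ1.le A1 A2 hA hl
    have I1 : 0 ≤ ∫ r in (x - δ)..x, lam r :=
      intervalIntegral.integral_nonneg (by linarith) fun r _ => hl.nonneg r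
    have I2 : 0 ≤ ∫ r in x..(x + δ), lam r :=
      intervalIntegral.integral_nonneg (by linarith) fun r _ => hl.nonneg r
    have Y1 := Y_le A1 (show 0 < x - δ by linarith)
    have Y2 := Y_le A2 (show 0 < x + δ by linarith)
    have a1 : |(-((∫ s in (0 : ℝ)..(x - δ), g₁ s) / δ))| * ∫ r in (x - δ)..x, lam r ≤
        x ^ n * (δ⁻¹ * ∫ r in (x - δ)..x, lam r) := by
      rw [abs_neg, abs_div, abs_of_pos hδ, div_eq_mul_inv, mul_assoc]
      refine mul_le_mul_of_nonneg_right (Y1.trans ?_) (mul_nonneg (by positivity) I1)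
      exact Real.rpow_le_rpow (by linarith) (by linarith) (by linarith)
    have a2 : |(∫ s in (0 : ℝ)..(x + δ), g₂ s) / δ| * ∫ r in x..(x + δ), lam r ≤
        (x + 1) ^ n * (δ⁻¹ * ∫ r in x..(x + δ), lam r) := by
      rw [abs_div, abs_of_pos hδ, div_eq_mul_inv, mul_assoc]
      refine mul_le_mul_of_nonneg_right (Y2.trans ?_) (mul_nonneg (by positivity) I2)
      exact Real.rpow_le_rpow (by linarith) (by linarith) (by linarith)
    unfold T at hT ⊢
    have e3 := mul_le_mul_of_nonneg_left e1 hθ.le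
    have e4 := mul_le_mul_of_nonneg_left a1 hθ.le
    have e5 := mul_le_mul_of_nonneg_left a2 hθ.le
    nlinarith [e2, e3, e4, e5, hT]
  have hlim : Filter.Tendsto (fun δ : ℝ =>
      P + (θ₀ * ((C₁ * δ + x ^ n * (δ⁻¹ * ∫ r in (x - δ)..x, lam r)) +
        (C₂ * δ + (x + 1) ^ n * (δ⁻¹ * ∫ r in x..(x + δ), lam r))) +
        2 * δ * (x + 1) ^ (n - 1))) (nhdsWithin 0 (Ioi 0))
      (nhds (P + (θ₀ * ((C₁ * 0 + x ^ n * 0) + (C₂ * 0 + (x + 1) ^ n * 0)) +
        2 * 0 * (x + 1) ^ (n - 1)))) := by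
    have hid : Filter.Tendsto (fun δ : ℝ => δ) (nhdsWithin 0 (Ioi 0)) (nhds 0) :=
      Filter.tendsto_id.mono_left nhdsWithin_le_nhds
    have h1 := hx.2.1
    have h2 := hx.2.2
    unfold LeftVal at h1
    unfold RightVal at h2
    exact ((((((hid.const_mul C₁).add (h1.const_mul (x ^ n))).add
      ((hid.const_mul C₂).add (h2.const_mul ((x + 1) ^ n)))).const_mul θ₀).add
      ((hid.const_mul 2).mul_const _)).const_add P)
  have := ge_of_tendsto hlim hev
  simpa using this

end CutAux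

open CutAux in
theorem CUT : S_CUT := by
  intro θ₀ n lam P hθ hn hl hP x hx
  have A0 : Adm n (fun _ => 0) (fun _ => 0) := by
    refine ⟨measurable_const, ⟨0, by simp⟩, measurable_const, fun r => le_rfl,
      ⟨1, 2, by norm_num, by norm_num, fun _ _ => rfl, fun _ _ => rfl⟩, by simp, fun r hr => ?_⟩
    simp
    positivity
  have T0 : ∀ l : ℝ → ℝ, T θ₀ n l (fun _ => 0) (fun _ => 0) = 0 := by
    intro l
    unfold T
    simp
  obtain ⟨S, hS⟩ : ∃ S : Set ℝ, S = {t | ∃ g β, Adm n g β ∧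
    t = T θ₀ n (fun r => if r < x then lam r else 0) g β} := ⟨_, rfl⟩
  have hSn : S.Nonempty := ⟨_, by rw [hS]; exact ⟨_, _, A0, rfl⟩⟩
  have hSb : ∀ (g₂ β₂ : ℝ → ℝ), Adm n g₂ β₂ → ∀ t ∈ S,
      t ≤ P - T θ₀ n (fun r => if x < r then lam r else 0) g₂ β₂ := by
    intro g₂ β₂ A2 t ht
    rw [hS] at ht
    obtain ⟨g₁, β₁, A1, rfl⟩ := ht
    have := claim hθ hn hl hP hx A1 A2
    linarith
  have hbd : BddAbove S := ⟨_, fun t ht => hSb _ _ A0 t ht⟩
  refine ⟨sSup S, P - sSup S, by linarith, fun g β A => ?_, fun g β A => ?_⟩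
  · exact le_csSup hbd (by rw [hS]; exact ⟨g, β, A, rfl⟩)
  · have := csSup_le hSn (hSb g β A)
    linarith

end Pool.R872.SEC
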