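import Pool.Agent.R872.SEC.Stm

open MeasureTheory Set Filter Topology

namespace Pool.R872.SEC

theorem DENS : S_DENS := by
  intro lam hm h0 h1
  have hloc : LocallyIntegrable lam volume := by
    refine (locallyIntegrable_const (1 : ℝ)).mono hm.aestronglyMeasurable ?_
    filter_upwards with x
    rw [Real.norm_eq_abs, Real.norm_eq_abs, abs_of_nonneg (h0 x), abs_one]
    exact h1 x
  filter_upwards [LocallyIntegrable.ae_hasDerivAt_integral hloc] with x hx
  have hd := (hasDerivAt_iff_tendsto_slope_zero.1 (hx x))
  simp only [intervalIntegral.integral_same, sub_zero, smul_eq_mul] at hd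
  constructor
  · unfold LeftVal
    have ht : Tendsto (fun δ : ℝ => -δ) (𝓝[>] (0 : ℝ)) (𝓝[≠] (0 : ℝ)) := by
      rw [tendsto_nhdsWithin_iff]
      constructor
      · have : Tendsto (fun δ : ℝ => -δ) (𝓝 (0 : ℝ)) (𝓝 (-0)) := tendsto_id.neg
        rw [neg_zero] at this
        exact this.mono_left nhdsWithin_le_nhds
      · filter_upwards [self_mem_nhdsWithin] with δ hδ
        have : (0 : ℝ) < δ := hδ
        simp only [mem_compl_iff, mem_singleton_iff, neg_eq_zero]
        exact this.ne'
    refine (hd.comp ht).congr' ?_
    filter_upwards with δ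
    simp only [Function.comp_apply]
    rw [intervalIntegral.integral_symm, ← sub_eq_add_neg, inv_neg]
    ring
  · unfold RightVal
    refine hd.mono_left ?_
    apply nhdsWithin_mono
    intro δ hδ
    have : (0 : ℝ) < δ := hδ
    exact this.ne'

end Pool.R872.SEC
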