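import Mathlib

open MeasureTheory Set
open scoped ENNReal

namespace Pool.R872.SEC

/-- The open sector of angle `θ₀`, in polar coordinates `(r, θ)`, with the flat metric
`dr² + r² dθ²`. -/
def sector (θ₀ : ℝ) : Set (ℝ × ℝ) := {x | 0 < x.1 ∧ 0 < x.2 ∧ x.2 < θ₀}

/-- The weighted area `A_p(R) = ∫_R r^p dA`, where `dA = r dr dθ`. -/
noncomputable def area (p : ℝ) (R : Set (ℝ × ℝ)) : ℝ≥0∞ :=
  ∫⁻ x in R, ENNReal.ofReal (x.1 ^ p * x.1)

/-- `a e_r + b e_θ` (where `e_r = ∂_r` and `e_θ = (1/r) ∂_θ` is the orthonormal frame) is a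
vector field of class `C¹`, of length at most `1`, with compact support in the open sector. -/
structure IsTest (θ₀ : ℝ) (a b : ℝ × ℝ → ℝ) : Prop where
  a_diff : ContDiff ℝ 1 a
  b_diff : ContDiff ℝ 1 b
  a_cpt : HasCompactSupport a
  b_cpt : HasCompactSupport b
  a_supp : tsupport a ⊆ sector θ₀
  b_supp : tsupport b ⊆ sector θ₀
  norm_le : ∀ x, a x ^ 2 + b x ^ 2 ≤ 1

/-- The flux `∫_R div (r^p (a e_r + b e_θ)) dA`; in polar coordinates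
`div (r^p (a e_r + b e_θ)) dA = (∂_r (r^{p+1} a) + ∂_θ (r^p b)) dr dθ`. -/
noncomputable def flux (p : ℝ) (a b : ℝ × ℝ → ℝ) (R : Set (ℝ × ℝ)) : ℝ :=
  ∫ x in R, (deriv (fun r => r ^ (p + 1) * a (r, x.2)) x.1 +
    deriv (fun θ => x.1 ^ p * b (x.1, θ)) x.2)

/-- The weighted perimeter of `R` relative to the open sector, in the sense of De Giorgi. -/
noncomputable def perimeter (θ₀ p : ℝ) (R : Set (ℝ × ℝ)) : ℝ≥0∞ :=
  ⨆ (a : ℝ × ℝ → ℝ) (b : ℝ × ℝ → ℝ) (_ : IsTest θ₀ a b), ENNReal.ofReal (flux p a b R)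

/-- The region `R` of the sector is isoperimetric for the density `r^p`. -/
def IsIso (θ₀ p : ℝ) (R : Set (ℝ × ℝ)) : Prop :=
  ∀ R' : Set (ℝ × ℝ), MeasurableSet R' → R' ⊆ sector θ₀ → area p R' = area p R →
    perimeter θ₀ p R ≤ perimeter θ₀ p R'

/-- The region `{r < ρ}` of the sector, bounded by a circular arc about the origin. -/
def arcRegion (θ₀ ρ : ℝ) : Set (ℝ × ℝ) := {x | x ∈ sector θ₀ ∧ x.1 < ρ}

/-- The region `{r < f θ}` of the sector. -/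
def graphRegion (θ₀ : ℝ) (f : ℝ → ℝ) : Set (ℝ × ℝ) := {x | x ∈ sector θ₀ ∧ x.1 < f x.2}

/-! ### the one-dimensional problem -/

/-- `lam` is a profile: measurable, with values in `[0, 1]`, zero on `(-∞, 0]`, of finite
volume. -/
structure Prof (n : ℝ) (lam : ℝ → ℝ) : Prop where
  meas : Measurable lam
  nonneg : ∀ r, 0 ≤ lam r
  le_one : ∀ r, lam r ≤ 1
  zero : ∀ r, r ≤ 0 → lam r = 0
  fin : Integrable (fun r => lam r * r ^ n)

/-- the normalised angular measure of the slices of `R` -/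
noncomputable def lamOf (θ₀ : ℝ) (R : Set (ℝ × ℝ)) (r : ℝ) : ℝ :=
  (volume {θ : ℝ | (r, θ) ∈ R}).toReal / θ₀

/-- admissible pairs: `g` is the derivative of `Y(r) = ∫₀^r g`, and `Y² + (r^n β)² ≤ r^{2n}` -/
structure Adm (n : ℝ) (g β : ℝ → ℝ) : Prop where
  g_meas : Measurable g
  g_bdd : ∃ C, ∀ r, |g r| ≤ C
  β_meas : Measurable β
  β_nonneg : ∀ r, 0 ≤ β r
  supp : ∃ c d, 0 < c ∧ c < d ∧ (∀ r, r ∉ Icc c d → g r = 0) ∧ (∀ r, r ∉ Icc c d → β r = 0)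
  int_zero : ∫ r, g r = 0
  norm_le : ∀ r, 0 < r → (∫ s in (0 : ℝ)..r, g s) ^ 2 + (r ^ n * β r) ^ 2 ≤ (r ^ n) ^ 2

/-- the one-dimensional flux -/
noncomputable def T (θ₀ n : ℝ) (lam g β : ℝ → ℝ) : ℝ :=
  θ₀ * (∫ r, lam r * g r) + ∫ r in {r | 0 < lam r ∧ lam r < 1}, r ^ (n - 1) * β r

/-- `P` is an upper bound for the one-dimensional fluxes -/
def LB (θ₀ n : ℝ) (lam : ℝ → ℝ) (P : ℝ) : Prop := ∀ g β, Adm n g β → T θ₀ n lam g β ≤ P

/-- the average of `lam` over `(x - δ, x)` tends to `κ` as `δ → 0+` -/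
def LeftVal (lam : ℝ → ℝ) (x κ : ℝ) : Prop :=
  Filter.Tendsto (fun δ : ℝ => δ⁻¹ * ∫ r in (x - δ)..x, lam r) (nhdsWithin 0 (Ioi 0)) (nhds κ)

/-- the average of `lam` over `(x, x + δ)` tends to `κ` as `δ → 0+` -/
def RightVal (lam : ℝ → ℝ) (x κ : ℝ) : Prop :=
  Filter.Tendsto (fun δ : ℝ => δ⁻¹ * ∫ r in x..(x + δ), lam r) (nhdsWithin 0 (Ioi 0)) (nhds κ)

/-- a cut point: the two one-sided averages of `lam` at `x > 0` are `0` -/
def Cut (lam : ℝ → ℝ) (x : ℝ) : Prop := 0 < x ∧ LeftVal lam x 0 ∧ RightVal lam x 0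

end Pool.R872.SEC
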