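import Pool.Agent.R872.SEC.Stm

/-!
# Project SEC, piece EPS: the second variation
-/

open MeasureTheory Set

namespace Pool.R872.SEC

/-- Change of variables in the averages. -/
theorem eps_avg {θ₀ : ℝ} (h : 0 < θ₀) (f : ℝ → ℝ) :
    θ₀⁻¹ * (∫ θ in (0 : ℝ)..θ₀, f (Real.pi * θ / θ₀)) =
      Real.pi⁻¹ * ∫ u in (0 : ℝ)..Real.pi, f u := by
  have hpi := Real.pi_pos
  have h1 : (∫ θ in (0 : ℝ)..θ₀, f (Real.pi * θ / θ₀)) =
      ∫ θ in (0 : ℝ)..θ₀, f ((Real.pi / θ₀) * θ) := by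
    congr 1
    funext θ
    congr 1
    ring
  have hc : Real.pi / θ₀ ≠ 0 := (div_pos hpi h).ne'
  rw [h1, intervalIntegral.integral_comp_mul_left f hc, mul_zero, div_mul_cancel₀ _ h.ne',
    smul_eq_mul]
  have h2 : θ₀⁻¹ * (Real.pi / θ₀)⁻¹ = Real.pi⁻¹ := by
    field_simp
  rw [← mul_assoc, h2]

/-- The auxiliary function of the first derivative. -/
theorem eps_aux {τ ε : ℝ} (hτ : 0 < τ) (hτ1 : τ < 1) (hε : 0 < ε) (hε1 : ε < 1) :
    MonotoneOn (fun h : ℝ => (1 + h) ^ τ - 1 - τ * (1 / (1 + ε)) * h) (Icc (-ε) ε) := by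
  have hder : ∀ h ∈ Icc (-ε) ε, HasDerivAt (fun h : ℝ => (1 + h) ^ τ - 1 - τ * (1 / (1 + ε)) * h)
      (τ * (1 + h) ^ (τ - 1) - τ * (1 / (1 + ε))) h := by
    intro h hh
    have h0 : 0 < 1 + h := by linarith [hh.1]
    have h1 : HasDerivAt (fun h : ℝ => 1 + h) 1 h := (hasDerivAt_id h).const_add 1
    have h2 := (h1.rpow_const (p := τ) (Or.inl h0.ne'))
    have h3 := ((h2.sub_const 1).sub ((hasDerivAt_id h).const_mul (τ * (1 / (1 + ε)))))
    refine h3.congr_deriv ?_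
    simp
  refine monotoneOn_of_deriv_nonneg (convex_Icc _ _)
    (fun h hh => (hder h hh).continuousAt.continuousWithinAt)
    (fun h hh => (hder h (interior_subset hh)).differentiableAt.differentiableWithinAt)
    (fun h hh => ?_)
  have hh' := interior_subset hh
  rw [(hder h hh').deriv, ← mul_sub]
  refine mul_nonneg hτ.le (sub_nonneg.2 ?_)
  have h0 : 0 < 1 + h := by linarith [hh'.1]
  have h1 : 0 < 1 + ε := by linarith
  calc 1 / (1 + ε) = (1 + ε) ^ (-1 : ℝ) := by rw [Real.rpow_neg_one, one_div]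
    _ ≤ (1 + ε) ^ (τ - 1) := Real.rpow_le_rpow_of_exponent_le (by linarith) (by linarith)
    _ ≤ (1 + h) ^ (τ - 1) :=
        Real.rpow_le_rpow_of_nonpos h0 (by linarith [hh'.2]) (by linarith)

/-- Taylor: lower bound. -/
theorem eps_taylor {τ ε : ℝ} (hτ : 0 < τ) (hτ1 : τ < 1) (hε : 0 < ε) (hε1 : ε < 1) {h : ℝ}
    (hh : h ∈ Icc (-ε) ε) :
    1 + (1 + τ) * h + (1 + τ) * τ / (2 * (1 + ε)) * h ^ 2 ≤ (1 + h) ^ (1 + τ) := by
  set C := (1 + τ) * τ / (2 * (1 + ε)) with hC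
  have h1ε : 0 < 1 + ε := by linarith
  have hmono := eps_aux hτ hτ1 hε hε1
  set g : ℝ → ℝ := fun h => (1 + h) ^ (1 + τ) - (1 + (1 + τ) * h + C * h ^ 2) with hg
  have hder : ∀ h ∈ Icc (-ε) ε, HasDerivAt g
      ((1 + τ) * ((1 + h) ^ τ - 1 - τ * (1 / (1 + ε)) * h)) h := by
    intro h hh
    have h0 : 0 < 1 + h := by linarith [hh.1]
    have h1 : HasDerivAt (fun h : ℝ => 1 + h) 1 h := (hasDerivAt_id h).const_add 1
    have h2 := (h1.rpow_const (p := 1 + τ) (Or.inl h0.ne'))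
    have h3 : HasDerivAt (fun h : ℝ => 1 + (1 + τ) * h + C * h ^ 2)
        ((1 + τ) * 1 + C * (2 * h)) h := by
      have h4 := ((hasDerivAt_id h).const_mul (1 + τ)).const_add 1
      have h5 := (hasDerivAt_pow 2 h).const_mul C
      have h6 := h4.add h5
      refine h6.congr_deriv ?_
      simp
    have h4 := h2.sub h3
    refine h4.congr_deriv ?_
    have h5 : 1 + τ - 1 = τ := by ring
    rw [h5, hC]
    field_simp
    ring
  have h0mem : (0 : ℝ) ∈ Icc (-ε) ε := ⟨by linarith, hε.le⟩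
  have hg0 : g 0 = 0 := by
    simp [hg]
  have hp0 : (1 + (0 : ℝ)) ^ τ - 1 - τ * (1 / (1 + ε)) * 0 = 0 := by simp
  suffices h7 : 0 ≤ g h by
    have h8 : g h = (1 + h) ^ (1 + τ) - (1 + (1 + τ) * h + C * h ^ 2) := rfl
    rw [h8] at h7
    linarith
  rcases le_total 0 h with hpos | hneg
  · have hm : MonotoneOn g (Icc 0 ε) := by
      refine monotoneOn_of_deriv_nonneg (convex_Icc _ _)
        (fun x hx => (hder x ⟨by linarith [hx.1], hx.2⟩).continuousAt.continuousWithinAt)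
        (fun x hx => (hder x ⟨by linarith [(interior_subset hx).1],
          (interior_subset hx).2⟩).differentiableAt.differentiableWithinAt) (fun x hx => ?_)
      have hx' := interior_subset hx
      have hx1 : x ∈ Icc (-ε) ε := ⟨by linarith [hx'.1], hx'.2⟩
      rw [(hder x hx1).deriv]
      have h9 := hmono h0mem hx1 hx'.1
      beta_reduce at h9
      rw [hp0] at h9
      exact mul_nonneg (by linarith) h9
    have h9 := hm ⟨le_refl 0, hε.le⟩ ⟨hpos, hh.2⟩ hpos
    rw [hg0] at h9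
    exact h9
  · have hm : AntitoneOn g (Icc (-ε) 0) := by
      refine antitoneOn_of_deriv_nonpos (convex_Icc _ _)
        (fun x hx => (hder x ⟨hx.1, by linarith [hx.2]⟩).continuousAt.continuousWithinAt)
        (fun x hx => (hder x ⟨(interior_subset hx).1,
          by linarith [(interior_subset hx).2]⟩).differentiableAt.differentiableWithinAt)
        (fun x hx => ?_)
      have hx' := interior_subset hx
      have hx1 : x ∈ Icc (-ε) ε := ⟨hx'.1, by linarith [hx'.2]⟩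
      rw [(hder x hx1).deriv]
      have h9 := hmono hx1 h0mem hx'.2
      beta_reduce at h9
      rw [hp0] at h9
      exact mul_nonpos_of_nonneg_of_nonpos (by linarith) h9
    have h9 := hm ⟨hh.1, hneg⟩ ⟨by linarith, le_refl 0⟩ hneg
    rw [hg0] at h9
    exact h9

/-- The square root. -/
theorem eps_sqrt {x y m : ℝ} (hm : 0 < m) (hx : m ≤ x) :
    Real.sqrt (x ^ 2 + y ^ 2) ≤ x + y ^ 2 / (2 * m) := by
  have hx0 : 0 < x := hm.trans_le hx
  have h1 : 0 ≤ y ^ 2 / (2 * m) := by positivity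
  rw [Real.sqrt_le_left (by linarith)]
  have h2 : y ^ 2 ≤ 2 * x * (y ^ 2 / (2 * m)) := by
    have h3 : 2 * x * (y ^ 2 / (2 * m)) = y ^ 2 * (x / m) := by
      field_simp
    rw [h3]
    exact le_mul_of_one_le_right (sq_nonneg _) ((one_le_div hm).2 hx)
  nlinarith [sq_nonneg (y ^ 2 / (2 * m))]

/-- The integral of the comparison functions. -/
theorem eps_int (a b : ℝ) :
    (∫ u in (0 : ℝ)..Real.pi, (1 + a * Real.cos u + b * Real.cos u ^ 2)) =
      Real.pi * (1 + b / 2) ∧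
    (∫ u in (0 : ℝ)..Real.pi, (1 + a * Real.cos u + b * Real.sin u ^ 2)) =
      Real.pi * (1 + b / 2) := by
  have h1 : ∀ f : ℝ → ℝ, Continuous f → IntervalIntegrable f volume 0 Real.pi :=
    fun f hf => hf.intervalIntegrable _ _
  constructor
  · rw [intervalIntegral.integral_add (h1 _ (by fun_prop)) (h1 _ (by fun_prop)),
      intervalIntegral.integral_add (h1 _ (by fun_prop)) (h1 _ (by fun_prop)),
      intervalIntegral.integral_const_mul, intervalIntegral.integral_const_mul,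
      integral_cos_sq, integral_cos]
    simp
    ring
  · rw [intervalIntegral.integral_add (h1 _ (by fun_prop)) (h1 _ (by fun_prop)),
      intervalIntegral.integral_add (h1 _ (by fun_prop)) (h1 _ (by fun_prop)),
      intervalIntegral.integral_const_mul, intervalIntegral.integral_const_mul,
      integral_sin_sq, integral_cos]
    simp
    ring

/-- The choice of `ε`. -/
theorem eps_choice {τ q : ℝ} (hτ : 0 < τ) (hq : q < 1) :
    ∃ ε, 0 < ε ∧ ε < 1 ∧ (1 + τ) * q / (1 - ε) + τ ^ 2 * q ^ 2 * ε ^ 2 / (4 * (1 - ε) ^ 2) <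
      (1 + τ) / (1 + ε) := by
  have hc : ContinuousAt (fun ε : ℝ => (1 + τ) / (1 + ε) - ((1 + τ) * q / (1 - ε) +
      τ ^ 2 * q ^ 2 * ε ^ 2 / (4 * (1 - ε) ^ 2))) 0 := by
    refine ContinuousAt.sub ?_ (ContinuousAt.add ?_ ?_)
    · exact ContinuousAt.div (by fun_prop) (by fun_prop) (by norm_num)
    · exact ContinuousAt.div (by fun_prop) (by fun_prop) (by norm_num)
    · exact ContinuousAt.div (by fun_prop) (by fun_prop) (by norm_num)
  have h0 : 0 < (fun ε : ℝ => (1 + τ) / (1 + ε) - ((1 + τ) * q / (1 - ε) +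
      τ ^ 2 * q ^ 2 * ε ^ 2 / (4 * (1 - ε) ^ 2))) 0 := by
    norm_num
    nlinarith
  have h1 := hc.eventually (lt_mem_nhds h0)
  obtain ⟨δ, hδ, h2⟩ := Metric.eventually_nhds_iff.1 h1
  refine ⟨min (δ / 2) (1 / 2), lt_min (by linarith) (by norm_num),
    (min_le_right _ _).trans_lt (by norm_num), ?_⟩
  have h3 : 0 < min (δ / 2) (1 / 2) := lt_min (by linarith) (by norm_num)
  have h4 : min (δ / 2) (1 / 2) ≤ δ / 2 := min_le_left _ _
  have h5 := h2 (y := min (δ / 2) (1 / 2)) (by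
    rw [Real.dist_eq, sub_zero, abs_of_pos h3]
    linarith)
  linarith

theorem EPS : S_EPS := by
  intro θ₀ n hθ hn hsq
  have hpi := Real.pi_pos
  have hn0 : 0 < n := by linarith
  set τ : ℝ := 1 / n with hτdef
  have hτ : 0 < τ := by positivity
  have hτ1 : τ < 1 := by
    rw [hτdef, div_lt_one hn0]
    exact hn
  set k : ℝ := Real.pi / θ₀ with hkdef
  have hk : 0 < k := div_pos hpi hθ
  have hk2 : k ^ 2 < n := by
    have h1 : 0 < Real.sqrt n := Real.sqrt_pos.2 hn0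
    have h2 : k < Real.sqrt n := by
      rw [hkdef, div_lt_iff₀ hθ]
      rw [div_lt_iff₀ h1] at hsq
      linarith
    calc k ^ 2 < Real.sqrt n ^ 2 := by gcongr
      _ = n := Real.sq_sqrt hn0.le
  set q : ℝ := τ * k ^ 2 with hqdef
  have hq0 : 0 < q := by positivity
  have hq1 : q < 1 := by
    rw [hqdef, hτdef, one_div, inv_mul_lt_iff₀ hn0]
    linarith
  obtain ⟨ε, hε, hε1, hch⟩ := eps_choice hτ hq1
  have h1ε : 0 < 1 - ε := by linarith
  have h1ε' : 0 < 1 + ε := by linarith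
  refine ⟨ε, hε, hε1, ?_⟩
  rw [eps_avg hθ (fun u => Real.sqrt ((1 + ε * Real.cos u) ^ 2 +
      (ε * Real.pi / (n * θ₀) * Real.sin u) ^ 2)),
    eps_avg hθ (fun u => (1 + ε * Real.cos u) ^ ((n + 1) / n))]
  -- upper bound of the left side
  set a : ℝ := τ ^ 2 * ε ^ 2 * k ^ 2 / (4 * (1 - ε)) with hadef
  have ha0 : 0 ≤ a := by positivity
  have hpos : ∀ u : ℝ, 1 - ε ≤ 1 + ε * Real.cos u := by
    intro u
    have := Real.neg_one_le_cos u
    nlinarith
  have hL : Real.pi⁻¹ * (∫ u in (0 : ℝ)..Real.pi, Real.sqrt ((1 + ε * Real.cos u) ^ 2 +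
      (ε * Real.pi / (n * θ₀) * Real.sin u) ^ 2)) ≤ 1 + a := by
    have h1 : (∫ u in (0 : ℝ)..Real.pi, Real.sqrt ((1 + ε * Real.cos u) ^ 2 +
        (ε * Real.pi / (n * θ₀) * Real.sin u) ^ 2)) ≤
        ∫ u in (0 : ℝ)..Real.pi, (1 + ε * Real.cos u +
          (ε * τ * k) ^ 2 / (2 * (1 - ε)) * Real.sin u ^ 2) := by
      refine intervalIntegral.integral_mono_on hpi.le
        ((by fun_prop : Continuous fun u : ℝ => Real.sqrt ((1 + ε * Real.cos u) ^ 2 +
          (ε * Real.pi / (n * θ₀) * Real.sin u) ^ 2)).intervalIntegrable _ _)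
        ((by fun_prop : Continuous fun u : ℝ => 1 + ε * Real.cos u +
          (ε * τ * k) ^ 2 / (2 * (1 - ε)) * Real.sin u ^ 2).intervalIntegrable _ _)
        (fun u _ => ?_)
      have h2 := eps_sqrt (y := ε * Real.pi / (n * θ₀) * Real.sin u) h1ε (hpos u)
      refine h2.trans (le_of_eq ?_)
      rw [hτdef, hkdef]
      field_simp
    rw [(eps_int _ _).2] at h1
    calc _ ≤ Real.pi⁻¹ * (Real.pi * (1 + (ε * τ * k) ^ 2 / (2 * (1 - ε)) / 2)) :=
          mul_le_mul_of_nonneg_left h1 (inv_pos.2 hpi).le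
      _ = 1 + a := by
          rw [hadef]
          field_simp
          ring
  have hL0 : 0 ≤ Real.pi⁻¹ * (∫ u in (0 : ℝ)..Real.pi, Real.sqrt ((1 + ε * Real.cos u) ^ 2 +
      (ε * Real.pi / (n * θ₀) * Real.sin u) ^ 2)) :=
    mul_nonneg (inv_pos.2 hpi).le
      (intervalIntegral.integral_nonneg hpi.le fun u _ => Real.sqrt_nonneg _)
  -- lower bound of the right side
  have hexp : (n + 1) / n = 1 + τ := by
    rw [hτdef]
    field_simp
  have hM : 1 + (1 + τ) * τ * ε ^ 2 / (4 * (1 + ε)) ≤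
      Real.pi⁻¹ * ∫ u in (0 : ℝ)..Real.pi, (1 + ε * Real.cos u) ^ ((n + 1) / n) := by
    have h1 : (∫ u in (0 : ℝ)..Real.pi, (1 + ((1 + τ) * ε) * Real.cos u +
          ((1 + τ) * τ / (2 * (1 + ε)) * ε ^ 2) * Real.cos u ^ 2)) ≤
        ∫ u in (0 : ℝ)..Real.pi, (1 + ε * Real.cos u) ^ ((n + 1) / n) := by
      refine intervalIntegral.integral_mono_on hpi.le
        ((by fun_prop : Continuous fun u : ℝ => 1 + ((1 + τ) * ε) * Real.cos u +
          ((1 + τ) * τ / (2 * (1 + ε)) * ε ^ 2) * Real.cos u ^ 2).intervalIntegrable _ _)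
        (Continuous.intervalIntegrable ?_ _ _) (fun u _ => ?_)
      · rw [continuous_iff_continuousAt]
        intro u
        have h2 : (1 + ε * Real.cos u) ≠ 0 := (h1ε.trans_le (hpos u)).ne'
        exact ContinuousAt.rpow_const (by fun_prop) (Or.inl h2)
      · have h2 := eps_taylor hτ hτ1 hε hε1 (h := ε * Real.cos u)
          ⟨by nlinarith [Real.neg_one_le_cos u], by nlinarith [Real.cos_le_one u]⟩
        rw [hexp]
        refine le_trans (le_of_eq ?_) h2
        ring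
    rw [(eps_int _ _).1] at h1
    calc _ = Real.pi⁻¹ * (Real.pi * (1 + ((1 + τ) * τ / (2 * (1 + ε)) * ε ^ 2) / 2)) := by
          field_simp
          ring
      _ ≤ _ := mul_le_mul_of_nonneg_left h1 (inv_pos.2 hpi).le
  -- the comparison
  have hkey : (1 + a) ^ (1 + τ) < 1 + (1 + τ) * τ * ε ^ 2 / (4 * (1 + ε)) := by
    have h1 : (1 + a) ^ (1 + τ) ≤ (1 + a) * (1 + τ * a) := by
      rw [Real.rpow_add (by linarith), Real.rpow_one]
      refine mul_le_mul_of_nonneg_left ?_ (by linarith)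
      exact rpow_one_add_le_one_add_mul_self (by linarith) hτ.le hτ1.le
    refine h1.trans_lt ?_
    have h2 : (1 + a) * (1 + τ * a) = 1 + (τ * ε ^ 2 / 4) *
        ((1 + τ) * q / (1 - ε) + τ ^ 2 * q ^ 2 * ε ^ 2 / (4 * (1 - ε) ^ 2)) := by
      rw [hadef, hqdef]
      field_simp
      ring
    have h3 : 1 + (1 + τ) * τ * ε ^ 2 / (4 * (1 + ε)) =
        1 + (τ * ε ^ 2 / 4) * ((1 + τ) / (1 + ε)) := by
      field_simp
    rw [h2, h3]
    have h4 : 0 < τ * ε ^ 2 / 4 := by positivity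
    have h5 := mul_lt_mul_of_pos_left hch h4
    linarith
  have hexp2 : n / (n + 1) = (1 + τ)⁻¹ := by
    rw [← hexp, inv_div]
  have h1τ : 0 < 1 + τ := by linarith
  rw [hexp2]
  refine hL.trans_lt ?_
  have h1a : 0 ≤ 1 + a := by linarith
  calc 1 + a = ((1 + a) ^ (1 + τ)) ^ (1 + τ)⁻¹ := by
        rw [← Real.rpow_mul h1a, mul_inv_cancel₀ h1τ.ne', Real.rpow_one]
    _ < _ := Real.rpow_lt_rpow (Real.rpow_nonneg h1a _) (hkey.trans_le hM) (inv_pos.2 h1τ)

end Pool.R872.SEC
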