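import Pool.Agent.R872.SEC.Stm

open MeasureTheory Set
open scoped ENNReal ContDiff

namespace Pool.R872.SEC

theorem arc_eq_graph (θ₀ ρ : ℝ) : arcRegion θ₀ ρ = graphRegion θ₀ (fun _ => ρ) := rfl

theorem area_arc (hA : S_AREA1) {θ₀ p ρ : ℝ} (hθ : 0 < θ₀) (hp : 0 < p) (hρ : 0 < ρ) :
    area p (arcRegion θ₀ ρ) = ENNReal.ofReal (θ₀ * (ρ ^ (p + 2) / (p + 2))) := by
  rw [arc_eq_graph, (hA θ₀ p hθ hp (fun _ => ρ) continuous_const (fun _ => hρ)).2]
  congr 1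
  rw [intervalIntegral.integral_const]
  simp

theorem perim_arc_le (hU : S_UPG) {θ₀ p ρ : ℝ} (hθ : 0 < θ₀) (hp : 0 < p) (hρ : 0 < ρ) :
    perimeter θ₀ p (arcRegion θ₀ ρ) ≤ ENNReal.ofReal (θ₀ * ρ ^ (p + 1)) := by
  rw [arc_eq_graph]
  refine (hU θ₀ p hθ hp (fun _ => ρ) contDiff_const (fun _ => hρ)).trans ?_
  apply le_of_eq
  congr 1
  rw [deriv_const', intervalIntegral.integral_const]
  simp only [sub_zero, smul_eq_mul]
  congr 1
  have h1 : Real.sqrt (ρ ^ 2 + 0 ^ 2) = ρ := by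
    rw [zero_pow two_ne_zero, add_zero, Real.sqrt_sq hρ.le]
  rw [h1, Real.rpow_add_one hρ.ne']

theorem suff (hGEO : S_GEO) (hU : S_UPG) (hA1 : S_AREA1) (hA2 : S_AREA2) (hM : S_MAIN)
    {θ₀ p ρ : ℝ} (hθ : 0 < θ₀) (hp : 0 < p) (hρ : 0 < ρ)
    (hle : θ₀ ≤ Real.pi / Real.sqrt (p + 1)) : IsIso θ₀ p (arcRegion θ₀ ρ) := by
  intro R' hR' hsub harea
  refine (perim_arc_le hU hθ hp hρ).trans ?_
  by_cases htop : perimeter θ₀ p R' = ⊤
  · rw [htop]
    exact le_top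
  have hP : ENNReal.ofReal (perimeter θ₀ p R').toReal = perimeter θ₀ p R' :=
    ENNReal.ofReal_toReal htop
  have hLB := hGEO θ₀ p hθ hp R' hR' hsub (perimeter θ₀ p R').toReal ENNReal.toReal_nonneg
    hP.symm.le
  rw [area_arc hA1 hθ hp hρ] at harea
  have hfin : area p R' < ⊤ := by
    rw [harea]
    exact ENNReal.ofReal_lt_top
  obtain ⟨hprof, hV⟩ := hA2 θ₀ p hθ hp R' hR' hsub hfin
  have hVnn : 0 ≤ ∫ r, lamOf θ₀ R' r * r ^ (p + 1) := by
    apply integral_nonneg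
    intro r
    rcases le_or_gt r 0 with hr | hr
    · have := hprof.zero r hr
      simp [this]
    · exact mul_nonneg (hprof.nonneg r) (Real.rpow_nonneg hr.le _)
  rw [hV] at harea
  have h1 := (ENNReal.ofReal_eq_ofReal_iff (mul_nonneg hθ.le hVnn) (by positivity)).1 harea
  have h2 : (∫ r, lamOf θ₀ R' r * r ^ (p + 1)) = ρ ^ (p + 2) / (p + 2) :=
    mul_left_cancel₀ hθ.ne' h1
  have h3 := hM θ₀ (p + 1) (lamOf θ₀ R') _ hθ (by linarith) hle hprof hLB
  rw [h2] at h3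
  have h4 : (p + 1 + 1) * (ρ ^ (p + 2) / (p + 2)) = ρ ^ (p + 2) := by
    field_simp
    ring
  rw [h4, ← Real.rpow_mul hρ.le] at h3
  have h5 : (p + 2) * ((p + 1) / (p + 1 + 1)) = p + 1 := by
    field_simp
    ring
  rw [h5] at h3
  rw [← hP]
  exact ENNReal.ofReal_le_ofReal h3

theorem lamOf_arc {θ₀ ρ : ℝ} (hθ : 0 < θ₀) (r : ℝ) :
    lamOf θ₀ (arcRegion θ₀ ρ) r = if 0 < r ∧ r < ρ then 1 else 0 := by
  unfold lamOf
  split_ifs with h
  · have : {θ : ℝ | (r, θ) ∈ arcRegion θ₀ ρ} = Ioo 0 θ₀ := by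
      ext θ
      simp only [arcRegion, sector, mem_ofPred_eq, mem_Ioo]
      tauto
    rw [this, Real.volume_Ioo, sub_zero, ENNReal.toReal_ofReal hθ.le, div_self hθ.ne']
  · have : {θ : ℝ | (r, θ) ∈ arcRegion θ₀ ρ} = ∅ := by
      ext θ
      simp only [arcRegion, sector, mem_ofPred_eq, mem_empty_iff_false, iff_false]
      tauto
    rw [this]
    simp

theorem perim_arc_ge (hGEO : S_GEO) (hA1 : S_AREA1) (hA2 : S_AREA2) (hTC : S_TC)
    {θ₀ p ρ : ℝ} (hθ : 0 < θ₀) (hp : 0 < p) (hρ : 0 < ρ) :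
    ENNReal.ofReal (θ₀ * ρ ^ (p + 1)) ≤ perimeter θ₀ p (arcRegion θ₀ ρ) := by
  by_cases htop : perimeter θ₀ p (arcRegion θ₀ ρ) = ⊤
  · rw [htop]
    exact le_top
  have hP : ENNReal.ofReal (perimeter θ₀ p (arcRegion θ₀ ρ)).toReal =
      perimeter θ₀ p (arcRegion θ₀ ρ) := ENNReal.ofReal_toReal htop
  have hmeas := (hA1 θ₀ p hθ hp (fun _ => ρ) continuous_const (fun _ => hρ)).1
  have hsub : arcRegion θ₀ ρ ⊆ sector θ₀ := fun x hx => hx.1
  have hLB := hGEO θ₀ p hθ hp (arcRegion θ₀ ρ) hmeas hsub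
    (perimeter θ₀ p (arcRegion θ₀ ρ)).toReal ENNReal.toReal_nonneg hP.symm.le
  have hfin : area p (arcRegion θ₀ ρ) < ⊤ := by
    rw [area_arc hA1 hθ hp hρ]
    exact ENNReal.ofReal_lt_top
  obtain ⟨hprof, -⟩ := hA2 θ₀ p hθ hp _ hmeas hsub hfin
  have hL : LeftVal (lamOf θ₀ (arcRegion θ₀ ρ)) ρ 1 := by
    unfold LeftVal
    refine tendsto_const_nhds.congr' ?_
    have h1 : ∀ᶠ δ : ℝ in nhdsWithin 0 (Ioi 0), δ ∈ Ioo 0 ρ := Ioo_mem_nhdsGT hρ
    filter_upwards [h1] with δ hδ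
    have h2 : ∫ r in (ρ - δ)..ρ, lamOf θ₀ (arcRegion θ₀ ρ) r = ∫ r in (ρ - δ)..ρ, (1 : ℝ) := by
      rw [intervalIntegral.integral_of_le (by linarith [hδ.1]),
        intervalIntegral.integral_of_le (by linarith [hδ.1]),
        integral_Ioc_eq_integral_Ioo, integral_Ioc_eq_integral_Ioo]
      apply setIntegral_congr_fun measurableSet_Ioo
      intro r hr
      show lamOf θ₀ (arcRegion θ₀ ρ) r = 1
      rw [lamOf_arc hθ, if_pos]
      exact ⟨by linarith [hr.1, hδ.2], hr.2⟩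
    rw [h2, intervalIntegral.integral_const, smul_eq_mul, mul_one]
    have : ρ - (ρ - δ) = δ := by ring
    rw [this, inv_mul_cancel₀ hδ.1.ne']
  have hR : RightVal (lamOf θ₀ (arcRegion θ₀ ρ)) (2 * ρ) 0 := by
    unfold RightVal
    refine tendsto_const_nhds.congr' ?_
    filter_upwards [self_mem_nhdsWithin] with δ hδ
    have hδ' : 0 < δ := hδ
    have h2 : ∫ r in (2 * ρ)..(2 * ρ + δ), lamOf θ₀ (arcRegion θ₀ ρ) r =
        ∫ r in (2 * ρ)..(2 * ρ + δ), (0 : ℝ) := by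
      rw [intervalIntegral.integral_of_le (by linarith),
        intervalIntegral.integral_of_le (by linarith)]
      apply setIntegral_congr_fun measurableSet_Ioc
      intro r hr
      show lamOf θ₀ (arcRegion θ₀ ρ) r = 0
      rw [lamOf_arc hθ, if_neg]
      intro h
      linarith [hr.1, h.2]
    rw [h2]
    simp
  have h := hTC θ₀ (p + 1) _ _ hθ (by linarith) hprof hLB ρ (2 * ρ) 1 (ρ ^ (p + 1)) (fun _ => 0)
    (fun _ => 0) hρ (by linarith) hL hR measurable_const ⟨0, fun _ _ => by simp⟩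
    measurable_const (fun _ => le_rfl) (by
      intro r hr
      simp only [intervalIntegral.integral_zero, add_zero, mul_zero]
      have h1 : ρ ^ (p + 1) ≤ r ^ (p + 1) := Real.rpow_le_rpow hρ.le hr.1 (by linarith)
      have h2 : 0 ≤ ρ ^ (p + 1) := Real.rpow_nonneg hρ.le _
      nlinarith)
  simp only [mul_zero, intervalIntegral.integral_zero, integral_zero, add_zero, one_mul] at h
  rw [← hP]
  exact ENNReal.ofReal_le_ofReal h

/-- If the arc region beats all regions `{r < f θ}` of the same area with `f` smooth and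
positive, then `θ₀ ≤ π / √(p + 1)`. -/
theorem nec' (hGEO : S_GEO) (hU : S_UPG) (hA1 : S_AREA1) (hA2 : S_AREA2) (hTC : S_TC)
    (hE : S_EPS) {θ₀ p ρ : ℝ} (hθ : 0 < θ₀) (hp : 0 < p) (hρ : 0 < ρ)
    (hiso : ∀ f : ℝ → ℝ, ContDiff ℝ ∞ f → (∀ θ, 0 < f θ) →
      area p (graphRegion θ₀ f) = area p (arcRegion θ₀ ρ) →
      perimeter θ₀ p (arcRegion θ₀ ρ) ≤ perimeter θ₀ p (graphRegion θ₀ f)) :
    θ₀ ≤ Real.pi / Real.sqrt (p + 1) := by
  by_contra hcon
  have hlt : Real.pi / Real.sqrt (p + 1) < θ₀ := not_le.1 hcon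
  obtain ⟨ε, hε0, hε1, hε⟩ := hE θ₀ (p + 1) hθ (by linarith) hlt
  set n : ℝ := p + 1 with hn
  have hn0 : 0 < n := by linarith
  set x : ℝ → ℝ := fun θ => 1 + ε * Real.cos (Real.pi * θ / θ₀) with hx
  have hxpos : ∀ θ, 0 < x θ := by
    intro θ
    have := Real.neg_one_le_cos (Real.pi * θ / θ₀)
    simp only [hx]
    nlinarith
  have hxc : Continuous x := by
    simp only [hx]
    fun_prop
  set B : ℝ := θ₀⁻¹ * ∫ θ in (0 : ℝ)..θ₀, x θ ^ ((n + 1) / n) with hB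
  have hBpos : 0 < B := by
    rw [hB]
    apply mul_pos (inv_pos.2 hθ)
    apply intervalIntegral.intervalIntegral_pos_of_pos_on
    · apply Continuous.intervalIntegrable
      exact hxc.rpow_const (fun θ => Or.inl (hxpos θ).ne')
    · intro θ _
      exact Real.rpow_pos_of_pos (hxpos θ) _
    · exact hθ
  set K : ℝ := ρ * B ^ (-(1 / (n + 1))) with hK
  have hKpos : 0 < K := mul_pos hρ (Real.rpow_pos_of_pos hBpos _)
  set f : ℝ → ℝ := fun θ => K * x θ ^ (1 / n) with hf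
  have hfpos : ∀ θ, 0 < f θ := fun θ => mul_pos hKpos (Real.rpow_pos_of_pos (hxpos θ) _)
  have hxd : ∀ θ, HasDerivAt x (-(ε * Real.pi / θ₀ * Real.sin (Real.pi * θ / θ₀))) θ := by
    intro θ
    have h1 : HasDerivAt (fun θ : ℝ => Real.pi * θ / θ₀) (Real.pi / θ₀) θ := by
      have := ((hasDerivAt_id θ).const_mul Real.pi).div_const θ₀
      simpa using this
    have h2 := ((Real.hasDerivAt_cos (Real.pi * θ / θ₀)).comp θ h1).const_mul ε
    have h3 := h2.const_add 1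
    have h4 : ε * (-Real.sin (Real.pi * θ / θ₀) * (Real.pi / θ₀)) =
        -(ε * Real.pi / θ₀ * Real.sin (Real.pi * θ / θ₀)) := by ring
    rw [h4] at h3
    exact h3
  have hfd : ∀ θ, HasDerivAt f (K * (-(ε * Real.pi / θ₀ * Real.sin (Real.pi * θ / θ₀)) *
      (1 / n) * x θ ^ (1 / n - 1))) θ := by
    intro θ
    have h1 := (hxd θ).rpow_const (p := 1 / n) (Or.inl (hxpos θ).ne')
    exact h1.const_mul K
  have hfC' : ContDiff ℝ ∞ f := by
    simp only [hf]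
    apply contDiff_const.mul
    apply ContDiff.rpow_const_of_ne
    · simp only [hx]
      fun_prop
    · intro θ
      exact (hxpos θ).ne'
  have hfC : ContDiff ℝ 1 f := hfC'.of_le (by norm_cast)
  have hKn : K ^ n = ρ ^ n * B ^ (-(n / (n + 1))) := by
    rw [hK, Real.mul_rpow hρ.le (Real.rpow_nonneg hBpos.le _), ← Real.rpow_mul hBpos.le]
    congr 2
    ring
  have hKn1 : K ^ (n + 1) = ρ ^ (n + 1) * B⁻¹ := by
    rw [hK, Real.mul_rpow hρ.le (Real.rpow_nonneg hBpos.le _), ← Real.rpow_mul hBpos.le]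
    have : -(1 / (n + 1)) * (n + 1) = -1 := by
      field_simp
    rw [this, Real.rpow_neg_one]
  -- the area
  have harea : area p (graphRegion θ₀ f) = area p (arcRegion θ₀ ρ) := by
    rw [area_arc hA1 hθ hp hρ, (hA1 θ₀ p hθ hp f hfC.continuous hfpos).2]
    congr 1
    have h1 : ∀ θ, f θ ^ (p + 2) / (p + 2) = K ^ (n + 1) / (p + 2) * x θ ^ ((n + 1) / n) := by
      intro θ
      have h2 : p + 2 = n + 1 := by rw [hn]; ring
      rw [h2]
      simp only [hf]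
      rw [Real.mul_rpow hKpos.le (Real.rpow_nonneg (hxpos θ).le _), ← Real.rpow_mul (hxpos θ).le]
      have h3 : 1 / n * (n + 1) = (n + 1) / n := by ring
      rw [h3]
      ring
    simp only [h1]
    rw [intervalIntegral.integral_const_mul]
    have h4 : (∫ θ in (0 : ℝ)..θ₀, x θ ^ ((n + 1) / n)) = θ₀ * B := by
      rw [hB]
      field_simp
    rw [h4, hKn1]
    have h5 : p + 2 = n + 1 := by rw [hn]; ring
    rw [h5]
    field_simp
  -- the perimeter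
  have hper : perimeter θ₀ p (graphRegion θ₀ f) ≤ ENNReal.ofReal (K ^ n *
      ∫ θ in (0 : ℝ)..θ₀, Real.sqrt ((1 + ε * Real.cos (Real.pi * θ / θ₀)) ^ 2 +
      (ε * Real.pi / (n * θ₀) * Real.sin (Real.pi * θ / θ₀)) ^ 2)) := by
    refine (hU θ₀ p hθ hp f hfC hfpos).trans ?_
    apply le_of_eq
    congr 1
    rw [← intervalIntegral.integral_const_mul]
    apply intervalIntegral.integral_congr
    intro θ _
    simp only
    rw [(hfd θ).deriv]
    have hxθ := hxpos θ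
    have h1 : x θ ^ (1 / n - 1) = x θ ^ (1 / n) / x θ := by
      rw [Real.rpow_sub_one hxθ.ne']
    have h2 : f θ ^ 2 + (K * (-(ε * Real.pi / θ₀ * Real.sin (Real.pi * θ / θ₀)) *
      (1 / n) * x θ ^ (1 / n - 1))) ^ 2 = (f θ / x θ) ^ 2 *
        ((1 + ε * Real.cos (Real.pi * θ / θ₀)) ^ 2 +
        (ε * Real.pi / (n * θ₀) * Real.sin (Real.pi * θ / θ₀)) ^ 2) := by
      have hx1 : 1 + ε * Real.cos (Real.pi * θ / θ₀) = x θ := rfl
      rw [hx1, h1]
      simp only [hf]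
      field_simp
    rw [h2, Real.sqrt_mul (sq_nonneg _), Real.sqrt_sq (div_nonneg (hfpos θ).le hxθ.le),
      ← mul_assoc]
    congr 1
    have h3 : f θ ^ p * (f θ / x θ) = f θ ^ n / x θ := by
      rw [hn, Real.rpow_add_one (hfpos θ).ne']
      ring
    rw [h3]
    simp only [hf]
    rw [Real.mul_rpow hKpos.le (Real.rpow_nonneg hxθ.le _), ← Real.rpow_mul hxθ.le]
    have h4 : 1 / n * n = 1 := by field_simp
    rw [h4, Real.rpow_one]
    field_simp
  have hge := perim_arc_ge hGEO hA1 hA2 hTC hθ hp hρ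
  have hmeas := (hA1 θ₀ p hθ hp f hfC.continuous hfpos).1
  have hsub : graphRegion θ₀ f ⊆ sector θ₀ := fun x hx => hx.1
  have h1 := hge.trans ((hiso f hfC' hfpos harea).trans hper)
  have hAnn : 0 ≤ ∫ θ in (0 : ℝ)..θ₀, Real.sqrt ((1 + ε * Real.cos (Real.pi * θ / θ₀)) ^ 2 +
      (ε * Real.pi / (n * θ₀) * Real.sin (Real.pi * θ / θ₀)) ^ 2) :=
    intervalIntegral.integral_nonneg hθ.le (fun θ _ => Real.sqrt_nonneg _)
  rw [ENNReal.ofReal_le_ofReal_iff (mul_nonneg (Real.rpow_nonneg hKpos.le _) hAnn)] at h1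
  set A := ∫ θ in (0 : ℝ)..θ₀, Real.sqrt ((1 + ε * Real.cos (Real.pi * θ / θ₀)) ^ 2 +
      (ε * Real.pi / (n * θ₀) * Real.sin (Real.pi * θ / θ₀)) ^ 2) with hA
  have h2 : θ₀⁻¹ * A < B ^ (n / (n + 1)) := hε
  rw [hKn] at h1
  have h3 : A < θ₀ * B ^ (n / (n + 1)) := by
    have := mul_lt_mul_of_pos_left h2 hθ
    rwa [← mul_assoc, mul_inv_cancel₀ hθ.ne', one_mul] at this
  have h4 : 0 < ρ ^ n * B ^ (-(n / (n + 1))) :=
    mul_pos (Real.rpow_pos_of_pos hρ _) (Real.rpow_pos_of_pos hBpos _)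
  have h5 := mul_lt_mul_of_pos_left h3 h4
  have h6 : ρ ^ n * B ^ (-(n / (n + 1))) * (θ₀ * B ^ (n / (n + 1))) = θ₀ * ρ ^ n := by
    have : B ^ (-(n / (n + 1))) * B ^ (n / (n + 1)) = 1 := by
      rw [← Real.rpow_add hBpos]
      simp
    calc _ = θ₀ * ρ ^ n * (B ^ (-(n / (n + 1))) * B ^ (n / (n + 1))) := by ring
      _ = _ := by rw [this, mul_one]
  rw [h6] at h5
  exact absurd (h1.trans_lt h5) (lt_irrefl _)

theorem nec (hGEO : S_GEO) (hU : S_UPG) (hA1 : S_AREA1) (hA2 : S_AREA2) (hTC : S_TC)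
    (hE : S_EPS) {θ₀ p ρ : ℝ} (hθ : 0 < θ₀) (hp : 0 < p) (hρ : 0 < ρ)
    (hiso : IsIso θ₀ p (arcRegion θ₀ ρ)) : θ₀ ≤ Real.pi / Real.sqrt (p + 1) := by
  refine nec' hGEO hU hA1 hA2 hTC hE hθ hp hρ ?_
  intro f hf hpos harea
  have hmeas := (hA1 θ₀ p hθ hp f hf.continuous hpos).1
  exact hiso _ hmeas (fun x hx => hx.1) harea

end Pool.R872.SEC
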