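import Pool.Agent.R872.SEC.Stm

open MeasureTheory Set
open scoped ENNReal

namespace Pool.R872.SEC

namespace GFx

/-- the maximal value of `ρ^n - μ ρ^(n+1)` -/
noncomputable def MM (n μ : ℝ) : ℝ := n ^ n / ((n + 1) ^ (n + 1) * μ ^ n)

theorem MM_nonneg {n μ : ℝ} (hn : 1 < n) (hμ : 0 < μ) : 0 ≤ MM n μ := by
  unfold MM; positivity

theorem young {n μ W : ℝ} (hn : 1 < n) (hμ : 0 < μ) (hW : 0 ≤ W) :
    W ^ (n / (n + 1)) ≤ μ * W + MM n μ := by
  have hn0 : 0 < n := by linarith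
  have hn1 : 0 < n + 1 := by linarith
  have key := Real.geom_mean_le_arith_mean2_weighted (w₁ := n / (n + 1)) (w₂ := 1 / (n + 1))
    (p₁ := (n + 1) / n * μ * W) (p₂ := (n / ((n + 1) * μ)) ^ n) (by positivity) (by positivity)
    (by positivity) (by positivity) (by field_simp)
  have h1 : ((n + 1) / n * μ * W) ^ (n / (n + 1)) *
      ((n / ((n + 1) * μ)) ^ n) ^ (1 / (n + 1)) = W ^ (n / (n + 1)) := by
    rw [← Real.rpow_mul (by positivity), mul_one_div, Real.mul_rpow (by positivity) hW,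
      mul_right_comm, ← Real.mul_rpow (by positivity) (by positivity)]
    have : (n + 1) / n * μ * (n / ((n + 1) * μ)) = 1 := by field_simp
    rw [this, Real.one_rpow, one_mul]
  have h2 : n / (n + 1) * ((n + 1) / n * μ * W) + 1 / (n + 1) * (n / ((n + 1) * μ)) ^ n =
      μ * W + MM n μ := by
    unfold MM
    rw [Real.div_rpow hn0.le (by positivity), Real.mul_rpow hn1.le hμ.le,
      Real.rpow_add_one hn1.ne']
    field_simp
  rw [h1, h2] at key
  exact key

theorem rpow_cancel {n ρ : ℝ} (hn : 1 < n) (hρ : 0 ≤ ρ) :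
    (ρ ^ (n + 1)) ^ (n / (n + 1)) = ρ ^ n := by
  have : n + 1 ≠ 0 := by linarith
  rw [← Real.rpow_mul hρ]
  congr 1
  field_simp

theorem sub_le_MM {n μ ρ : ℝ} (hn : 1 < n) (hμ : 0 < μ) (hρ : 0 ≤ ρ) :
    ρ ^ n - μ * ρ ^ (n + 1) ≤ MM n μ := by
  have := young hn hμ (W := ρ ^ (n + 1)) (by positivity)
  rw [rpow_cancel hn hρ] at this
  linarith

theorem rpow_sub {n a b : ℝ} (hn : 1 < n) (ha : 0 ≤ a) (hb : 0 ≤ b) :
    (a + b) ^ (n / (n + 1)) ≤ a ^ (n / (n + 1)) + b ^ (n / (n + 1)) := by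
  have h1 : 0 ≤ n / (n + 1) := by positivity
  have h2 : n / (n + 1) ≤ 1 := by rw [div_le_one (by linarith)]; linarith
  have := NNReal.rpow_add_le_add_rpow ⟨a, ha⟩ ⟨b, hb⟩ h1 h2
  exact_mod_cast this

theorem conv {n : ℝ} (hn : 1 < n) :
    ConvexOn ℝ (Set.Ici 0) (fun x : ℝ => -x ^ (n / (n + 1))) := by
  have h1 : 0 ≤ n / (n + 1) := by positivity
  have h2 : n / (n + 1) ≤ 1 := by rw [div_le_one (by linarith)]; linarith
  exact (Real.concaveOn_rpow h1 h2).neg

/-- the slope -/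
noncomputable def mu (n s h : ℝ) : ℝ := (h ^ n - s ^ n) / (h ^ (n + 1) - s ^ (n + 1))

theorem mu_pos {n s h : ℝ} (hn : 1 < n) (hs : 0 < s) (hsh : s < h) : 0 < mu n s h := by
  unfold mu
  have h1 : s ^ n < h ^ n := Real.rpow_lt_rpow hs.le hsh (by linarith)
  have h2 : s ^ (n + 1) < h ^ (n + 1) := Real.rpow_lt_rpow hs.le hsh (by linarith)
  exact div_pos (by linarith) (by linarith)

theorem E_nonneg {n s h : ℝ} (hn : 1 < n) (hs : 0 < s) (hsh : s < h) :
    0 ≤ s ^ n - mu n s h * s ^ (n + 1) := by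
  unfold mu
  have h2 : s ^ (n + 1) < h ^ (n + 1) := Real.rpow_lt_rpow hs.le hsh (by linarith)
  have h3 : 0 < h ^ (n + 1) - s ^ (n + 1) := by linarith
  have hh : 0 < h := hs.trans hsh
  have e : s ^ n - (h ^ n - s ^ n) / (h ^ (n + 1) - s ^ (n + 1)) * s ^ (n + 1) =
      s ^ n * h ^ n * (h - s) / (h ^ (n + 1) - s ^ (n + 1)) := by
    rw [eq_div_iff h3.ne', sub_mul, div_mul_eq_mul_div, div_mul_cancel₀ _ h3.ne',
      Real.rpow_add_one hs.ne', Real.rpow_add_one hh.ne']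
    ring
  rw [e]
  have : 0 < h - s := by linarith
  positivity

theorem secant {n s x y : ℝ} (hn : 1 < n) (hs : 0 < s) (hx : 0 < x) (hy : 0 < y) (hxs : x ≠ s)
    (hys : y ≠ s) (hxy : x ≤ y) :
    (y ^ n - s ^ n) / (y ^ (n + 1) - s ^ (n + 1)) ≤
      (x ^ n - s ^ n) / (x ^ (n + 1) - s ^ (n + 1)) := by
  have hne : ∀ z : ℝ, 0 < z → z ≠ s → z ^ (n + 1) ≠ s ^ (n + 1) := by
    intro z hz hzs he
    exact hzs ((Real.rpow_left_inj hz.le hs.le (by linarith : n + 1 ≠ 0)).1 he)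
  have := (conv hn).secant_mono (a := s ^ (n + 1)) (x := x ^ (n + 1)) (y := y ^ (n + 1))
    (by simp only [mem_Ici]; positivity) (by simp only [mem_Ici]; positivity)
    (by simp only [mem_Ici]; positivity) (hne x hx hxs) (hne y hy hys)
    (Real.rpow_le_rpow hx.le hxy (by linarith))
  simp only [rpow_cancel hn hs.le, rpow_cancel hn hx.le, rpow_cancel hn hy.le] at this
  have e : ∀ a b c : ℝ, (-a - -b) / c = - ((a - b) / c) := by intro a b c; ring
  rw [e, e] at this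
  linarith

theorem chord_le {n s h r : ℝ} (hn : 1 < n) (hs : 0 < s) (hsr : s ≤ r) (hrh : r ≤ h)
    (hsh : s < h) : s ^ n + mu n s h * (r ^ (n + 1) - s ^ (n + 1)) ≤ r ^ n := by
  rcases eq_or_lt_of_le hsr with rfl | hsr
  · simp
  · have h1 := secant hn hs (hs.trans hsr) (hs.trans hsh) hsr.ne' hsh.ne' hrh
    have h2 : s ^ (n + 1) < r ^ (n + 1) := Real.rpow_lt_rpow hs.le hsr (by linarith)
    rw [le_div_iff₀ (by linarith)] at h1
    unfold mu
    linarith

theorem le_chord {n s h r : ℝ} (hn : 1 < n) (hs : 0 < s) (hr : 0 < r) (hsh : s < h)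
    (hrr : ¬ (s < r ∧ r < h)) : r ^ n ≤ s ^ n + mu n s h * (r ^ (n + 1) - s ^ (n + 1)) := by
  rcases lt_trichotomy r s with hrs | rfl | hrs
  · have h1 := secant hn hs hr (hs.trans hsh) hrs.ne hsh.ne' (hrs.trans hsh).le
    have h2 : r ^ (n + 1) < s ^ (n + 1) := Real.rpow_lt_rpow hr.le hrs (by linarith)
    rw [← neg_div_neg_eq (r ^ n - s ^ n), le_div_iff₀ (by linarith)] at h1
    unfold mu
    linarith
  · simp
  · have hh : h ≤ r := by
      by_contra hc
      exact hrr ⟨hrs, not_le.1 hc⟩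
    have h1 := secant hn hs (hs.trans hsh) hr hsh.ne' hrs.ne' hh
    have h2 : s ^ (n + 1) < r ^ (n + 1) := Real.rpow_lt_rpow hs.le hrs (by linarith)
    rw [div_le_iff₀ (by linarith)] at h1
    unfold mu
    linarith

theorem cont_rpow {a : ℝ} (ha : 0 ≤ a) : Continuous (fun r : ℝ => r ^ a) :=
  Real.continuous_rpow_const ha

theorem core {θ₀ n : ℝ} {lam : ℝ → ℝ} {P g h : ℝ} (hTC : S_TC) (hθ : 0 < θ₀) (hn : 1 < n)
    (hp : Prof n lam) (hL : LB θ₀ n lam P) (hz : ∀ r, r ∉ Ioo g h → lam r = 0)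
    (hg : 0 ≤ g)
    {u κ y₀ μ K : ℝ} (hu : 0 < u) (hgu : g ≤ u) (huh : u < h) (hκ : LeftVal lam u κ)
    (hY : ∀ r ∈ Icc u h, |y₀ + μ * (r ^ (n + 1) - u ^ (n + 1))| ≤ r ^ n)
    (hK : ENNReal.ofReal K ≤ ∫⁻ r in Ioo u h, ENNReal.ofReal (r ^ (n - 1) *
      Real.sqrt (1 - ((y₀ + μ * (r ^ (n + 1) - u ^ (n + 1))) / r ^ n) ^ 2))) :
    θ₀ * (κ * y₀ + μ * ((n + 1) * ∫ r in Ioo u h, lam r * r ^ n)) + K ≤
      P + (∫ r in {r | r ∈ Ioo g h ∧ lam r = 0}, r ^ (n - 1)) +
        ∫ r in {r | r ∈ Ioo u h ∧ lam r = 1}, r ^ (n - 1) := by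
  have hn0 : 0 < n := by linarith
  have hR : RightVal lam h 0 := by
    unfold RightVal
    refine (tendsto_const_nhds (x := (0 : ℝ))).congr' ?_
    filter_upwards [self_mem_nhdsWithin] with δ hδ
    have hδ' : (0 : ℝ) < δ := hδ
    have : ∫ r in h..(h + δ), lam r = 0 := by
      rw [intervalIntegral.integral_congr (g := fun _ => (0 : ℝ))]
      · simp
      · intro r hr
        rw [uIcc_of_le (by linarith)] at hr
        exact hz r (fun hh => absurd hh.2 (not_lt.2 hr.1))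
    rw [this, mul_zero]
  set β : ℝ → ℝ := fun r =>
    Real.sqrt (1 - ((y₀ + μ * (r ^ (n + 1) - u ^ (n + 1))) / r ^ n) ^ 2) with hβ
  have hβm : Measurable β := by
    have c1 : Measurable (fun r : ℝ => r ^ n) := (cont_rpow hn0.le).measurable
    have c2 : Measurable (fun r : ℝ => r ^ (n + 1)) :=
      (cont_rpow (by linarith : 0 ≤ n + 1)).measurable
    exact (measurable_const.sub ((((measurable_const.add
      ((c2.sub measurable_const).const_mul μ))).div c1).pow_const 2)).sqrt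
  have hβ0 : ∀ r, 0 ≤ β r := fun r => Real.sqrt_nonneg _
  have hβ1 : ∀ r, β r ≤ 1 := by
    intro r
    rw [hβ]
    refine Real.sqrt_le_one.2 ?_
    have := sq_nonneg ((y₀ + μ * (r ^ (n + 1) - u ^ (n + 1))) / r ^ n)
    linarith
  have hint : ∀ r, ∫ s in u..r, (n + 1) * μ * s ^ n = μ * (r ^ (n + 1) - u ^ (n + 1)) := by
    intro r
    rw [intervalIntegral.integral_const_mul, integral_rpow (Or.inl (by linarith))]
    have : n + 1 ≠ 0 := by linarith
    field_simp
  have T1 := hTC θ₀ n lam P hθ hn hp hL u h κ y₀ (fun r => (n + 1) * μ * r ^ n) β hu huh hκ hR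
    ((cont_rpow hn0.le).measurable.const_mul _)
    ⟨|(n + 1) * μ| * h ^ n, fun r hr => by
      rw [abs_mul]
      have h1 : 0 ≤ r := hu.le.trans hr.1
      rw [abs_of_nonneg (Real.rpow_nonneg h1 n)]
      exact mul_le_mul_of_nonneg_left (Real.rpow_le_rpow h1 hr.2 hn0.le) (abs_nonneg _)⟩
    hβm hβ0 (by
      intro r hr
      have h0 : 0 < r := hu.trans_le hr.1
      have hrn : 0 < r ^ n := Real.rpow_pos_of_pos h0 n
      rw [hint r]
      have h1 := hY r hr
      have h2 : (y₀ + μ * (r ^ (n + 1) - u ^ (n + 1))) ^ 2 ≤ (r ^ n) ^ 2 := by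
        rw [← sq_abs]
        exact pow_le_pow_left₀ (abs_nonneg _) h1 2
      have h3 : 0 ≤ 1 - ((y₀ + μ * (r ^ (n + 1) - u ^ (n + 1))) / r ^ n) ^ 2 := by
        rw [div_pow, sub_nonneg, div_le_one (by positivity)]
        exact h2
      rw [mul_pow, hβ]
      simp only
      rw [Real.sq_sqrt h3, div_pow]
      apply le_of_eq
      field_simp
      ring)
  have e1 : ∫ r in u..h, lam r * ((n + 1) * μ * r ^ n) =
      μ * ((n + 1) * ∫ r in Ioo u h, lam r * r ^ n) := by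
    rw [intervalIntegral.integral_of_le huh.le, integral_Ioc_eq_integral_Ioo, ← integral_const_mul,
      ← integral_const_mul]
    congr 1
    ext r
    ring
  rw [e1] at T1
  -- measurable sets
  have mD : MeasurableSet {r | r ∈ Icc u h ∧ 0 < lam r ∧ lam r < 1} :=
    measurableSet_Icc.inter ((measurableSet_lt measurable_const hp.meas).inter
      (measurableSet_lt hp.meas measurable_const))
  have mZ : MeasurableSet {r | r ∈ Ioo g h ∧ lam r = 0} :=
    measurableSet_Ioo.inter (hp.meas (measurableSet_singleton 0))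
  have mO : MeasurableSet {r | r ∈ Ioo u h ∧ lam r = 1} :=
    measurableSet_Ioo.inter (hp.meas (measurableSet_singleton 1))
  have I0 : IntegrableOn (fun r : ℝ => r ^ (n - 1)) (Icc 0 h) :=
    (cont_rpow (by linarith : 0 ≤ n - 1)).continuousOn.integrableOn_compact isCompact_Icc
  have IZ : IntegrableOn (fun r : ℝ => r ^ (n - 1)) {r | r ∈ Ioo g h ∧ lam r = 0} :=
    I0.mono_set (fun r hr => ⟨hg.trans hr.1.1.le, hr.1.2.le⟩)
  have IO : IntegrableOn (fun r : ℝ => r ^ (n - 1)) {r | r ∈ Ioo u h ∧ lam r = 1} :=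
    I0.mono_set (fun r hr => ⟨hu.le.trans hr.1.1.le, hr.1.2.le⟩)
  have ID : IntegrableOn (fun r : ℝ => r ^ (n - 1) * β r)
      {r | r ∈ Icc u h ∧ 0 < lam r ∧ lam r < 1} := by
    have h1 : IntegrableOn (fun r : ℝ => r ^ (n - 1)) {r | r ∈ Icc u h ∧ 0 < lam r ∧ lam r < 1} :=
      I0.mono_set (fun r hr => ⟨hu.le.trans hr.1.1, hr.1.2⟩)
    refine Integrable.mono' h1 ((cont_rpow (by linarith : 0 ≤ n - 1)).measurable.mul
      hβm).aestronglyMeasurable ?_
    rw [ae_restrict_iff' mD]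
    refine Filter.Eventually.of_forall (fun r hr => ?_)
    have h0 : 0 ≤ r ^ (n - 1) := Real.rpow_nonneg (hu.le.trans hr.1.1) _
    rw [Real.norm_of_nonneg (mul_nonneg h0 (hβ0 r))]
    exact mul_le_of_le_one_right h0 (hβ1 r)
  have J : ∫⁻ r in Ioo u h, ENNReal.ofReal (r ^ (n - 1) * β r) ≤
      (∫⁻ r in {r | r ∈ Icc u h ∧ 0 < lam r ∧ lam r < 1}, ENNReal.ofReal (r ^ (n - 1) * β r)) +
      (∫⁻ r in {r | r ∈ Ioo g h ∧ lam r = 0}, ENNReal.ofReal (r ^ (n - 1))) +
      ∫⁻ r in {r | r ∈ Ioo u h ∧ lam r = 1}, ENNReal.ofReal (r ^ (n - 1)) := by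
    have hsub : Ioo u h ⊆ ({r | r ∈ Icc u h ∧ 0 < lam r ∧ lam r < 1} ∪
        {r | r ∈ Ioo g h ∧ lam r = 0}) ∪ {r | r ∈ Ioo u h ∧ lam r = 1} := by
      intro r hr
      rcases eq_or_lt_of_le (hp.nonneg r) with h0 | h0
      · exact Or.inl (Or.inr ⟨⟨hgu.trans_lt hr.1, hr.2⟩, h0.symm⟩)
      · rcases eq_or_lt_of_le (hp.le_one r) with h1 | h1
        · exact Or.inr ⟨hr, h1⟩
        · exact Or.inl (Or.inl ⟨⟨hr.1.le, hr.2.le⟩, h0, h1⟩)
    refine (lintegral_mono_set hsub).trans ((lintegral_union_le _ _ _).trans ?_)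
    refine add_le_add ((lintegral_union_le _ _ _).trans (add_le_add le_rfl ?_)) ?_
    · refine setLIntegral_mono' mZ (fun r hr => ENNReal.ofReal_le_ofReal ?_)
      exact mul_le_of_le_one_right (Real.rpow_nonneg (hg.trans hr.1.1.le) _) (hβ1 r)
    · refine setLIntegral_mono' mO (fun r hr => ENNReal.ofReal_le_ofReal ?_)
      exact mul_le_of_le_one_right (Real.rpow_nonneg (hu.le.trans hr.1.1.le) _) (hβ1 r)
  have nD : 0 ≤ᵐ[volume.restrict {r | r ∈ Icc u h ∧ 0 < lam r ∧ lam r < 1}]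
      (fun r : ℝ => r ^ (n - 1) * β r) := by
    rw [Filter.EventuallyLE, ae_restrict_iff' mD]
    exact Filter.Eventually.of_forall (fun r hr =>
      mul_nonneg (Real.rpow_nonneg (hu.le.trans hr.1.1) _) (hβ0 r))
  have nZ : 0 ≤ᵐ[volume.restrict {r | r ∈ Ioo g h ∧ lam r = 0}]
      (fun r : ℝ => r ^ (n - 1)) := by
    rw [Filter.EventuallyLE, ae_restrict_iff' mZ]
    exact Filter.Eventually.of_forall (fun r hr => Real.rpow_nonneg (hg.trans hr.1.1.le) _)
  have nO : 0 ≤ᵐ[volume.restrict {r | r ∈ Ioo u h ∧ lam r = 1}]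
      (fun r : ℝ => r ^ (n - 1)) := by
    rw [Filter.EventuallyLE, ae_restrict_iff' mO]
    exact Filter.Eventually.of_forall (fun r hr => Real.rpow_nonneg (hu.le.trans hr.1.1.le) _)
  have pD := integral_nonneg_of_ae nD
  have pZ := integral_nonneg_of_ae nZ
  have pO := integral_nonneg_of_ae nO
  rw [← ofReal_integral_eq_lintegral_ofReal ID nD, ← ofReal_integral_eq_lintegral_ofReal IZ nZ,
    ← ofReal_integral_eq_lintegral_ofReal IO nO, ← ENNReal.ofReal_add pD pZ,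
    ← ENNReal.ofReal_add (add_nonneg pD pZ) pO] at J
  have J2 := (ENNReal.ofReal_le_ofReal_iff (add_nonneg (add_nonneg pD pZ) pO)).1 (hK.trans J)
  linarith

theorem vol_split {n : ℝ} {lam : ℝ → ℝ} {g h : ℝ} (hn : 1 < n) (hp : Prof n lam)
    (hz : ∀ r, r ∉ Ioo g h → lam r = 0) {u : ℝ} (hu : 0 < u) :
    (n + 1) * ∫ r, lam r * r ^ n ≤ u ^ (n + 1) + (n + 1) * ∫ r in Ioo u h, lam r * r ^ n := by
  have hn1 : 0 < n + 1 := by linarith
  have h1 : ∫ r in Ioc 0 u ∪ Ioo u h, lam r * r ^ n = ∫ r, lam r * r ^ n := by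
    apply setIntegral_eq_integral_of_forall_compl_eq_zero
    intro r hr
    by_cases h0 : r ≤ 0
    · rw [hp.zero r h0, zero_mul]
    · push Not at h0
      rw [hz r (fun hh => hr ?_), zero_mul]
      rcases le_or_gt r u with hru | hru
      · exact Or.inl ⟨h0, hru⟩
      · exact Or.inr ⟨hru, hh.2⟩
  have hd : Disjoint (Ioc 0 u) (Ioo u h) := by
    rw [Set.disjoint_left]
    intro r h1 h2
    exact absurd h1.2 (not_le.2 h2.1)
  rw [← h1, setIntegral_union hd measurableSet_Ioo hp.fin.integrableOn hp.fin.integrableOn]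
  have h2 : ∫ r in Ioc 0 u, lam r * r ^ n ≤ ∫ r in Ioc 0 u, r ^ n := by
    refine setIntegral_mono_on hp.fin.integrableOn ?_ measurableSet_Ioc ?_
    · exact ((cont_rpow (by linarith : 0 ≤ n)).continuousOn.integrableOn_compact
        (isCompact_Icc (a := (0:ℝ)) (b := u))).mono_set Ioc_subset_Icc_self
    · intro r hr
      exact mul_le_of_le_one_left (Real.rpow_nonneg hr.1.le _) (hp.le_one r)
  have h3 : ∫ r in Ioc 0 u, r ^ n = u ^ (n + 1) / (n + 1) := by
    rw [← intervalIntegral.integral_of_le hu.le, integral_rpow (Or.inl (by linarith)),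
      Real.zero_rpow hn1.ne', sub_zero]
  rw [h3] at h2
  have h4 : (n + 1) * (u ^ (n + 1) / (n + 1)) = u ^ (n + 1) := by field_simp
  nlinarith

theorem vol_nonneg {n : ℝ} {lam : ℝ → ℝ} (hp : Prof n lam) {u h : ℝ} (hu : 0 < u) :
    0 ≤ ∫ r in Ioo u h, lam r * r ^ n :=
  setIntegral_nonneg measurableSet_Ioo
    (fun r hr => mul_nonneg (hp.nonneg r) (Real.rpow_nonneg (hu.trans hr.1).le _))

theorem caseA {θ₀ n : ℝ} {lam : ℝ → ℝ} {P g h : ℝ} (hTC : S_TC) (hKA : S_KA3) (hθ : 0 < θ₀)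
    (hn : 1 < n) (hpi : θ₀ ≤ Real.pi / Real.sqrt n)
    (hp : Prof n lam) (hL : LB θ₀ n lam P) (hz : ∀ r, r ∉ Ioo g h → lam r = 0)
    (hg : 0 ≤ g) {s : ℝ} (hs : 0 < s) (hgs : g ≤ s) (hsh : s < h) (hl : LeftVal lam s 1) :
    θ₀ * ((n + 1) * ∫ r, lam r * r ^ n) ^ (n / (n + 1)) ≤
      P + (∫ r in {r | r ∈ Ioo g h ∧ lam r = 0}, r ^ (n - 1)) +
        ∫ r in {r | r ∈ Ioo s h ∧ lam r = 1}, r ^ (n - 1) := by
  have hμ := mu_pos hn hs hsh
  have hE := E_nonneg hn hs hsh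
  set μ := mu n s h with hμd
  have hEM := sub_le_MM hn hμ hs.le
  have hK : ENNReal.ofReal (θ₀ * (MM n μ - (s ^ n - μ * s ^ (n + 1)))) ≤
      ∫⁻ r in Ioo s h, ENNReal.ofReal (r ^ (n - 1) *
      Real.sqrt (1 - ((s ^ n + μ * (r ^ (n + 1) - s ^ (n + 1))) / r ^ n) ^ 2)) := by
    have h1 := hKA n μ (s ^ n - μ * s ^ (n + 1)) hn hμ hE
    refine (ENNReal.ofReal_le_ofReal ?_).trans (h1.trans ?_)
    · exact mul_le_mul_of_nonneg_right hpi (by linarith)
    · have hsub : {r : ℝ | 0 < r ∧ s ^ n - μ * s ^ (n + 1) + μ * r ^ (n + 1) < r ^ n} ⊆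
          Ioo s h := by
        rintro r ⟨hr, hr2⟩
        by_contra hc
        have := le_chord hn hs hr hsh hc
        rw [← hμd] at this
        linarith
      refine (lintegral_mono_set hsub).trans (le_of_eq ?_)
      refine lintegral_congr (fun r => ?_)
      rw [show s ^ n - μ * s ^ (n + 1) + μ * r ^ (n + 1) =
        s ^ n + μ * (r ^ (n + 1) - s ^ (n + 1)) by ring]
  have hY : ∀ r ∈ Icc s h, |s ^ n + μ * (r ^ (n + 1) - s ^ (n + 1))| ≤ r ^ n := by
    intro r hr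
    rw [abs_of_nonneg]
    · exact chord_le hn hs hr.1 hr.2 hsh
    · have : 0 ≤ μ * r ^ (n + 1) := mul_nonneg hμ.le (Real.rpow_nonneg (hs.le.trans hr.1) _)
      linarith
  have C := core hTC hθ hn hp hL hz hg hs hgs hsh hl hY hK
  have V := vol_split hn hp hz hs
  have V0 := vol_nonneg (h := h) hp hs
  have hn1 : 0 < n + 1 := by linarith
  have hV : 0 ≤ ∫ r, lam r * r ^ n := by
    refine integral_nonneg (fun r => ?_)
    rcases le_or_gt r 0 with h0 | h0
    · simp [hp.zero r h0]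
    · exact mul_nonneg (hp.nonneg r) (Real.rpow_nonneg h0.le _)
  have Y := young hn hμ (W := s ^ (n + 1) + (n + 1) * ∫ r in Ioo s h, lam r * r ^ n)
    (by positivity)
  have M : ((n + 1) * ∫ r, lam r * r ^ n) ^ (n / (n + 1)) ≤
      (s ^ (n + 1) + (n + 1) * ∫ r in Ioo s h, lam r * r ^ n) ^ (n / (n + 1)) :=
    Real.rpow_le_rpow (by positivity) V (by positivity)
  have Z := mul_le_mul_of_nonneg_left (M.trans Y) hθ.le
  linarith

theorem caseB {θ₀ n : ℝ} {lam : ℝ → ℝ} {P g h : ℝ} (hTC : S_TC) (hKA : S_KA3) (hKB : S_KB)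
    (hθ : 0 < θ₀) (hn : 1 < n) (hpi : θ₀ ≤ Real.pi / Real.sqrt n)
    (hp : Prof n lam) (hL : LB θ₀ n lam P) (hz : ∀ r, r ∉ Ioo g h → lam r = 0)
    (hg : 0 ≤ g) {u κ : ℝ} (hu : 0 < u) (hgu : g ≤ u) (huh : u < h) (hl : LeftVal lam u κ) :
    θ₀ * ((n + 1) * ∫ r in Ioo u h, lam r * r ^ n) ^ (n / (n + 1)) ≤
      P + (∫ r in {r | r ∈ Ioo g h ∧ lam r = 0}, r ^ (n - 1)) +
        (∫ r in {r | r ∈ Ioo u h ∧ lam r = 1}, r ^ (n - 1)) + θ₀ * κ * u ^ n := by
  have hn0 : 0 < n := by linarith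
  have hn1 : 0 < n + 1 := by linarith
  have hh : 0 < h := hu.trans huh
  have h1 : u ^ (n + 1) < h ^ (n + 1) := Real.rpow_lt_rpow hu.le huh (by linarith)
  have hd : 0 < h ^ (n + 1) - u ^ (n + 1) := by linarith
  obtain ⟨μ, hμd⟩ : ∃ μ : ℝ, μ = (u ^ n + h ^ n) / (h ^ (n + 1) - u ^ (n + 1)) := ⟨_, rfl⟩
  have hμ : 0 < μ := by rw [hμd]; positivity
  have hμe : μ * (h ^ (n + 1) - u ^ (n + 1)) = u ^ n + h ^ n := by
    rw [hμd, div_mul_cancel₀ _ hd.ne']
  have he : 0 ≤ u ^ n + μ * u ^ (n + 1) := by positivity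
  have B := hKB n μ (u ^ n + μ * u ^ (n + 1)) u h hn hμ he hu.le huh (by ring)
    (by linarith)
  have A := hKA n μ 0 hn hμ le_rfl
  have hset : {r : ℝ | 0 < r ∧ 0 + μ * r ^ (n + 1) < r ^ n} ⊆ Ioo 0 (1 / μ) := by
    rintro r ⟨hr, hr2⟩
    refine ⟨hr, ?_⟩
    rw [Real.rpow_add_one hr.ne', zero_add] at hr2
    have hrn : 0 < r ^ n := Real.rpow_pos_of_pos hr n
    rw [lt_div_iff₀ hμ]
    by_contra hc
    push Not at hc
    have : r ^ n * 1 ≤ r ^ n * (r * μ) := mul_le_mul_of_nonneg_left hc hrn.le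
    linarith
  have hA2 : ∫⁻ r in {r : ℝ | 0 < r ∧ 0 + μ * r ^ (n + 1) < r ^ n},
      ENNReal.ofReal (r ^ (n - 1) * Real.sqrt (1 - ((0 + μ * r ^ (n + 1)) / r ^ n) ^ 2)) ≤
      ∫⁻ r in Ioo 0 (1 / μ), ENNReal.ofReal (r ^ (n - 1) * Real.sqrt (1 - (μ * r) ^ 2)) := by
    refine (lintegral_mono_set hset).trans (setLIntegral_mono' measurableSet_Ioo ?_)
    intro r hr
    have hrn : 0 < r ^ n := Real.rpow_pos_of_pos hr.1 n
    rw [Real.rpow_add_one hr.1.ne', zero_add,
      show μ * (r ^ n * r) / r ^ n = μ * r by field_simp]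
  have hK : ENNReal.ofReal (θ₀ * MM n μ) ≤
      ∫⁻ r in Ioo u h, ENNReal.ofReal (r ^ (n - 1) *
      Real.sqrt (1 - ((-u ^ n + μ * (r ^ (n + 1) - u ^ (n + 1))) / r ^ n) ^ 2)) := by
    refine (ENNReal.ofReal_le_ofReal ?_).trans (A.trans (hA2.trans (B.trans (le_of_eq ?_))))
    · rw [sub_zero]
      exact mul_le_mul_of_nonneg_right hpi (MM_nonneg hn hμ)
    · refine lintegral_congr (fun r => ?_)
      rw [show -(u ^ n + μ * u ^ (n + 1)) + μ * r ^ (n + 1) =
        -u ^ n + μ * (r ^ (n + 1) - u ^ (n + 1)) by ring]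
  have hY : ∀ r ∈ Icc u h, |-u ^ n + μ * (r ^ (n + 1) - u ^ (n + 1))| ≤ r ^ n := by
    intro r hr
    have hr0 : 0 < r := hu.trans_le hr.1
    have hrn : 0 < r ^ n := Real.rpow_pos_of_pos hr0 n
    have hhn : 0 < h ^ n := Real.rpow_pos_of_pos hh n
    have a1 : u ^ n ≤ r ^ n := Real.rpow_le_rpow hu.le hr.1 hn0.le
    have a2 : u ^ (n + 1) ≤ r ^ (n + 1) := Real.rpow_le_rpow hu.le hr.1 hn1.le
    have a3 : 0 ≤ μ * (r ^ (n + 1) - u ^ (n + 1)) := mul_nonneg hμ.le (by linarith)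
    rw [abs_le]
    refine ⟨by linarith, ?_⟩
    -- `-e + μ r^(n+1) ≤ r^n`
    have a4 : r ^ n ≤ h ^ n := Real.rpow_le_rpow hr0.le hr.2 hn0.le
    have b1 : r ^ (n + 1) = r ^ n * r := Real.rpow_add_one hr0.ne' n
    have b2 : h ^ (n + 1) = h ^ n * h := Real.rpow_add_one hh.ne' n
    -- h^n * (-e + μ r^(n+1)) ≤ h^n r^n
    have c1 : -(u ^ n + μ * u ^ (n + 1)) + μ * (h ^ n * h) = h ^ n := by
      rw [← b2]; linarith
    have c2 : h ^ n * (-(u ^ n + μ * u ^ (n + 1)) + μ * (r ^ n * r)) ≤ h ^ n * r ^ n := by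
      have c3 : (u ^ n + μ * u ^ (n + 1)) * r ^ n ≤ (u ^ n + μ * u ^ (n + 1)) * h ^ n :=
        mul_le_mul_of_nonneg_left a4 he
      have c4 : μ * (h ^ n * (r ^ n * r)) ≤ μ * (h ^ n * (r ^ n * h)) := by
        refine mul_le_mul_of_nonneg_left (mul_le_mul_of_nonneg_left
          (mul_le_mul_of_nonneg_left hr.2 hrn.le) hhn.le) hμ.le
      have c5 : r ^ n * (-(u ^ n + μ * u ^ (n + 1)) + μ * (h ^ n * h)) = r ^ n * h ^ n := by
        rw [c1]
      nlinarith
    have c6 := le_of_mul_le_mul_left c2 hhn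
    rw [b1]
    linarith
  have C := core hTC hθ hn hp hL hz hg hu hgu huh hl hY hK
  have V0 := vol_nonneg (h := h) hp hu
  have Y := young hn hμ (W := (n + 1) * ∫ r in Ioo u h, lam r * r ^ n) (by positivity)
  have Z := mul_le_mul_of_nonneg_left Y hθ.le
  linarith

/-- points near the essential supremum of `{lam = 1}` -/
theorem near_sup {n : ℝ} {lam : ℝ → ℝ} {g h : ℝ} (hD : S_DENS) (hp : Prof n lam) (hg : 0 ≤ g)
    (hz : ∀ r, r ∉ Ioo g h → lam r = 0) (hA : volume {r | lam r = 1} ≠ 0) {ε : ℝ} (hε : 0 < ε) :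
    ∃ s, lam s = 1 ∧ LeftVal lam s 1 ∧
      volume ({r | lam r = 1} ∩ Ioi s) ≤ ENNReal.ofReal (2 * ε) := by
  have hin : ∀ r, lam r = 1 → r ∈ Ioo g h := by
    intro r hr
    by_contra hc
    rw [hz r hc] at hr
    exact zero_ne_one hr
  set S : Set ℝ := {s | volume ({r | lam r = 1} ∩ Ioi s) ≠ 0} with hS
  have hne : S.Nonempty := by
    refine ⟨0, ?_⟩
    have : {r | lam r = 1} ∩ Ioi (0 : ℝ) = {r | lam r = 1} :=
      inter_eq_left.2 (fun r hr => hg.trans_lt (hin r hr).1)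
    rw [hS, mem_ofPred_eq, this]
    exact hA
  have hbdd : BddAbove S := by
    refine ⟨h, fun s hs => ?_⟩
    by_contra hc
    push Not at hc
    refine hs ?_
    have : {r | lam r = 1} ∩ Ioi s = ∅ := by
      ext r
      simp only [mem_inter_iff, mem_ofPred_eq, mem_Ioi, mem_empty_iff_false, iff_false, not_and,
        not_lt]
      intro hr
      exact ((hin r hr).2.trans hc).le
    rw [this, measure_empty]
  obtain ⟨s₁, hs₁, hs₁'⟩ := exists_lt_of_lt_csSup hne (show sSup S - ε < sSup S by linarith)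
  have h2 : volume ({r | lam r = 1} ∩ Ioi (sSup S + ε)) = 0 := by
    by_contra hc
    have := le_csSup hbdd (show sSup S + ε ∈ S from hc)
    linarith
  have hae := hD lam hp.meas hp.nonneg hp.le_one
  obtain ⟨s, hsA, hsL⟩ : ∃ s, s ∈ {r | lam r = 1} ∩ Ioi s₁ ∧ LeftVal lam s (lam s) := by
    by_contra hc
    push Not at hc
    refine hs₁ (measure_mono_null ?_ hae)
    intro s hs h3
    exact hc s hs h3.1
  refine ⟨s, hsA.1, ?_, ?_⟩
  · have := hsA.1
    rw [mem_ofPred_eq] at this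
    rw [this] at hsL
    exact hsL
  · have hsub : {r | lam r = 1} ∩ Ioi s ⊆
        ({r | lam r = 1} ∩ Ioi (sSup S + ε)) ∪ Ioc (sSup S - ε) (sSup S + ε) := by
      rintro r ⟨hr1, hr2⟩
      rcases lt_or_ge (sSup S + ε) r with h4 | h4
      · exact Or.inl ⟨hr1, h4⟩
      · exact Or.inr ⟨hs₁'.trans (lt_trans hsA.2 hr2), h4⟩
    refine (measure_mono hsub).trans ((measure_union_le _ _).trans ?_)
    rw [h2, zero_add, Real.volume_Ioc]
    exact ENNReal.ofReal_le_ofReal (by linarith)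

end GFx

open GFx

theorem GF (hTC : S_TC) (hKA : S_KA3) (hKB : S_KB) (hD : S_DENS) : S_GF := by
  intro θ₀ n lam P g h hθ hn hpi hp hL hg hgh hz
  have hn0 : 0 < n := by linarith
  have hn1 : 0 < n + 1 := by linarith
  have hh : 0 < h := hg.trans_lt hgh
  by_cases hA : volume {r | lam r = 1} = 0
  · -- case B
    have hO : ∀ u : ℝ, ∫ r in {r | r ∈ Ioo u h ∧ lam r = 1}, r ^ (n - 1) = 0 := by
      intro u
      have : volume {r | r ∈ Ioo u h ∧ lam r = 1} = 0 :=
        measure_mono_null (fun r hr => hr.2) hA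
      rw [Measure.restrict_eq_zero.2 this, integral_zero_measure]
    rcases eq_or_lt_of_le hg with rfl | hg0
    · -- `g = 0`
      refine le_of_forall_pos_le_add (fun ε hε => ?_)
      have hm : 0 < min (min h 1) (ε / (2 * θ₀)) := by positivity
      obtain ⟨u, hu, huL⟩ : ∃ u, u ∈ Ioo 0 (min (min h 1) (ε / (2 * θ₀))) ∧
          LeftVal lam u (lam u) := by
        by_contra hc
        push Not at hc
        have hae := hD lam hp.meas hp.nonneg hp.le_one
        have h0 : volume (Ioo 0 (min (min h 1) (ε / (2 * θ₀)))) = 0 := by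
          refine measure_mono_null ?_ hae
          intro s hs h3
          exact hc s hs h3.1
        rw [Real.volume_Ioo, ENNReal.ofReal_eq_zero] at h0
        linarith
      have hu0 : 0 < u := hu.1
      have huh : u < h := hu.2.trans_le ((min_le_left _ _).trans (min_le_left _ _))
      have hu1 : u ≤ 1 := (hu.2.trans_le ((min_le_left _ _).trans (min_le_right _ _))).le
      have hue : u ≤ ε / (2 * θ₀) := (hu.2.trans_le (min_le_right _ _)).le
      have hun : u ^ n ≤ u := by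
        have := Real.rpow_le_rpow_of_exponent_ge hu0 hu1 hn.le
        rwa [Real.rpow_one] at this
      have hun0 : 0 ≤ u ^ n := by positivity
      have C := caseB hTC hKA hKB hθ hn hpi hp hL hz le_rfl hu0 hu0.le huh huL
      rw [hO u] at C
      have V := vol_split hn hp hz hu0
      have V0 := vol_nonneg (h := h) hp hu0
      have hV : 0 ≤ ∫ r, lam r * r ^ n := by
        refine integral_nonneg (fun r => ?_)
        rcases le_or_gt r 0 with h0 | h0
        · simp [hp.zero r h0]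
        · exact mul_nonneg (hp.nonneg r) (Real.rpow_nonneg h0.le _)
      have M : ((n + 1) * ∫ r, lam r * r ^ n) ^ (n / (n + 1)) ≤
          (u ^ (n + 1) + (n + 1) * ∫ r in Ioo u h, lam r * r ^ n) ^ (n / (n + 1)) :=
        Real.rpow_le_rpow (by positivity) V (by positivity)
      have Y := rpow_sub hn (a := u ^ (n + 1)) (b := (n + 1) * ∫ r in Ioo u h, lam r * r ^ n)
        (by positivity) (by positivity)
      rw [rpow_cancel hn hu0.le] at Y
      have Z := mul_le_mul_of_nonneg_left (M.trans Y) hθ.le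
      have Q1 : θ₀ * lam u * u ^ n ≤ θ₀ * u := by
        have : lam u * u ^ n ≤ 1 * u := mul_le_mul (hp.le_one u) hun hun0 zero_le_one
        nlinarith
      have Q2 : θ₀ * u ^ n ≤ θ₀ * u := mul_le_mul_of_nonneg_left hun hθ.le
      have Q3 : θ₀ * u + θ₀ * u ≤ ε := by
        rw [le_div_iff₀ (by positivity)] at hue
        linarith
      linarith
    · -- `g > 0`
      have hl : LeftVal lam g 0 := by
        unfold LeftVal
        refine (tendsto_const_nhds (x := (0 : ℝ))).congr' ?_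
        filter_upwards [self_mem_nhdsWithin] with δ hδ
        have hδ' : (0 : ℝ) < δ := hδ
        have : ∫ r in (g - δ)..g, lam r = 0 := by
          rw [intervalIntegral.integral_congr (g := fun _ => (0 : ℝ))]
          · simp
          · intro r hr
            rw [uIcc_of_le (by linarith)] at hr
            exact hz r (fun hh => absurd hh.1 (not_lt.2 hr.2))
        rw [this, mul_zero]
      have C := caseB hTC hKA hKB hθ hn hpi hp hL hz hg hg0 le_rfl hgh hl
      rw [hO g] at C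
      have e : ∫ r in Ioo g h, lam r * r ^ n = ∫ r, lam r * r ^ n := by
        apply setIntegral_eq_integral_of_forall_compl_eq_zero
        intro r hr
        rw [hz r hr, zero_mul]
      rw [e] at C
      linarith
  · -- case A
    refine le_of_forall_pos_le_add (fun ε hε => ?_)
    have hhn : 0 < h ^ (n - 1) := Real.rpow_pos_of_pos hh _
    obtain ⟨s, hs1, hsL, hsV⟩ := near_sup hD hp hg hz hA (ε := ε / (2 * h ^ (n - 1)))
      (by positivity)
    have hsI : s ∈ Ioo g h := by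
      by_contra hc
      rw [hz s hc] at hs1
      exact zero_ne_one hs1
    have hs0 : 0 < s := hg.trans_lt hsI.1
    have C := caseA hTC hKA hθ hn hpi hp hL hz hg hs0 hsI.1.le hsI.2 hsL
    have hV : volume {r | r ∈ Ioo s h ∧ lam r = 1} ≤
        ENNReal.ofReal (2 * (ε / (2 * h ^ (n - 1)))) := by
      have hsub : {r | r ∈ Ioo s h ∧ lam r = 1} ⊆ {r | lam r = 1} ∩ Ioi s :=
        fun r hr => ⟨hr.2, hr.1.1⟩
      exact (measure_mono hsub).trans hsV
    have hfin : volume {r | r ∈ Ioo s h ∧ lam r = 1} < ⊤ := hV.trans_lt ENNReal.ofReal_lt_top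
    have hb := norm_setIntegral_le_of_norm_le_const (f := fun r : ℝ => r ^ (n - 1))
      (C := h ^ (n - 1)) hfin (fun r hr => by
        have hr0 : 0 ≤ r := hs0.le.trans hr.1.1.le
        rw [Real.norm_of_nonneg (Real.rpow_nonneg hr0 _)]
        exact Real.rpow_le_rpow hr0 hr.1.2.le (by linarith))
    have hr : volume.real {r | r ∈ Ioo s h ∧ lam r = 1} ≤ 2 * (ε / (2 * h ^ (n - 1))) :=
      ENNReal.toReal_le_of_le_ofReal (by positivity) hV
    have h5 : h ^ (n - 1) * (2 * (ε / (2 * h ^ (n - 1)))) = ε := by field_simp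
    have h6 := mul_le_mul_of_nonneg_left hr hhn.le
    have h7 := (le_abs_self _).trans hb
    linarith

end Pool.R872.SEC
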