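import Pool.Agent.R872.SEC.Stm

/-! # SEC-KA2: lower bound for the weighted width -/

open MeasureTheory Set Filter
open scoped ENNReal

namespace Pool.R872.SEC

namespace KA2Aux

/-- the function `(t - μ r) r^n` -/
noncomputable def φ (n μ t : ℝ) (r : ℝ) : ℝ := (t - μ * r) * r ^ n

lemma φ_cont (n μ t : ℝ) (hn : 1 < n) : Continuous (φ n μ t) := by
  unfold φ
  have c2 : Continuous (fun r : ℝ => r ^ n) :=
    continuous_id.rpow_const (fun x => Or.inr (by linarith))
  exact (continuous_const.sub (continuous_const.mul continuous_id)).mul c2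

lemma φ_deriv (n μ t : ℝ) (r : ℝ) (hr : 0 < r) :
    HasDerivAt (φ n μ t) (r ^ (n - 1) * (n * t - (n + 1) * μ * r)) r := by
  unfold φ
  have h1 : HasDerivAt (fun r : ℝ => t - μ * r) (-(μ * 1)) r :=
    ((hasDerivAt_id r).const_mul μ).const_sub t
  have h2 : HasDerivAt (fun r : ℝ => r ^ n) (n * r ^ (n - 1)) r :=
    Real.hasDerivAt_rpow_const (Or.inl hr.ne')
  refine (h1.mul h2).congr_deriv ?_
  have e : r ^ n = r ^ (n - 1) * r := by
    nth_rewrite 3 [← Real.rpow_one r]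
    rw [← Real.rpow_add hr]; congr 1; ring
  rw [e]; ring

/-- change of variables on a branch -/
lemma branch (n μ t : ℝ) (A : Set ℝ) (hA : MeasurableSet A) (hA0 : ∀ r ∈ A, 0 < r)
    (hinj : InjOn (φ n μ t) A) (hne : ∀ r ∈ A, n * t - (n + 1) * μ * r ≠ 0) :
    ∫⁻ e in φ n μ t '' A, ENNReal.ofReal
        (1 / |n * t - (n + 1) * μ * Function.invFunOn (φ n μ t) A e|) =
      ∫⁻ r in A, ENNReal.ofReal (r ^ (n - 1)) := by
  rw [lintegral_image_eq_lintegral_abs_deriv_mul hA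
    (fun r hr => (φ_deriv n μ t r (hA0 r hr)).hasDerivWithinAt) hinj]
  refine setLIntegral_congr_fun hA fun r hr => ?_
  have h1 : Function.invFunOn (φ n μ t) A (φ n μ t r) = r := hinj.leftInvOn_invFunOn hr
  rw [h1, ← ENNReal.ofReal_mul (abs_nonneg _), abs_mul,
    abs_of_nonneg (Real.rpow_nonneg (hA0 r hr).le _)]
  congr 1
  have := abs_pos.2 (hne r hr)
  field_simp

lemma φ_star (n μ t : ℝ) (hn : 1 < n) (hμ : 0 < μ) (ht : 0 < t) :
    φ n μ t (n * t / ((n + 1) * μ)) * (μ ^ n * ((n + 1) ^ (n + 1) / n ^ n)) = t ^ (n + 1) := by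
  have hn0 : 0 < n := by linarith
  unfold φ
  rw [Real.div_rpow (by positivity) (by positivity), Real.mul_rpow hn0.le ht.le,
    Real.mul_rpow (by linarith) hμ.le, Real.rpow_add (by linarith : 0 < n + 1) n 1,
    Real.rpow_add ht n 1, Real.rpow_one, Real.rpow_one]
  have h1 : 0 < n ^ n := Real.rpow_pos_of_pos hn0 _
  have h2 : 0 < (n + 1) ^ n := Real.rpow_pos_of_pos (by linarith) _
  have h3 : 0 < μ ^ n := Real.rpow_pos_of_pos hμ _
  field_simp
  ring

lemma lt_star (n μ t e : ℝ) (hn : 1 < n) (hμ : 0 < μ) (ht : 0 < t) (he : 0 < e)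
    (h : cc n μ e < t) : e < φ n μ t (n * t / ((n + 1) * μ)) := by
  have hn0 : 0 < n := by linarith
  have h1 : 0 < n ^ n := Real.rpow_pos_of_pos hn0 _
  have h2 : 0 < (n + 1) ^ (n + 1) := Real.rpow_pos_of_pos (by linarith) _
  have h3 : 0 < μ ^ n := Real.rpow_pos_of_pos hμ _
  have hK : 0 < μ ^ n * ((n + 1) ^ (n + 1) / n ^ n) := by positivity
  have h4 : 0 ≤ μ ^ n * e * ((n + 1) ^ (n + 1) / n ^ n) := by positivity
  have h5 : (cc n μ e) ^ (n + 1) = μ ^ n * e * ((n + 1) ^ (n + 1) / n ^ n) := by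
    unfold cc
    rw [← Real.rpow_mul h4, one_div_mul_cancel (by linarith), Real.rpow_one]
  have h6 : (cc n μ e) ^ (n + 1) < t ^ (n + 1) :=
    Real.rpow_lt_rpow (Real.rpow_nonneg h4 _) h (by linarith)
  rw [h5, ← φ_star n μ t hn hμ ht] at h6
  have h7 : e * (μ ^ n * ((n + 1) ^ (n + 1) / n ^ n)) <
      φ n μ t (n * t / ((n + 1) * μ)) * (μ ^ n * ((n + 1) ^ (n + 1) / n ^ n)) := by
    calc _ = μ ^ n * e * ((n + 1) ^ (n + 1) / n ^ n) := by ring
      _ < _ := h6
  exact lt_of_mul_lt_mul_right h7 hK.le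

end KA2Aux

open KA2Aux in
theorem KA2 (h : S_KA1) : S_KA2 := by
  intro n μ t E hn hμ ht hE
  have hn0 : 0 < n := by linarith
  set rs : ℝ := n * t / ((n + 1) * μ) with hrs
  have hrs0 : 0 < rs := by positivity
  have hrsμ : rs < t / μ := by
    rw [hrs, div_lt_div_iff₀ (by positivity) hμ]
    nlinarith [mul_pos ht hμ]
  have hsgn : ∀ r, r < rs → 0 < n * t - (n + 1) * μ * r := by
    intro r hr
    rw [hrs, lt_div_iff₀ (by positivity)] at hr
    linarith
  have hsgn' : ∀ r, rs < r → n * t - (n + 1) * μ * r < 0 := by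
    intro r hr
    rw [hrs, div_lt_iff₀ (by positivity)] at hr
    linarith
  have hmono : StrictMonoOn (φ n μ t) (Icc 0 rs) := by
    refine strictMonoOn_of_deriv_pos (convex_Icc _ _) (φ_cont n μ t hn).continuousOn fun r hr => ?_
    rw [interior_Icc] at hr
    rw [(φ_deriv n μ t r hr.1).deriv]
    exact mul_pos (Real.rpow_pos_of_pos hr.1 _) (hsgn r hr.2)
  have hanti : StrictAntiOn (φ n μ t) (Icc rs (t / μ)) := by
    refine strictAntiOn_of_deriv_neg (convex_Icc _ _) (φ_cont n μ t hn).continuousOn fun r hr => ?_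
    rw [interior_Icc] at hr
    have hr0 : 0 < r := hrs0.trans hr.1
    rw [(φ_deriv n μ t r hr0).deriv]
    exact mul_neg_of_pos_of_neg (Real.rpow_pos_of_pos hr0 _) (hsgn' r hr.1)
  have hφm : Measurable (φ n μ t) := (φ_cont n μ t hn).measurable
  set A : Set ℝ := {r | (0 < r ∧ r < rs) ∧ E < φ n μ t r} with hA
  set B : Set ℝ := {r | (rs < r ∧ r < t / μ) ∧ E < φ n μ t r} with hB
  have hAm : MeasurableSet A := measurableSet_Ioo.inter (measurableSet_lt measurable_const hφm)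
  have hBm : MeasurableSet B := measurableSet_Ioo.inter (measurableSet_lt measurable_const hφm)
  have hAinj : InjOn (φ n μ t) A :=
    hmono.injOn.mono (show A ⊆ Icc 0 rs from fun r hr => ⟨hr.1.1.le, hr.1.2.le⟩)
  have hBinj : InjOn (φ n μ t) B :=
    hanti.injOn.mono (show B ⊆ Icc rs (t / μ) from fun r hr => ⟨hr.1.1.le, hr.1.2.le⟩)
  have hIA := branch n μ t A hAm (fun r hr => hr.1.1) hAinj (fun r hr => (hsgn r hr.1.2).ne')
  have hIB := branch n μ t B hBm (fun r hr => hrs0.trans hr.1.1) hBinj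
    (fun r hr => (hsgn' r hr.1.1).ne)
  set S : Set ℝ := {e : ℝ | E < e ∧ cc n μ e < t} with hS
  have hccm : Measurable (cc n μ) := by unfold cc; fun_prop
  have hSm : MeasurableSet S := measurableSet_Ioi.inter (measurableSet_lt hccm measurable_const)
  have h00 : φ n μ t 0 = 0 := by unfold φ; rw [Real.zero_rpow hn0.ne', mul_zero]
  have h01 : φ n μ t (t / μ) = 0 := by
    unfold φ
    rw [mul_div_cancel₀ _ hμ.ne', sub_self, zero_mul]
  have hexA : ∀ e ∈ S, ∃ r ∈ A, φ n μ t r = e := by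
    intro e he
    have he0 : 0 < e := lt_of_le_of_lt hE he.1
    have h1 := lt_star n μ t e hn hμ ht he0 he.2
    obtain ⟨r, hr, hre⟩ := intermediate_value_Icc hrs0.le (φ_cont n μ t hn).continuousOn
      (show e ∈ Icc (φ n μ t 0) (φ n μ t rs) from ⟨by rw [h00]; exact he0.le, h1.le⟩)
    refine ⟨r, ⟨⟨lt_of_le_of_ne hr.1 ?_, lt_of_le_of_ne hr.2 ?_⟩, ?_⟩, hre⟩
    · rintro rfl
      rw [h00] at hre; linarith
    · intro hh
      rw [hh] at hre
      exact absurd hre h1.ne'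
    · rw [hre]; exact he.1
  have hexB : ∀ e ∈ S, ∃ r ∈ B, φ n μ t r = e := by
    intro e he
    have he0 : 0 < e := lt_of_le_of_lt hE he.1
    have h1 := lt_star n μ t e hn hμ ht he0 he.2
    obtain ⟨r, hr, hre⟩ := intermediate_value_Icc' hrsμ.le (φ_cont n μ t hn).continuousOn
      (show e ∈ Icc (φ n μ t (t / μ)) (φ n μ t rs) from ⟨by rw [h01]; exact he0.le, h1.le⟩)
    refine ⟨r, ⟨⟨lt_of_le_of_ne hr.1 ?_, lt_of_le_of_ne hr.2 ?_⟩, ?_⟩, hre⟩
    · intro hh
      rw [← hh] at hre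
      exact absurd hre h1.ne'
    · intro hh
      rw [hh, h01] at hre; linarith
    · rw [hre]; exact he.1
  set ψA := Function.invFunOn (φ n μ t) A with hψA
  set ψB := Function.invFunOn (φ n μ t) B with hψB
  have hmA : MonotoneOn ψA S := by
    intro e he e' he' hee
    obtain ⟨r, hr, rfl⟩ := hexA e he
    obtain ⟨r', hr', rfl⟩ := hexA e' he'
    rw [hψA, hAinj.leftInvOn_invFunOn hr, hAinj.leftInvOn_invFunOn hr']
    exact (hmono.le_iff_le ⟨hr.1.1.le, hr.1.2.le⟩ ⟨hr'.1.1.le, hr'.1.2.le⟩).1 hee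
  have haA : AEMeasurable (fun e => ENNReal.ofReal (1 / |n * t - (n + 1) * μ * ψA e|))
      (volume.restrict S) := by
    have h1 := aemeasurable_restrict_of_monotoneOn (μ := volume) hSm hmA
    have h2 : Measurable (fun x : ℝ => ENNReal.ofReal (1 / |n * t - (n + 1) * μ * x|)) := by
      fun_prop
    exact h2.comp_aemeasurable h1
  have hpt : ∀ e ∈ S, ENNReal.ofReal (2 / (Real.sqrt n * Real.sqrt (t ^ 2 - cc n μ e ^ 2))) ≤
      ENNReal.ofReal (1 / |n * t - (n + 1) * μ * ψA e|) +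
      ENNReal.ofReal (1 / |n * t - (n + 1) * μ * ψB e|) := by
    intro e he
    have he0 : 0 < e := lt_of_le_of_lt hE he.1
    obtain ⟨r, hr, hre⟩ := hexA e he
    obtain ⟨r', hr', hre'⟩ := hexB e he
    have e1 : ψA e = r := by rw [hψA, ← hre]; exact hAinj.leftInvOn_invFunOn hr
    have e2 : ψB e = r' := by rw [hψB, ← hre']; exact hBinj.leftInvOn_invFunOn hr'
    have h3 := (h n μ t e r r' hn hμ ht he0 hr.1.1 hr.1.2 hr'.1.1 hr'.1.2 hre hre').2
    rw [e1, e2, abs_of_pos (hsgn r hr.1.2), abs_of_neg (hsgn' r' hr'.1.1),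
      ← ENNReal.ofReal_add (one_div_nonneg.2 (hsgn r hr.1.2).le)
        (one_div_nonneg.2 (by linarith [hsgn' r' hr'.1.1]))]
    refine ENNReal.ofReal_le_ofReal (h3.trans (le_of_eq ?_))
    rw [neg_sub]
  calc ∫⁻ e in S, ENNReal.ofReal (2 / (Real.sqrt n * Real.sqrt (t ^ 2 - cc n μ e ^ 2)))
      ≤ ∫⁻ e in S, (ENNReal.ofReal (1 / |n * t - (n + 1) * μ * ψA e|) +
          ENNReal.ofReal (1 / |n * t - (n + 1) * μ * ψB e|)) := setLIntegral_mono' hSm hpt
    _ = (∫⁻ e in S, ENNReal.ofReal (1 / |n * t - (n + 1) * μ * ψA e|)) +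
          ∫⁻ e in S, ENNReal.ofReal (1 / |n * t - (n + 1) * μ * ψB e|) :=
        lintegral_add_left' haA _
    _ ≤ (∫⁻ e in φ n μ t '' A, ENNReal.ofReal (1 / |n * t - (n + 1) * μ * ψA e|)) +
          ∫⁻ e in φ n μ t '' B, ENNReal.ofReal (1 / |n * t - (n + 1) * μ * ψB e|) :=
        add_le_add (lintegral_mono_set hexA) (lintegral_mono_set hexB)
    _ = (∫⁻ r in A, ENNReal.ofReal (r ^ (n - 1))) + ∫⁻ r in B, ENNReal.ofReal (r ^ (n - 1)) := by
        rw [hIA, hIB]
    _ = ∫⁻ r in A ∪ B, ENNReal.ofReal (r ^ (n - 1)) := by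
        rw [lintegral_union hBm]
        rw [Set.disjoint_left]
        intro r hr hr'
        exact absurd (hr.1.2.trans hr'.1.1) (lt_irrefl _)
    _ ≤ _ := by
        refine lintegral_mono_set ?_
        rintro r (hr | hr)
        · exact ⟨hr.1.1, hr.2⟩
        · exact ⟨hrs0.trans hr.1.1, hr.2⟩

end Pool.R872.SEC
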