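import Pool.Agent.R872.SEC.Stm

/-!
Project SEC (MP_d56274_gt), piece KA3: the key inequality by Tonelli twice.
-/

set_option autoImplicit false

open MeasureTheory Set
open scoped ENNReal

namespace Pool.R872.SEC

namespace KA3aux

/-- the weight `t / √(1 - t²)` -/
noncomputable def W (t : ℝ) : ℝ≥0∞ := ENNReal.ofReal (t / Real.sqrt (1 - t ^ 2))

lemma W_meas : Measurable W := by
  unfold W
  fun_prop

lemma lint_W {y : ℝ} (hy0 : 0 ≤ y) (hy1 : y < 1) :
    ∫⁻ t in Ioo y 1, W t ≤ ENNReal.ofReal (Real.sqrt (1 - y ^ 2)) := by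
  have hd : ∀ x ∈ Ioo y 1, HasDerivAt (fun t : ℝ => - Real.sqrt (1 - t ^ 2))
      (x / Real.sqrt (1 - x ^ 2)) x := by
    intro x hx
    have hx0 : 0 < 1 - x ^ 2 := by nlinarith [hx.1, hx.2]
    have h1 : HasDerivAt (fun t : ℝ => 1 - t ^ 2) (-(2 * x)) x := by
      have := (hasDerivAt_pow 2 x).const_sub 1
      simpa using this
    have h2 := (h1.sqrt hx0.ne').neg
    have h3 : -(-(2 * x) / (2 * Real.sqrt (1 - x ^ 2))) = x / Real.sqrt (1 - x ^ 2) := by
      rw [neg_div, neg_neg, mul_div_mul_left _ _ (by norm_num : (2 : ℝ) ≠ 0)]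
    exact h2.congr_deriv h3
  have hc : ContinuousOn (fun t : ℝ => - Real.sqrt (1 - t ^ 2)) (Icc y 1) := by
    apply Continuous.continuousOn
    fun_prop
  have hp : ∀ x ∈ Ioo y 1, 0 ≤ x / Real.sqrt (1 - x ^ 2) := fun x hx =>
    div_nonneg (hy0.trans hx.1.le) (Real.sqrt_nonneg _)
  have hint : IntegrableOn (fun x => x / Real.sqrt (1 - x ^ 2)) (Ioc y 1) :=
    intervalIntegral.integrableOn_deriv_of_nonneg hc hd hp
  have hii : IntervalIntegrable (fun x => x / Real.sqrt (1 - x ^ 2)) volume y 1 :=
    (intervalIntegrable_iff_integrableOn_Ioc_of_le hy1.le).mpr hint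
  have heq := intervalIntegral.integral_eq_sub_of_hasDerivAt_of_le hy1.le hc hd hii
  have hint' : IntegrableOn (fun x => x / Real.sqrt (1 - x ^ 2)) (Ioo y 1) :=
    hint.mono_set Ioo_subset_Ioc_self
  have h3 : ENNReal.ofReal (∫ x in Ioo y 1, x / Real.sqrt (1 - x ^ 2)) = ∫⁻ t in Ioo y 1, W t := by
    apply ofReal_integral_eq_lintegral_ofReal hint'
    filter_upwards [ae_restrict_mem measurableSet_Ioo] with x hx using hp x hx
  rw [← h3, ← integral_Ioc_eq_integral_Ioo, ← intervalIntegral.integral_of_le hy1.le, heq]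
  apply ENNReal.ofReal_le_ofReal
  simp

end KA3aux

open KA3aux

theorem KA3 (h2 : S_KA2) (h3 : S_ARC) : S_KA3 := by
  intro n μ E hn hμ hE
  have hn0 : 0 < n := by linarith
  have hsn : 0 < Real.sqrt n := Real.sqrt_pos.mpr hn0
  set M : ℝ := n ^ n / ((n + 1) ^ (n + 1) * μ ^ n) with hM
  have hnn : 0 < n ^ n := Real.rpow_pos_of_pos hn0 n
  have hn1 : 0 < (n + 1) ^ (n + 1) := Real.rpow_pos_of_pos (by linarith) _
  have hμn : 0 < μ ^ n := Real.rpow_pos_of_pos hμ n
  have hMpos : 0 < M := by positivity
  set c : ℝ → ℝ := fun e => cc n μ e with hc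
  have hc_meas : Measurable c := by
    rw [hc]
    unfold cc
    fun_prop
  have hc0 : ∀ e, 0 < e → 0 ≤ c e := fun e he => Real.rpow_nonneg (by positivity) _
  have hc1 : ∀ e, 0 < e → e < M → c e < 1 := by
    intro e he heM
    apply Real.rpow_lt_one (by positivity) _ (by positivity)
    have h5 : e * ((n + 1) ^ (n + 1) * μ ^ n) < n ^ n := by
      rwa [hM, lt_div_iff₀ (by positivity)] at heM
    rw [mul_div_assoc', div_lt_one hnn]
    nlinarith
  -- the two sets and functions
  set A : Set (ℝ × ℝ) := {x | 0 < x.1 ∧ E + μ * x.1 ^ (n + 1) < x.2 * x.1 ^ n ∧ x.2 < 1} with hA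
  set F : ℝ × ℝ → ℝ≥0∞ := fun x => ENNReal.ofReal (x.1 ^ (n - 1)) * W x.2 with hF
  set B : Set (ℝ × ℝ) := {x | E < x.1 ∧ x.1 < M ∧ c x.1 < x.2 ∧ x.2 < 1} with hB
  set G : ℝ × ℝ → ℝ≥0∞ := fun x => W x.2 *
    ENNReal.ofReal (2 / (Real.sqrt n * Real.sqrt (x.2 ^ 2 - c x.1 ^ 2))) with hG
  have hAm : MeasurableSet A := by
    apply MeasurableSet.inter (measurableSet_lt measurable_const measurable_fst)
    apply MeasurableSet.inter
    · exact measurableSet_lt (by fun_prop : Measurable fun x : ℝ × ℝ => E + μ * x.1 ^ (n + 1))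
        (by fun_prop : Measurable fun x : ℝ × ℝ => x.2 * x.1 ^ n)
    · exact measurableSet_lt measurable_snd measurable_const
  have hBm : MeasurableSet B := by
    apply MeasurableSet.inter (measurableSet_lt measurable_const measurable_fst)
    apply MeasurableSet.inter (measurableSet_lt measurable_fst measurable_const)
    apply MeasurableSet.inter
    · exact measurableSet_lt (hc_meas.comp measurable_fst) measurable_snd
    · exact measurableSet_lt measurable_snd measurable_const
  have hFm : Measurable F := by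
    have h1 : Measurable fun x : ℝ × ℝ => ENNReal.ofReal (x.1 ^ (n - 1)) := by fun_prop
    exact h1.mul (W_meas.comp measurable_snd)
  have hGm : Measurable G := by
    have h0 : Measurable fun x : ℝ × ℝ => c x.1 := hc_meas.comp measurable_fst
    have h1 : Measurable fun x : ℝ × ℝ =>
        ENNReal.ofReal (2 / (Real.sqrt n * Real.sqrt (x.2 ^ 2 - c x.1 ^ 2))) := by fun_prop
    exact (W_meas.comp measurable_snd).mul h1
  have hAF : Measurable (A.indicator F) := hFm.indicator hAm
  have hBG : Measurable (B.indicator G) := hGm.indicator hBm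
  set S : Set ℝ := {r : ℝ | 0 < r ∧ E + μ * r ^ (n + 1) < r ^ n} with hS
  have hSm : MeasurableSet S := by
    apply MeasurableSet.inter (measurableSet_lt measurable_const measurable_id)
    exact measurableSet_lt (by fun_prop : Measurable fun r : ℝ => E + μ * r ^ (n + 1))
      (by fun_prop : Measurable fun r : ℝ => r ^ n)
  -- claim 1
  have claim1 : ∀ r : ℝ, ∫⁻ t, A.indicator F (r, t) ≤ S.indicator (fun r =>
      ENNReal.ofReal (r ^ (n - 1) * Real.sqrt (1 - ((E + μ * r ^ (n + 1)) / r ^ n) ^ 2))) r := by
    intro r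
    by_cases hr : r ∈ S
    · rw [indicator_of_mem hr]
      have hr0 : 0 < r := hr.1
      have hrn : 0 < r ^ n := Real.rpow_pos_of_pos hr0 n
      have hrn1 : 0 < r ^ (n + 1) := Real.rpow_pos_of_pos hr0 _
      set y : ℝ := (E + μ * r ^ (n + 1)) / r ^ n with hy
      have hy0 : 0 ≤ y := by positivity
      have hy1 : y < 1 := by rw [hy, div_lt_one hrn]; exact hr.2
      calc ∫⁻ t, A.indicator F (r, t)
          ≤ ∫⁻ t, (Ioo y 1).indicator (fun t => ENNReal.ofReal (r ^ (n - 1)) * W t) t := by
            apply lintegral_mono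
            intro t
            beta_reduce
            by_cases ht : (r, t) ∈ A
            · rw [indicator_of_mem ht, indicator_of_mem]
              refine ⟨?_, ht.2.2⟩
              rw [hy, div_lt_iff₀ hrn]
              exact ht.2.1
            · rw [indicator_of_notMem ht]
              exact zero_le
        _ = ENNReal.ofReal (r ^ (n - 1)) * ∫⁻ t in Ioo y 1, W t := by
            rw [lintegral_indicator measurableSet_Ioo, lintegral_const_mul _ W_meas]
        _ ≤ ENNReal.ofReal (r ^ (n - 1)) * ENNReal.ofReal (Real.sqrt (1 - y ^ 2)) := by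
            gcongr
            exact lint_W hy0 hy1
        _ = _ := by
            rw [ENNReal.ofReal_mul (Real.rpow_nonneg hr0.le _)]
    · have : ∀ t, A.indicator F (r, t) = 0 := by
        intro t
        apply indicator_of_notMem
        rintro ⟨h5, h6, h7⟩
        apply hr
        refine ⟨h5, h6.trans ?_⟩
        have : 0 < r ^ n := Real.rpow_pos_of_pos h5 n
        simp only at h7 ⊢
        nlinarith
      simp [this]
  -- claim 2
  have claim2 : ∀ t : ℝ, ∫⁻ e, B.indicator G (e, t) ≤ ∫⁻ r, A.indicator F (r, t) := by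
    intro t
    by_cases ht : 0 < t ∧ t < 1
    · have h5 := h2 n μ t E hn hμ ht.1 hE
      have hsetm : MeasurableSet {e : ℝ | E < e ∧ cc n μ e < t} := by
        apply MeasurableSet.inter (measurableSet_lt measurable_const measurable_id)
        exact measurableSet_lt hc_meas measurable_const
      have hsetm2 : MeasurableSet {r : ℝ | 0 < r ∧ E < (t - μ * r) * r ^ n} := by
        apply MeasurableSet.inter (measurableSet_lt measurable_const measurable_id)
        exact measurableSet_lt measurable_const
          (by fun_prop : Measurable fun r : ℝ => (t - μ * r) * r ^ n)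
      calc ∫⁻ e, B.indicator G (e, t)
          ≤ ∫⁻ e, ({e : ℝ | E < e ∧ cc n μ e < t}).indicator (fun e => W t *
              ENNReal.ofReal (2 / (Real.sqrt n * Real.sqrt (t ^ 2 - cc n μ e ^ 2)))) e := by
            apply lintegral_mono
            intro e
            beta_reduce
            by_cases he : (e, t) ∈ B
            · rw [indicator_of_mem he, indicator_of_mem]
              exact ⟨he.1, he.2.2.1⟩
            · rw [indicator_of_notMem he]
              exact zero_le
        _ = W t * ∫⁻ e in {e : ℝ | E < e ∧ cc n μ e < t},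
              ENNReal.ofReal (2 / (Real.sqrt n * Real.sqrt (t ^ 2 - cc n μ e ^ 2))) := by
            rw [lintegral_indicator hsetm, lintegral_const_mul]
            have : Measurable fun e : ℝ => cc n μ e := hc_meas
            fun_prop
        _ ≤ W t * ∫⁻ r in {r : ℝ | 0 < r ∧ E < (t - μ * r) * r ^ n},
              ENNReal.ofReal (r ^ (n - 1)) := by
            gcongr
        _ = ∫⁻ r, ({r : ℝ | 0 < r ∧ E < (t - μ * r) * r ^ n}).indicator
              (fun r => W t * ENNReal.ofReal (r ^ (n - 1))) r := by
            rw [lintegral_indicator hsetm2, lintegral_const_mul]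
            fun_prop
        _ ≤ ∫⁻ r, A.indicator F (r, t) := by
            apply lintegral_mono
            intro r
            beta_reduce
            by_cases hr : r ∈ {r : ℝ | 0 < r ∧ E < (t - μ * r) * r ^ n}
            · rw [indicator_of_mem hr, indicator_of_mem]
              · simp only [hF]
                rw [mul_comm]
              · refine ⟨hr.1, ?_, ht.2⟩
                have h6 := hr.2
                have h7 : r ^ (n + 1) = r ^ n * r := by
                  rw [Real.rpow_add hr.1, Real.rpow_one]
                simp only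
                rw [h7]
                nlinarith
            · rw [indicator_of_notMem hr]
              exact zero_le
    · have : ∀ e, B.indicator G (e, t) = 0 := by
        intro e
        apply indicator_of_notMem
        rintro ⟨h5, h6, h7, h8⟩
        apply ht
        exact ⟨lt_of_le_of_lt (hc0 e (lt_of_le_of_lt hE h5)) h7, h8⟩
      simp [this]
  -- claim 3
  have claim3 : ∀ e ∈ Ioo E M, ENNReal.ofReal (Real.pi / Real.sqrt n) ≤
      ∫⁻ t, B.indicator G (e, t) := by
    intro e he
    have he0 : 0 < e := lt_of_le_of_lt hE he.1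
    have h5 := h3 (c e) (hc0 e he0) (hc1 e he0 he.2)
    have h6 : ENNReal.ofReal (Real.pi / Real.sqrt n) =
        ENNReal.ofReal (2 / Real.sqrt n) * ENNReal.ofReal (Real.pi / 2) := by
      rw [← ENNReal.ofReal_mul (by positivity)]
      congr 1
      field_simp
    rw [h6]
    calc ENNReal.ofReal (2 / Real.sqrt n) * ENNReal.ofReal (Real.pi / 2)
        ≤ ENNReal.ofReal (2 / Real.sqrt n) * ∫⁻ t in Ioo (c e) 1,
            ENNReal.ofReal (t / (Real.sqrt (1 - t ^ 2) * Real.sqrt (t ^ 2 - c e ^ 2))) := by
          gcongr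
      _ = ∫⁻ t in Ioo (c e) 1, ENNReal.ofReal (2 / Real.sqrt n) *
            ENNReal.ofReal (t / (Real.sqrt (1 - t ^ 2) * Real.sqrt (t ^ 2 - c e ^ 2))) := by
          rw [lintegral_const_mul]
          fun_prop
      _ = ∫⁻ t, (Ioo (c e) 1).indicator (fun t => ENNReal.ofReal (2 / Real.sqrt n) *
            ENNReal.ofReal (t / (Real.sqrt (1 - t ^ 2) * Real.sqrt (t ^ 2 - c e ^ 2)))) t := by
          rw [lintegral_indicator measurableSet_Ioo]
      _ ≤ ∫⁻ t, B.indicator G (e, t) := by
          apply lintegral_mono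
          intro t
          beta_reduce
          by_cases ht : t ∈ Ioo (c e) 1
          · have ht0 : 0 ≤ t := (hc0 e he0).trans ht.1.le
            have hmem : (e, t) ∈ B := ⟨he.1, he.2, ht.1, ht.2⟩
            rw [indicator_of_mem ht, indicator_of_mem hmem]
            simp only [hG, W]
            rw [← ENNReal.ofReal_mul (by positivity), ← ENNReal.ofReal_mul (by positivity)]
            apply le_of_eq
            congr 1
            rw [div_mul_div_comm, div_mul_div_comm]
            ring
          · rw [indicator_of_notMem ht]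
            exact zero_le
  calc ENNReal.ofReal (Real.pi / Real.sqrt n * (M - E))
      = ENNReal.ofReal (Real.pi / Real.sqrt n) * volume (Ioo E M) := by
        rw [ENNReal.ofReal_mul (by positivity), Real.volume_Ioo]
    _ = ∫⁻ _ in Ioo E M, ENNReal.ofReal (Real.pi / Real.sqrt n) := by
        rw [setLIntegral_const]
    _ ≤ ∫⁻ e in Ioo E M, ∫⁻ t, B.indicator G (e, t) := by
        apply setLIntegral_mono' measurableSet_Ioo
        intro e he
        exact claim3 e he
    _ ≤ ∫⁻ e, ∫⁻ t, B.indicator G (e, t) := setLIntegral_le_lintegral _ _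
    _ = ∫⁻ t, ∫⁻ e, B.indicator G (e, t) := by
        apply lintegral_lintegral_swap
        exact hBG.aemeasurable
    _ ≤ ∫⁻ t, ∫⁻ r, A.indicator F (r, t) := lintegral_mono claim2
    _ = ∫⁻ r, ∫⁻ t, A.indicator F (r, t) := by
        symm
        apply lintegral_lintegral_swap
        exact hAF.aemeasurable
    _ ≤ ∫⁻ r, S.indicator (fun r => ENNReal.ofReal (r ^ (n - 1) *
          Real.sqrt (1 - ((E + μ * r ^ (n + 1)) / r ^ n) ^ 2))) r := lintegral_mono claim1
    _ = _ := by rw [lintegral_indicator hSm]

end Pool.R872.SEC
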