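import Pool.Agent.R872.SEC.Stm

/-! # SEC-KB: comparison inequality by layer cake -/

open MeasureTheory Set Filter
open scoped ENNReal

namespace Pool.R872.SEC

namespace KBAux

/-- the measure `r^(n-1) dr` -/
noncomputable def rho (n : ℝ) : Measure ℝ :=
  volume.withDensity (fun r => ENNReal.ofReal (r ^ (n - 1)))

lemma rho_Ioo (n : ℝ) (hn : 1 < n) (a b : ℝ) (ha : 0 ≤ a) (hab : a ≤ b) :
    rho n (Ioo a b) = ENNReal.ofReal ((b ^ n - a ^ n) / n) := by
  unfold rho
  rw [withDensity_apply _ measurableSet_Ioo]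
  have h1 : ∫ r in a..b, r ^ (n - 1) = (b ^ n - a ^ n) / n := by
    rw [integral_rpow (Or.inl (by linarith))]
    simp
  have h0 : IntegrableOn (fun r : ℝ => r ^ (n - 1)) (Ioo a b) := by
    have h2 : IntervalIntegrable (fun r : ℝ => r ^ (n - 1)) volume a b :=
      intervalIntegral.intervalIntegrable_rpow' (by linarith)
    exact ((intervalIntegrable_iff_integrableOn_Ioc_of_le hab).1 h2).mono_set Ioo_subset_Ioc_self
  rw [← ofReal_integral_eq_lintegral_ofReal h0, ← integral_Ioc_eq_integral_Ioo,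
    ← intervalIntegral.integral_of_le hab, h1]
  filter_upwards [ae_restrict_mem measurableSet_Ioo] with r hr
  exact Real.rpow_nonneg (ha.trans hr.1.le) _

lemma lint_rho (n : ℝ) (S : Set ℝ) (hS : MeasurableSet S) (hS0 : ∀ r ∈ S, 0 < r) (f : ℝ → ℝ)
    (hf : Measurable f) :
    ∫⁻ r in S, ENNReal.ofReal (r ^ (n - 1) * f r) =
      ∫⁻ r, ENNReal.ofReal (f r) ∂((rho n).restrict S) := by
  unfold rho
  rw [restrict_withDensity hS, lintegral_withDensity_eq_lintegral_mul _ (by fun_prop)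
    hf.ennreal_ofReal]
  refine setLIntegral_congr_fun hS fun r hr => ?_
  simp only [Pi.mul_apply]
  rw [ENNReal.ofReal_mul (Real.rpow_nonneg (hS0 r hr).le _)]

lemma core (n : ℝ) (hn : 1 < n) (a b x : ℝ) (ha : 0 ≤ a) (hab : a < b) (hx : 0 < x)
    (h : x * (b ^ n + a ^ n) = b ^ (n + 1) - a ^ (n + 1)) : x ^ n ≤ b ^ n - a ^ n := by
  have hb : 0 < b := lt_of_le_of_lt ha hab
  set y : ℝ := a / b with hy
  have hy0 : 0 ≤ y := div_nonneg ha hb.le
  have hy1 : y ≤ 1 := (div_le_one hb).2 hab.le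
  have hay : a = b * y := by rw [hy]; field_simp
  set q : ℝ := y ^ n with hq
  have hq0 : 0 ≤ q := Real.rpow_nonneg hy0 _
  have hq1 : q ≤ 1 := Real.rpow_le_one hy0 hy1 (by linarith)
  have e1 : a ^ n = b ^ n * q := by rw [hay, Real.mul_rpow hb.le hy0]
  have e2 : a ^ (n + 1) = b ^ (n + 1) * y ^ (n + 1) := by rw [hay, Real.mul_rpow hb.le hy0]
  have e3 : b ^ (n + 1) = b ^ n * b := by rw [Real.rpow_add hb, Real.rpow_one]
  have hbn : 0 < b ^ n := Real.rpow_pos_of_pos hb _
  have h3 : q ^ 2 ≤ y ^ (n + 1) := by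
    rw [hq, ← Real.rpow_natCast, ← Real.rpow_mul hy0]
    rcases hy0.eq_or_lt with h0 | h0
    · rw [← h0, Real.zero_rpow (by push_cast; linarith), Real.zero_rpow (by linarith)]
    · exact Real.rpow_le_rpow_of_exponent_ge h0 hy1 (by push_cast; linarith)
  have h4 : x * (b ^ n * (1 + q)) ≤ b ^ n * b * ((1 - q) * (1 + q)) := by
    calc x * (b ^ n * (1 + q)) = x * (b ^ n + a ^ n) := by rw [e1]; ring
      _ = b ^ n * b * (1 - y ^ (n + 1)) := by rw [h, e2, e3]; ring
      _ ≤ b ^ n * b * (1 - q ^ 2) :=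
        mul_le_mul_of_nonneg_left (by linarith) (by positivity)
      _ = _ := by ring
  have h5 : x ≤ b * (1 - q) := by
    have h6 : (b ^ n * (1 + q)) * x ≤ (b ^ n * (1 + q)) * (b * (1 - q)) := by
      calc (b ^ n * (1 + q)) * x = x * (b ^ n * (1 + q)) := by ring
        _ ≤ _ := h4
        _ = _ := by ring
    exact le_of_mul_le_mul_left h6 (by positivity)
  calc x ^ n ≤ (b * (1 - q)) ^ n := Real.rpow_le_rpow hx.le h5 (by linarith)
    _ = b ^ n * (1 - q) ^ n := Real.mul_rpow hb.le (by linarith)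
    _ ≤ b ^ n * (1 - q) ^ (1 : ℝ) := by
        refine mul_le_mul_of_nonneg_left ?_ hbn.le
        rcases (sub_nonneg.2 hq1).eq_or_lt with h0 | h0
        · rw [← h0, Real.zero_rpow (by linarith), Real.rpow_one]
        · exact Real.rpow_le_rpow_of_exponent_ge h0 (by linarith) hn.le
    _ = b ^ n - a ^ n := by rw [Real.rpow_one, e1]; ring

lemma level (n μ e α β t : ℝ) (hn : 1 < n) (hμ : 0 < μ) (he : 0 ≤ e) (hα : 0 ≤ α) (hαβ : α < β)
    (h1 : -e + μ * α ^ (n + 1) = -α ^ n) (h2 : -e + μ * β ^ (n + 1) = β ^ n)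
    (ht0 : 0 < t) (ht1 : t < 1) :
    ∃ a b : ℝ, α ≤ a ∧ a < b ∧ b ≤ β ∧ (t / μ) ^ n ≤ b ^ n - a ^ n ∧
      ∀ r ∈ Ioo a b, ((-e + μ * r ^ (n + 1)) / r ^ n) ^ 2 < t ^ 2 := by
  have hn0 : 0 < n := by linarith
  have hβ : 0 < β := lt_of_le_of_lt hα hαβ
  have cont : ∀ c : ℝ, Continuous (fun r : ℝ => -e + μ * r ^ (n + 1) + c * r ^ n) := by
    intro c
    have c1 : Continuous (fun r : ℝ => r ^ (n + 1)) :=
      continuous_id.rpow_const (fun x => Or.inr (by linarith))
    have c2 : Continuous (fun r : ℝ => r ^ n) :=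
      continuous_id.rpow_const (fun x => Or.inr hn0.le)
    exact (continuous_const.add (continuous_const.mul c1)).add (continuous_const.mul c2)
  have hadd : ∀ r : ℝ, 0 < r → r ^ (n + 1) = r ^ n * r := fun r hr => by
    rw [Real.rpow_add hr, Real.rpow_one]
  have hαn : 0 ≤ α ^ n := Real.rpow_nonneg hα _
  have hβn : 0 < β ^ n := Real.rpow_pos_of_pos hβ _
  -- lower root
  obtain ⟨a, ha, hra⟩ : ∃ a ∈ Icc α β, -e + μ * a ^ (n + 1) + t * a ^ n = 0 := by
    have := intermediate_value_Icc hαβ.le (cont t).continuousOn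
    refine this ⟨?_, ?_⟩
    · rw [h1]; nlinarith
    · rw [h2]; nlinarith
  have ha0 : 0 ≤ a := hα.trans ha.1
  -- upper root
  have hβμ : 1 / μ ≤ β := by
    rw [div_le_iff₀ hμ]
    rw [hadd β hβ] at h2
    by_contra hcon
    push Not at hcon
    have : β ^ n * (β * μ) < β ^ n * 1 := mul_lt_mul_of_pos_left hcon hβn
    nlinarith
  have htβ : t / μ ≤ β := le_trans (div_le_div_of_nonneg_right ht1.le hμ.le) hβμ
  have htμ : 0 < t / μ := by positivity
  obtain ⟨b, hb, hrb⟩ : ∃ b ∈ Icc (t / μ) β, -e + μ * b ^ (n + 1) + (-t) * b ^ n = 0 := by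
    have := intermediate_value_Icc htβ (cont (-t)).continuousOn
    refine this ⟨?_, ?_⟩
    · rw [hadd _ htμ]
      have : μ * ((t / μ) ^ n * (t / μ)) = t * (t / μ) ^ n := by field_simp
      rw [this]; linarith
    · rw [h2]; nlinarith
  have hb0 : 0 < b := lt_of_lt_of_le htμ hb.1
  have hbn : 0 < b ^ n := Real.rpow_pos_of_pos hb0 _
  have han : 0 ≤ a ^ n := Real.rpow_nonneg ha0 _
  have hab : a < b := by
    by_contra hcon
    push Not at hcon
    have h3 : b ^ (n + 1) ≤ a ^ (n + 1) := Real.rpow_le_rpow hb0.le hcon (by linarith)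
    have h4 : μ * b ^ (n + 1) ≤ μ * a ^ (n + 1) := mul_le_mul_of_nonneg_left h3 hμ.le
    have h5 : 0 < t * b ^ n := by positivity
    have h6 : 0 ≤ t * a ^ n := by positivity
    linarith
  refine ⟨a, b, ha.1, hab, hb.2, ?_, ?_⟩
  · refine core n hn a b (t / μ) ha0 hab htμ ?_
    have h3 : t * (b ^ n + a ^ n) = μ * (b ^ (n + 1) - a ^ (n + 1)) := by linarith
    rw [div_mul_eq_mul_div, h3]
    field_simp
  · intro r hr
    have hr0 : 0 < r := lt_of_le_of_lt ha0 hr.1
    have hrn : 0 < r ^ n := Real.rpow_pos_of_pos hr0 _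
    have hlow : -t < (-e + μ * r ^ (n + 1)) / r ^ n := by
      rw [lt_div_iff₀ hrn]
      have h3 : a ^ (n + 1) < r ^ (n + 1) := Real.rpow_lt_rpow ha0 hr.1 (by linarith)
      have h4 : a ^ n < r ^ n := Real.rpow_lt_rpow ha0 hr.1 hn0
      have h5 : μ * a ^ (n + 1) < μ * r ^ (n + 1) := mul_lt_mul_of_pos_left h3 hμ
      have h6 : t * a ^ n < t * r ^ n := mul_lt_mul_of_pos_left h4 ht0
      linarith
    have hup : (-e + μ * r ^ (n + 1)) / r ^ n < t := by
      have h3 : (-e + μ * r ^ (n + 1)) / r ^ n = μ * r - e / r ^ n := by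
        rw [hadd r hr0]; field_simp; ring
      have h4 : t = μ * b - e / b ^ n := by
        rw [hadd b hb0] at hrb
        field_simp
        linarith
      rw [h3, h4]
      have h5 : r ^ n ≤ b ^ n := Real.rpow_le_rpow hr0.le hr.2.le hn0.le
      have h6 : e / b ^ n ≤ e / r ^ n := div_le_div_of_nonneg_left he hrn h5
      have h7 : μ * r < μ * b := mul_lt_mul_of_pos_left hr.2 hμ
      linarith
    exact sq_lt_sq' hlow hup

end KBAux

open KBAux in
theorem KB : S_KB := by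
  intro n μ e α β hn hμ he hα hαβ h1 h2
  have hn0 : 0 < n := by linarith
  have m1 : Measurable (fun r : ℝ => Real.sqrt (1 - (μ * r) ^ 2)) := by fun_prop
  have m2 : Measurable (fun r : ℝ => Real.sqrt (1 - ((-e + μ * r ^ (n + 1)) / r ^ n) ^ 2)) := by
    fun_prop
  rw [lint_rho n _ measurableSet_Ioo (fun r hr => hr.1) _ m1,
    lint_rho n _ measurableSet_Ioo (fun r hr => lt_of_le_of_lt hα hr.1) _ m2,
    lintegral_eq_lintegral_meas_lt _ (Eventually.of_forall fun r => Real.sqrt_nonneg _)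
      m1.aemeasurable,
    lintegral_eq_lintegral_meas_lt _ (Eventually.of_forall fun r => Real.sqrt_nonneg _)
      m2.aemeasurable]
  refine setLIntegral_mono' measurableSet_Ioi fun s hs => ?_
  have hs0 : 0 < s := hs
  rw [Measure.restrict_apply (measurableSet_lt measurable_const m1),
    Measure.restrict_apply (measurableSet_lt measurable_const m2)]
  rcases lt_or_ge s 1 with hs1 | hs1
  · set t : ℝ := Real.sqrt (1 - s ^ 2) with ht
    have hpos : 0 < 1 - s ^ 2 := by nlinarith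
    have ht0 : 0 < t := Real.sqrt_pos.2 hpos
    have ht2 : t ^ 2 = 1 - s ^ 2 := Real.sq_sqrt hpos.le
    have ht1 : t < 1 := by nlinarith
    obtain ⟨a, b, ha, hab, hb, hc, hl⟩ := level n μ e α β t hn hμ he hα hαβ h1 h2 ht0 ht1
    have hA : rho n ({r | s < Real.sqrt (1 - (μ * r) ^ 2)} ∩ Ioo 0 (1 / μ)) ≤
        rho n (Ioo 0 (t / μ)) := by
      refine measure_mono ?_
      rintro r ⟨hr1, hr2⟩
      have hr1' : s < Real.sqrt (1 - (μ * r) ^ 2) := hr1
      rw [Real.lt_sqrt hs0.le] at hr1'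
      refine ⟨hr2.1, ?_⟩
      rw [lt_div_iff₀ hμ]
      have h3 : (μ * r) ^ 2 < t ^ 2 := by rw [ht2]; linarith
      have h4 := lt_of_pow_lt_pow_left₀ 2 ht0.le h3
      linarith
    have hB : rho n (Ioo a b) ≤
        rho n ({r | s < Real.sqrt (1 - ((-e + μ * r ^ (n + 1)) / r ^ n) ^ 2)} ∩ Ioo α β) := by
      refine measure_mono ?_
      intro r hr
      refine ⟨?_, lt_of_le_of_lt ha hr.1, lt_of_lt_of_le hr.2 hb⟩
      show s < Real.sqrt _
      rw [Real.lt_sqrt hs0.le]
      have h3 := hl r hr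
      rw [ht2] at h3
      linarith
    refine hA.trans (le_trans ?_ hB)
    rw [rho_Ioo n hn 0 (t / μ) le_rfl (by positivity), rho_Ioo n hn a b (hα.trans ha) hab.le]
    refine ENNReal.ofReal_le_ofReal ?_
    rw [Real.zero_rpow hn0.ne', sub_zero]
    exact div_le_div_of_nonneg_right hc hn0.le
  · have : {r : ℝ | s < Real.sqrt (1 - (μ * r) ^ 2)} ∩ Ioo 0 (1 / μ) = ∅ := by
      ext r
      simp only [mem_inter_iff, mem_empty_iff_false, iff_false, not_and]
      intro hr _
      have hr1' : s < Real.sqrt (1 - (μ * r) ^ 2) := hr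
      rw [Real.lt_sqrt hs0.le] at hr1'
      nlinarith [sq_nonneg (μ * r)]
    rw [this, measure_empty]
    exact zero_le

end Pool.R872.SEC
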