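import Pool.Agent.R872.SEC.Stm

open MeasureTheory Set Filter
open scoped ENNReal Topology

namespace Pool.R872.SEC

namespace MAINp

theorem zero_adm (n : ℝ) : Adm n (fun _ => 0) (fun _ => 0) where
  g_meas := measurable_const
  g_bdd := ⟨0, by simp⟩
  β_meas := measurable_const
  β_nonneg := fun _ => le_rfl
  supp := ⟨1, 2, by norm_num, by norm_num, by simp, by simp⟩
  int_zero := by simp
  norm_le := fun r hr => by simp; positivity

theorem LB_nonneg {θ₀ n P : ℝ} {lam : ℝ → ℝ} (h : LB θ₀ n lam P) : 0 ≤ P := by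
  have := h _ _ (zero_adm n)
  simpa [T] using this

theorem prof_ite {n : ℝ} {lam : ℝ → ℝ} (h : Prof n lam) (p : ℝ → Prop) [DecidablePred p]
    (hp : MeasurableSet {r | p r}) : Prof n (fun r => if p r then lam r else 0) where
  meas := Measurable.ite hp h.meas measurable_const
  nonneg := fun r => by
    split_ifs
    · exact h.nonneg r
    · exact le_rfl
  le_one := fun r => by
    split_ifs
    · exact h.le_one r
    · exact zero_le_one
  zero := fun r hr => by simp [h.zero r hr]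
  fin := by
    refine (h.fin.indicator hp).congr (Eventually.of_forall fun r => ?_)
    by_cases hr : p r <;> simp [Set.indicator, hr]

theorem mass_nonneg {n : ℝ} {lam : ℝ → ℝ} (h : Prof n lam) (r : ℝ) : 0 ≤ lam r * r ^ n := by
  rcases le_or_gt r 0 with h0 | h0
  · rw [h.zero r h0, zero_mul]
  · exact mul_nonneg (h.nonneg r) (Real.rpow_nonneg h0.le n)

/-- the integrand of the truncated volume -/
noncomputable def wf (n v x₀ : ℝ) (lam : ℝ → ℝ) (r : ℝ) : ℝ :=
  if x₀ < r ∧ v ≤ lam r then lam r * r ^ n else 0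

theorem wf_nonneg {n v x₀ : ℝ} {lam : ℝ → ℝ} (h : Prof n lam) (r : ℝ) : 0 ≤ wf n v x₀ lam r := by
  unfold wf
  split_ifs
  · exact mass_nonneg h r
  · exact le_rfl

theorem wf_le {n v x₀ : ℝ} {lam : ℝ → ℝ} (h : Prof n lam) (r : ℝ) :
    wf n v x₀ lam r ≤ lam r * r ^ n := by
  unfold wf
  split_ifs
  · exact le_rfl
  · exact mass_nonneg h r

theorem wf_int {n v x₀ : ℝ} {lam : ℝ → ℝ} (h : Prof n lam) : Integrable (wf n v x₀ lam) := by
  have hs : MeasurableSet {r | x₀ < r ∧ v ≤ lam r} :=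
    (measurableSet_lt measurable_const measurable_id).inter
      (measurableSet_le measurable_const h.meas)
  refine (h.fin.indicator hs).congr (Eventually.of_forall fun r => ?_)
  simp only [Set.indicator, mem_setOf_eq, wf]

/-- the truncated volume -/
noncomputable def W (n v x₀ : ℝ) (lam : ℝ → ℝ) : ℝ := ∫ r, wf n v x₀ lam r

theorem W_nonneg {n v x₀ : ℝ} {lam : ℝ → ℝ} (h : Prof n lam) : 0 ≤ W n v x₀ lam :=
  integral_nonneg fun r => wf_nonneg h r

theorem ae_ne' (a : ℝ) : ∀ᵐ r : ℝ, r ≠ a := by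
  rw [ae_iff]; simp

theorem left_local {lam lam' : ℝ → ℝ} {x κ a : ℝ} (hax : a < x)
    (h : ∀ r, a < r → r ≤ x → lam' r = lam r) (hl : LeftVal lam x κ) : LeftVal lam' x κ := by
  unfold LeftVal at *
  refine hl.congr' ?_
  have h1 : ∀ᶠ δ in 𝓝[>] (0 : ℝ), δ < x - a :=
    nhdsWithin_le_nhds (Iio_mem_nhds (by linarith))
  filter_upwards [h1, self_mem_nhdsWithin] with δ hδ hδ0
  have hδ0' : (0 : ℝ) < δ := hδ0
  congr 1
  apply intervalIntegral.integral_congr
  intro r hr
  rw [uIcc_of_le (by linarith)] at hr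
  exact (h r (by linarith [hr.1]) hr.2).symm

theorem right_local {lam lam' : ℝ → ℝ} {x κ b : ℝ} (hxb : x < b)
    (h : ∀ r, x ≤ r → r < b → lam' r = lam r) (hl : RightVal lam x κ) : RightVal lam' x κ := by
  unfold RightVal at *
  refine hl.congr' ?_
  have h1 : ∀ᶠ δ in 𝓝[>] (0 : ℝ), δ < b - x :=
    nhdsWithin_le_nhds (Iio_mem_nhds (by linarith))
  filter_upwards [h1, self_mem_nhdsWithin] with δ hδ hδ0
  have hδ0' : (0 : ℝ) < δ := hδ0
  congr 1
  apply intervalIntegral.integral_congr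
  intro r hr
  rw [uIcc_of_le (by linarith)] at hr
  exact (h r hr.1 (by linarith [hr.2])).symm

theorem ae_cut (hD : S_DENS) {n : ℝ} {lam : ℝ → ℝ} (h : Prof n lam) :
    ∀ᵐ r : ℝ, 0 < r → lam r = 0 → Cut lam r := by
  filter_upwards [hD lam h.meas h.nonneg h.le_one] with r hr h0 hl
  rw [hl] at hr
  exact ⟨h0, hr.1, hr.2⟩

/-- there is a cut point to the right -/
theorem cut_right (hD : S_DENS) {θ₀ n P : ℝ} {lam : ℝ → ℝ} (hn : 1 < n) (h : Prof n lam)
    (hLB : LB θ₀ n lam P) {x : ℝ} (hx : 0 < x) : ∃ y, x < y ∧ Cut lam y := by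
  by_contra hcon
  push Not at hcon
  have hae : ∀ᵐ r : ℝ, x < r → lam r ≠ 0 := by
    filter_upwards [ae_cut hD h] with r hr hxr hl
    exact hcon r hxr (hr (hx.trans hxr) hl)
  set V := ∫ r, lam r * r ^ n with hV
  have hV0 : 0 ≤ V := integral_nonneg fun r => mass_nonneg h r
  have hP : 0 ≤ P := LB_nonneg hLB
  have hxn : 0 < x ^ (n - 1) := Real.rpow_pos_of_pos hx _
  set N := x + (P + x⁻¹ * V + 1) / x ^ (n - 1) with hN
  have hxN : x < N := by
    have : 0 < (P + x⁻¹ * V + 1) / x ^ (n - 1) := by positivity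
    linarith
  have hcont : ContinuousOn (fun r : ℝ => r ^ (n - 1)) (Icc x N) := by
    intro r hr
    exact (Real.continuousAt_rpow_const _ _ (Or.inl (by linarith [hr.1]))).continuousWithinAt
  have hint1 : IntegrableOn (fun r : ℝ => r ^ (n - 1)) (Icc x N) := hcont.integrableOn_Icc
  have hint2 : Integrable (fun r : ℝ => r ^ (n - 1) * (Icc x N).indicator (fun _ => (1 : ℝ)) r) := by
    refine (hint1.integrable_indicator measurableSet_Icc).congr (Eventually.of_forall fun r => ?_)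
    by_cases hr : r ∈ Icc x N <;> simp [Set.indicator, hr]
  have hadm : Adm n (fun _ => 0) ((Icc x N).indicator (fun _ => (1 : ℝ))) :=
    { g_meas := measurable_const
      g_bdd := ⟨0, by simp⟩
      β_meas := measurable_const.indicator measurableSet_Icc
      β_nonneg := fun r => Set.indicator_nonneg (fun _ _ => zero_le_one) r
      supp := ⟨x, N, hx, hxN, by simp, fun r hr => Set.indicator_of_notMem hr _⟩
      int_zero := by simp
      norm_le := fun r hr => by
        by_cases hm : r ∈ Icc x N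
        · simp [Set.indicator_of_mem hm]
        · simp [Set.indicator_of_notMem hm]; positivity }
  have hT := hLB _ _ hadm
  unfold T at hT
  simp only [mul_zero, integral_zero, zero_add] at hT
  have hDm : MeasurableSet {r | 0 < lam r ∧ lam r < 1} :=
    (measurableSet_lt measurable_const h.meas).inter (measurableSet_lt h.meas measurable_const)
  rw [← integral_indicator hDm] at hT
  have hint3 := hint2.indicator hDm
  have hle : ∫ r, (Ioc x N).indicator (fun _ => x ^ (n - 1)) r ≤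
      ∫ r, ({r | 0 < lam r ∧ lam r < 1}.indicator (fun r : ℝ => r ^ (n - 1) *
        (Icc x N).indicator (fun _ => (1 : ℝ)) r) r + x⁻¹ * (lam r * r ^ n)) := by
    apply integral_mono_ae
    · exact (integrableOn_const (by simp)).integrable_indicator measurableSet_Ioc
    · exact hint3.add (h.fin.const_mul _)
    · filter_upwards [hae] with r hr
      have hm0 := mass_nonneg h r
      by_cases hm : r ∈ Ioc x N
      · rw [Set.indicator_of_mem hm]
        have hr0 : 0 < r := hx.trans hm.1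
        have h1 : x ^ (n - 1) ≤ r ^ (n - 1) :=
          Real.rpow_le_rpow hx.le hm.1.le (by linarith)
        have hl0 : 0 < lam r := lt_of_le_of_ne (h.nonneg r) (Ne.symm (hr hm.1))
        rcases lt_or_eq_of_le (h.le_one r) with h2 | h2
        · rw [Set.indicator_of_mem (show r ∈ {r | 0 < lam r ∧ lam r < 1} from ⟨hl0, h2⟩),
            Set.indicator_of_mem (show r ∈ Icc x N from ⟨hm.1.le, hm.2⟩), mul_one]
          have : 0 ≤ x⁻¹ * (lam r * r ^ n) := mul_nonneg (by positivity) hm0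
          linarith
        · rw [Set.indicator_of_notMem (show r ∉ {r | 0 < lam r ∧ lam r < 1} from
            fun hh => absurd hh.2 (by rw [h2]; exact lt_irrefl _)), zero_add, h2, one_mul]
          have h3 : r ^ n = r * r ^ (n - 1) := by
            rw [← Real.rpow_one_add' hr0.le (by linarith)]; congr 1; ring
          have h4 : r ^ (n - 1) ≤ x⁻¹ * r ^ n := by
            rw [h3, ← mul_assoc]
            have h5 : 1 ≤ x⁻¹ * r := by
              rw [inv_mul_eq_div, le_div_iff₀ hx]; linarith [hm.1]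
            nlinarith [Real.rpow_pos_of_pos hr0 (n - 1)]
          linarith
      · rw [Set.indicator_of_notMem hm]
        refine add_nonneg (Set.indicator_nonneg (fun s hs => ?_) r) (mul_nonneg (by positivity) hm0)
        by_cases hm' : s ∈ Icc x N
        · rw [Set.indicator_of_mem hm', mul_one]
          exact Real.rpow_nonneg (by linarith [hm'.1]) _
        · rw [Set.indicator_of_notMem hm', mul_zero]
  rw [integral_add hint3 (h.fin.const_mul _), integral_const_mul, integral_indicator_const _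
    measurableSet_Ioc] at hle
  have hvol : (volume : Measure ℝ).real (Ioc x N) = N - x := by
    rw [Measure.real, Real.volume_Ioc, ENNReal.toReal_ofReal (by linarith)]
  rw [hvol, smul_eq_mul] at hle
  have h6 : (N - x) * x ^ (n - 1) = P + x⁻¹ * V + 1 := by
    rw [hN]; field_simp; ring
  rw [h6] at hle
  linarith

theorem cutR (hD : S_DENS) {θ₀ n P : ℝ} {lam : ℝ → ℝ} (hn : 1 < n) (h : Prof n lam)
    (hLB : LB θ₀ n lam P) {x : ℝ} (hx : 0 < x) :
    ∃ H, x < H ∧ ∀ ε > 0, ∃ h', x < h' ∧ h' ≤ H ∧ Cut lam h' ∧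
      volume (Ioo x h' ∩ {r | lam r = 0}) ≤ ENNReal.ofReal ε := by
  set S := {y | x < y ∧ Cut lam y} with hS
  have hne : S.Nonempty := by
    obtain ⟨y, hy⟩ := cut_right hD hn h hLB hx
    exact ⟨y, hy⟩
  have hbd : BddBelow S := ⟨x, fun y hy => hy.1.le⟩
  have hxi : x ≤ sInf S := le_csInf hne fun y hy => hy.1.le
  refine ⟨sInf S + 1, by linarith, fun ε hε => ?_⟩
  obtain ⟨h', hh', hlt⟩ := exists_lt_of_csInf_lt hne
    (show sInf S < sInf S + min ε 1 by have : 0 < min ε 1 := lt_min hε one_pos; linarith)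
  refine ⟨h', hh'.1, by have := min_le_right ε 1; linarith, hh'.2, ?_⟩
  have hnull : volume (Ioo x (sInf S) ∩ {r | lam r = 0}) = 0 := by
    have h1 := ae_cut hD h
    rw [ae_iff] at h1
    refine measure_mono_null ?_ h1
    rintro r ⟨hr1, hr2⟩ hcon
    have h2 : r ∈ S := ⟨hr1.1, hcon (hx.trans hr1.1) hr2⟩
    exact absurd (csInf_le hbd h2) (not_le.mpr hr1.2)
  calc volume (Ioo x h' ∩ {r | lam r = 0})
      ≤ volume ((Ioo x (sInf S) ∩ {r | lam r = 0}) ∪ Icc (sInf S) h') := by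
        refine measure_mono ?_
        rintro r ⟨hr1, hr2⟩
        rcases lt_or_ge r (sInf S) with h3 | h3
        · exact Or.inl ⟨⟨hr1.1, h3⟩, hr2⟩
        · exact Or.inr ⟨h3, hr1.2.le⟩
    _ ≤ volume (Ioo x (sInf S) ∩ {r | lam r = 0}) + volume (Icc (sInf S) h') :=
        measure_union_le _ _
    _ ≤ ENNReal.ofReal ε := by
        rw [hnull, zero_add, Real.volume_Icc]
        exact ENNReal.ofReal_le_ofReal (by have := min_le_left ε 1; linarith)

theorem cutL (hD : S_DENS) {n : ℝ} {lam : ℝ → ℝ} (h : Prof n lam) {x : ℝ} (hx : 0 < x) :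
    ∀ ε > 0, ∃ g', 0 ≤ g' ∧ g' < x ∧ (g' = 0 ∨ Cut lam g') ∧
      volume (Ioo g' x ∩ {r | lam r = 0}) ≤ ENNReal.ofReal ε := by
  intro ε hε
  set S := {y | y < x ∧ (y = 0 ∨ Cut lam y)} with hS
  have h0S : (0 : ℝ) ∈ S := ⟨hx, Or.inl rfl⟩
  have hne : S.Nonempty := ⟨0, h0S⟩
  have hbd : BddAbove S := ⟨x, fun y hy => hy.1.le⟩
  obtain ⟨g', hg', hlt⟩ := exists_lt_of_lt_csSup hne
    (show sSup S - ε < sSup S by linarith)
  refine ⟨g', ?_, hg'.1, hg'.2, ?_⟩
  · rcases hg'.2 with h1 | h1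
    · exact h1.ge
    · exact h1.1.le
  have hg0 : 0 ≤ g' := by
    rcases hg'.2 with h1 | h1
    · exact h1.ge
    · exact h1.1.le
  have hnull : volume (Ioo (sSup S) x ∩ {r | lam r = 0}) = 0 := by
    have h1 := ae_cut hD h
    rw [ae_iff] at h1
    refine measure_mono_null ?_ h1
    rintro r ⟨hr1, hr2⟩ hcon
    have hs0 : 0 ≤ sSup S := le_csSup hbd h0S
    have h2 : r ∈ S := ⟨hr1.2, Or.inr (hcon (lt_of_le_of_lt hs0 hr1.1) hr2)⟩
    exact absurd (le_csSup hbd h2) (not_le.mpr hr1.1)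
  calc volume (Ioo g' x ∩ {r | lam r = 0})
      ≤ volume ((Ioo (sSup S) x ∩ {r | lam r = 0}) ∪ Icc g' (sSup S)) := by
        refine measure_mono ?_
        rintro r ⟨hr1, hr2⟩
        rcases lt_or_ge (sSup S) r with h3 | h3
        · exact Or.inl ⟨⟨h3, hr1.2⟩, hr2⟩
        · exact Or.inr ⟨hr1.1.le, h3⟩
    _ ≤ volume (Ioo (sSup S) x ∩ {r | lam r = 0}) + volume (Icc g' (sSup S)) :=
        measure_union_le _ _
    _ ≤ ENNReal.ofReal ε := by
        rw [hnull, zero_add, Real.volume_Icc]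
        exact ENNReal.ofReal_le_ofReal (by linarith)

/-- the three truncations -/
noncomputable def la (lam : ℝ → ℝ) (g' h' : ℝ) : ℝ → ℝ :=
  fun r => if r < g' then (fun r => if r < h' then lam r else 0) r else 0
noncomputable def lb (lam : ℝ → ℝ) (g' h' : ℝ) : ℝ → ℝ :=
  fun r => if g' < r then (fun r => if r < h' then lam r else 0) r else 0
noncomputable def lc (lam : ℝ → ℝ) (h' : ℝ) : ℝ → ℝ :=
  fun r => if h' < r then lam r else 0

theorem prof_lt {n : ℝ} {lam : ℝ → ℝ} (h : Prof n lam) (x : ℝ) :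
    Prof n (fun r => if r < x then lam r else 0) :=
  prof_ite h (fun r => r < x) measurableSet_Iio

theorem prof_gt {n : ℝ} {lam : ℝ → ℝ} (h : Prof n lam) (x : ℝ) :
    Prof n (fun r => if x < r then lam r else 0) :=
  prof_ite h (fun r => x < r) measurableSet_Ioi

theorem prof_la {n : ℝ} {lam : ℝ → ℝ} (h : Prof n lam) (g' h' : ℝ) : Prof n (la lam g' h') :=
  prof_lt (prof_lt h h') g'
theorem prof_lb {n : ℝ} {lam : ℝ → ℝ} (h : Prof n lam) (g' h' : ℝ) : Prof n (lb lam g' h') :=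
  prof_gt (prof_lt h h') g'
theorem prof_lc {n : ℝ} {lam : ℝ → ℝ} (h : Prof n lam) (h' : ℝ) : Prof n (lc lam h') :=
  prof_gt h h'

theorem W_split {n v x₀ : ℝ} {lam : ℝ → ℝ} (h : Prof n lam) {g' h' : ℝ} (hgh : g' < h') :
    W n v x₀ lam ≤ W n v x₀ (la lam g' h') + (∫ r, lb lam g' h' r * r ^ n) +
      W n v x₀ (lc lam h') := by
  unfold W
  have h1 : Integrable (fun r => wf n v x₀ (la lam g' h') r + lb lam g' h' r * r ^ n) :=
    (wf_int (prof_la h g' h')).add (prof_lb h g' h').fin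
  rw [← integral_add (wf_int (prof_la h g' h')) (prof_lb h g' h').fin,
    ← integral_add h1 (wf_int (prof_lc h h'))]
  apply integral_mono_ae (wf_int h) (h1.add (wf_int (prof_lc h h')))
  filter_upwards [ae_ne' g', ae_ne' h'] with r hr1 hr2
  have ha := wf_nonneg (v := v) (x₀ := x₀) (prof_la h g' h') r
  have hb := mass_nonneg (prof_lb h g' h') r
  have hc := wf_nonneg (v := v) (x₀ := x₀) (prof_lc h h') r
  simp only [Pi.add_apply]
  rcases lt_or_gt_of_ne hr1 with h1 | h1
  · have : wf n v x₀ (la lam g' h') r = wf n v x₀ lam r := by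
      simp [wf, la, h1, h1.trans hgh]
    linarith
  · rcases lt_or_gt_of_ne hr2 with h2 | h2
    · have h3 : lb lam g' h' r = lam r := by simp [lb, h1, h2]
      rw [h3] at hb ⊢
      have := wf_le (v := v) (x₀ := x₀) h r
      linarith
    · have : wf n v x₀ (lc lam h') r = wf n v x₀ lam r := by
        simp [wf, lc, h2]
      linarith

/-- the middle piece has a definite cost -/
theorem mid_cost (hTC : S_TC) {θ₀ n P x₀ v : ℝ} {lam : ℝ → ℝ} (hθ : 0 < θ₀) (hn : 1 < n)
    (h : Prof n lam) (hx₀ : 0 < x₀) (hv : 0 < v) {g' x h' : ℝ} (hgx : g' < x) (hxh : x < h')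
    (hx : x₀ < x) (hvx : v ≤ lam x) (hleft : LeftVal lam x (lam x))
    (hLB : LB θ₀ n (lb lam g' h') P) : θ₀ * x₀ ^ n * v ≤ P := by
  have hx0 : 0 < x := hx₀.trans hx
  have h1 := hTC θ₀ n (lb lam g' h') P hθ hn (prof_lb h g' h') hLB x h' (lam x) (x ^ n)
    (fun _ => 0) (fun _ => 0) hx0 hxh
    (left_local hgx (fun r h1 h2 => by simp [lb, h1, lt_of_le_of_lt h2 hxh]) hleft)
    (right_local (lam := fun _ => 0) (b := h' + 1) (by linarith)
      (fun r h1 _ => by simp [lb, not_lt.mpr h1])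
      (by unfold RightVal; simp))
    measurable_const ⟨0, by simp⟩ measurable_const (fun _ => le_rfl)
    (by
      intro r hr
      have h2 : x ^ n ≤ r ^ n := Real.rpow_le_rpow hx0.le hr.1 (by linarith)
      have h3 : 0 ≤ x ^ n := Real.rpow_nonneg hx0.le _
      simp only [intervalIntegral.integral_zero, add_zero, mul_zero]
      nlinarith)
  simp only [mul_zero, integral_zero, intervalIntegral.integral_zero, add_zero] at h1
  have h2 : x₀ ^ n ≤ x ^ n := Real.rpow_le_rpow hx₀.le hx.le (by linarith)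
  have h3 : 0 < x₀ ^ n := Real.rpow_pos_of_pos hx₀ _
  calc θ₀ * x₀ ^ n * v = θ₀ * (v * x₀ ^ n) := by ring
    _ ≤ θ₀ * (lam x * x ^ n) := by
        apply mul_le_mul_of_nonneg_left _ hθ.le
        exact mul_le_mul hvx h2 h3.le (hv.le.trans hvx)
    _ ≤ P := h1

/-- cutting at `g'` (either `0` or a cut point) and at `h'` -/
theorem cut_two (hC : S_CUT) {θ₀ n P : ℝ} {lam : ℝ → ℝ} (hθ : 0 < θ₀) (hn : 1 < n)
    (h : Prof n lam) (hLB : LB θ₀ n lam P) {g' h' : ℝ} (hgh : g' < h')
    (hg : g' = 0 ∨ Cut lam g') (hh : Cut lam h') :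
    ∃ Pa Pb Pc : ℝ, Pa + Pb + Pc ≤ P ∧ LB θ₀ n (la lam g' h') Pa ∧ LB θ₀ n (lb lam g' h') Pb ∧
      LB θ₀ n (lc lam h') Pc := by
  obtain ⟨P1, Pc, h1, h2, h3⟩ := hC θ₀ n lam P hθ hn h hLB h' hh
  rcases hg with hg | hg
  · refine ⟨0, P1, Pc, by linarith, ?_, ?_, h3⟩
    · have h4 : la lam g' h' = fun _ => 0 := by
        funext r
        unfold la
        split_ifs with h5
        · simp only
          split_ifs
          · exact h.zero r (by rw [hg] at h5; exact h5.le)
          · rfl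
        · rfl
      rw [h4]
      intro g β _
      simp [T]
    · have h4 : lb lam g' h' = fun r => if r < h' then lam r else 0 := by
        funext r
        by_cases h5 : g' < r
        · simp [lb, h5]
        · simp [lb, h5, h.zero r (by rw [hg] at h5; exact not_lt.mp h5)]
      rw [h4]
      exact h2
  · have hcut : Cut (fun r => if r < h' then lam r else 0) g' :=
      ⟨hg.1, left_local (a := g' - 1) (by linarith)
        (fun r _ h5 => by simp [lt_of_le_of_lt h5 hgh]) hg.2.1,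
       right_local (b := h') hgh (fun r _ h5 => by simp [h5]) hg.2.2⟩
    obtain ⟨Pa, Pb, h4, h5, h6⟩ := hC θ₀ n _ P1 hθ hn (prof_lt h h') h2 g' hcut
    exact ⟨Pa, Pb, Pc, by linarith, h5, h6, h3⟩

theorem zset_int {n : ℝ} {lam : ℝ → ℝ} (hn : 1 < n) {g' x h' H ε : ℝ} (hg0 : 0 ≤ g')
    (hx0 : 0 < x) (hgx : g' < x) (hxh : x < h') (hhH : h' ≤ H) (hε : 0 < ε)
    (h1 : volume (Ioo g' x ∩ {r | lam r = 0}) ≤ ENNReal.ofReal ε)
    (h2 : volume (Ioo x h' ∩ {r | lam r = 0}) ≤ ENNReal.ofReal ε) :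
    ∫ r in {r | r ∈ Ioo g' h' ∧ lb lam g' h' r = 0}, r ^ (n - 1) ≤ H ^ (n - 1) * (2 * ε) := by
  have hH0 : 0 < H := by linarith
  have hvol : volume {r | r ∈ Ioo g' h' ∧ lb lam g' h' r = 0} ≤ ENNReal.ofReal (2 * ε) := by
    calc volume {r | r ∈ Ioo g' h' ∧ lb lam g' h' r = 0}
        ≤ volume (((Ioo g' x ∩ {r | lam r = 0}) ∪ {x}) ∪ (Ioo x h' ∩ {r | lam r = 0})) := by
          refine measure_mono ?_
          rintro r ⟨hr1, hr2⟩
          have hr3 : lam r = 0 := by
            have : lb lam g' h' r = lam r := by simp [lb, hr1.1, hr1.2]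
            rw [← this]; exact hr2
          rcases lt_trichotomy r x with h3 | h3 | h3
          · exact Or.inl (Or.inl ⟨⟨hr1.1, h3⟩, hr3⟩)
          · exact Or.inl (Or.inr h3)
          · exact Or.inr ⟨⟨h3, hr1.2⟩, hr3⟩
      _ ≤ volume ((Ioo g' x ∩ {r | lam r = 0}) ∪ {x}) + volume (Ioo x h' ∩ {r | lam r = 0}) :=
          measure_union_le _ _
      _ ≤ (volume (Ioo g' x ∩ {r | lam r = 0}) + volume {x}) +
            volume (Ioo x h' ∩ {r | lam r = 0}) := by gcongr; exact measure_union_le _ _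
      _ ≤ ENNReal.ofReal ε + ENNReal.ofReal ε := by
          rw [Real.volume_singleton, add_zero]; gcongr
      _ = ENNReal.ofReal (2 * ε) := by
          rw [← ENNReal.ofReal_add hε.le hε.le]; congr 1; ring
  have h3 := norm_setIntegral_le_of_norm_le_const (μ := volume)
    (s := {r | r ∈ Ioo g' h' ∧ lb lam g' h' r = 0}) (f := fun r : ℝ => r ^ (n - 1))
    (C := H ^ (n - 1)) (lt_of_le_of_lt hvol ENNReal.ofReal_lt_top) (by
      intro r hr
      have hr0 : 0 < r := lt_of_le_of_lt hg0 hr.1.1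
      rw [Real.norm_of_nonneg (Real.rpow_nonneg hr0.le _)]
      exact Real.rpow_le_rpow hr0.le (hr.1.2.le.trans hhH) (by linarith))
  have h4 : (volume : Measure ℝ).real {r | r ∈ Ioo g' h' ∧ lb lam g' h' r = 0} ≤ 2 * ε := by
    rw [Measure.real]
    exact ENNReal.toReal_le_of_le_ofReal (by linarith) hvol
  calc ∫ r in {r | r ∈ Ioo g' h' ∧ lb lam g' h' r = 0}, r ^ (n - 1)
      ≤ ‖∫ r in {r | r ∈ Ioo g' h' ∧ lb lam g' h' r = 0}, r ^ (n - 1)‖ := Real.le_norm_self _
    _ ≤ H ^ (n - 1) * (volume : Measure ℝ).real {r | r ∈ Ioo g' h' ∧ lb lam g' h' r = 0} := h3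
    _ ≤ H ^ (n - 1) * (2 * ε) :=
        mul_le_mul_of_nonneg_left h4 (Real.rpow_nonneg hH0.le _)

theorem sub3 {α θ A B C D : ℝ} (hα0 : 0 < α) (hα1 : α ≤ 1) (hθ : 0 < θ) (hA : 0 ≤ A) (hB : 0 ≤ B)
    (hC : 0 ≤ C) (hD0 : 0 ≤ D) (hD : D ≤ A + B + C) :
    θ * D ^ α ≤ θ * A ^ α + θ * B ^ α + θ * C ^ α := by
  have h1 : D ^ α ≤ (A + B + C) ^ α := Real.rpow_le_rpow hD0 hD hα0.le
  have h2 := Real.rpow_add_le_add_rpow (add_nonneg hA hB) hC hα0.le hα1
  have h3 := Real.rpow_add_le_add_rpow hA hB hα0.le hα1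
  have h4 : D ^ α ≤ A ^ α + B ^ α + C ^ α := by linarith
  calc θ * D ^ α ≤ θ * (A ^ α + B ^ α + C ^ α) := mul_le_mul_of_nonneg_left h4 hθ.le
    _ = _ := by ring

theorem Qm (hGF : S_GF) (hC : S_CUT) (hTC : S_TC) (hD : S_DENS) {θ₀ n x₀ v : ℝ} (hθ : 0 < θ₀)
    (hn : 1 < n) (hθπ : θ₀ ≤ Real.pi / Real.sqrt n) (hx₀ : 0 < x₀) (hv : 0 < v) (m : ℕ) :
    ∀ (lam : ℝ → ℝ) (P : ℝ), Prof n lam → LB θ₀ n lam P → P < m * (θ₀ * x₀ ^ n * v) →
      θ₀ * ((n + 1) * W n v x₀ lam) ^ (n / (n + 1)) ≤ P := by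
  induction m with
  | zero =>
    intro lam P h hLB hP
    have := LB_nonneg hLB
    simp at hP
    linarith
  | succ m ih =>
    intro lam P h hLB hP
    have hα0 : 0 < n / (n + 1) := by positivity
    have hα1 : n / (n + 1) ≤ 1 := by rw [div_le_one (by linarith)]; linarith
    by_cases hW : W n v x₀ lam = 0
    · rw [hW, mul_zero, Real.zero_rpow hα0.ne', mul_zero]
      exact LB_nonneg hLB
    obtain ⟨x, hx, hvx, hleft⟩ : ∃ x, x₀ < x ∧ v ≤ lam x ∧ LeftVal lam x (lam x) := by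
      by_contra hcon
      push Not at hcon
      apply hW
      unfold W
      apply integral_eq_zero_of_ae
      filter_upwards [hD lam h.meas h.nonneg h.le_one] with r hr
      unfold wf
      split_ifs with h1
      · exact absurd hr.1 (hcon r h1.1 h1.2)
      · rfl
    have hx0 : 0 < x := hx₀.trans hx
    obtain ⟨H, hxH, hR⟩ := cutR hD hn h hLB hx0
    have hL := cutL hD h hx0
    have hH0 : 0 < H := hx0.trans hxH
    have hHn : 0 < H ^ (n - 1) := Real.rpow_pos_of_pos hH0 _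
    apply le_of_forall_pos_le_add
    intro η hη
    set ε := η / (2 * H ^ (n - 1)) with hε
    have hε0 : 0 < ε := by positivity
    obtain ⟨h', hxh, hhH, hcuth, hv1⟩ := hR ε hε0
    obtain ⟨g', hg0, hgx, hcutg, hv2⟩ := hL ε hε0
    have hgh : g' < h' := hgx.trans hxh
    obtain ⟨Pa, Pb, Pc, hsum, hLa, hLb, hLc⟩ := cut_two hC hθ hn h hLB hgh hcutg hcuth
    have hPb := mid_cost hTC hθ hn h hx₀ hv hgx hxh hx hvx hleft hLb
    have hPa0 := LB_nonneg hLa
    have hPc0 := LB_nonneg hLc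
    push_cast at hP
    have hA := ih _ Pa (prof_la h g' h') hLa (by linarith)
    have hCc := ih _ Pc (prof_lc h h') hLc (by linarith)
    have hB := hGF θ₀ n (lb lam g' h') Pb g' h' hθ hn hθπ (prof_lb h g' h') hLb hg0 hgh (by
      intro r hr
      unfold lb
      by_cases h1 : g' < r
      · have h2 : ¬ r < h' := fun h2 => hr ⟨h1, h2⟩
        simp [h2]
      · simp [h1])
    have hZ := zset_int (lam := lam) hn hg0 hx0 hgx hxh hhH hε0 hv2 hv1
    have hZ' : H ^ (n - 1) * (2 * ε) = η := by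
      rw [hε]; field_simp
    have hn1 : 0 < n + 1 := by linarith
    have hs := sub3 (α := n / (n + 1)) (θ := θ₀) (A := (n + 1) * W n v x₀ (la lam g' h'))
      (B := (n + 1) * ∫ r, lb lam g' h' r * r ^ n) (C := (n + 1) * W n v x₀ (lc lam h'))
      (D := (n + 1) * W n v x₀ lam) hα0 hα1 hθ
      (mul_nonneg hn1.le (W_nonneg (prof_la h g' h')))
      (mul_nonneg hn1.le (integral_nonneg fun r => mass_nonneg (prof_lb h g' h') r))
      (mul_nonneg hn1.le (W_nonneg (prof_lc h h')))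
      (mul_nonneg hn1.le (W_nonneg h))
      (by
        rw [← mul_add, ← mul_add]
        exact mul_le_mul_of_nonneg_left (W_split h hgh) hn1.le)
    linarith

end MAINp

open MAINp

theorem MAIN (hGF : S_GF) (hC : S_CUT) (hTC : S_TC) (hD : S_DENS) : S_MAIN := by
  intro θ₀ n lam P hθ hn hθπ h hLB
  have key : ∀ k : ℕ, θ₀ * ((n + 1) * W n (1 / ((k : ℝ) + 1)) (1 / ((k : ℝ) + 1)) lam) ^
      (n / (n + 1)) ≤ P := by
    intro k
    have hk : (0 : ℝ) < 1 / ((k : ℝ) + 1) := by positivity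
    have hpos : 0 < θ₀ * (1 / ((k : ℝ) + 1)) ^ n * (1 / ((k : ℝ) + 1)) := by positivity
    obtain ⟨m, hm⟩ := exists_nat_gt (P / (θ₀ * (1 / ((k : ℝ) + 1)) ^ n * (1 / ((k : ℝ) + 1))))
    rw [div_lt_iff₀ hpos] at hm
    exact Qm hGF hC hTC hD hθ hn hθπ hk hk m lam P h hLB hm
  have hlim : Tendsto (fun k : ℕ => W n (1 / ((k : ℝ) + 1)) (1 / ((k : ℝ) + 1)) lam) atTop
      (𝓝 (∫ r, lam r * r ^ n)) := by
    unfold W
    apply tendsto_integral_of_dominated_convergence (fun r => lam r * r ^ n)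
    · intro k
      exact (wf_int h).aestronglyMeasurable
    · exact h.fin
    · intro k
      refine Eventually.of_forall fun r => ?_
      rw [Real.norm_of_nonneg (wf_nonneg h r)]
      exact wf_le h r
    · refine Eventually.of_forall fun r => ?_
      rcases le_or_gt r 0 with hr | hr
      · have h0 := h.zero r hr
        simp [wf, h0]
      · rcases eq_or_lt_of_le (h.nonneg r) with h0 | h0
        · simp [wf, ← h0]
        · apply tendsto_const_nhds.congr'
          have h1 : Tendsto (fun k : ℕ => 1 / ((k : ℝ) + 1)) atTop (𝓝 0) :=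
            tendsto_one_div_add_atTop_nhds_zero_nat
          filter_upwards [h1.eventually (Iio_mem_nhds hr), h1.eventually (Iio_mem_nhds h0)]
            with k hk1 hk2
          simp only [wf]
          rw [if_pos ⟨hk1, hk2.le⟩]
  have hα0 : 0 < n / (n + 1) := by positivity
  have hcont : Tendsto (fun k : ℕ => θ₀ * ((n + 1) * W n (1 / ((k : ℝ) + 1)) (1 / ((k : ℝ) + 1)) lam) ^
      (n / (n + 1))) atTop (𝓝 (θ₀ * ((n + 1) * ∫ r, lam r * r ^ n) ^ (n / (n + 1)))) :=
    ((hlim.const_mul (n + 1)).rpow_const (Or.inr hα0.le)).const_mul θ₀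
  exact le_of_tendsto' hcont key

end Pool.R872.SEC
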