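import Pool.Agent.R872.SEC.Defs

open MeasureTheory Set
open scoped ENNReal

namespace Pool.R872.SEC

/-- MOL: mollification. -/
def S_MOL : Prop := ∀ (θ₀ p : ℝ), 0 < θ₀ → 0 < p → ∀ R : Set (ℝ × ℝ), MeasurableSet R →
  R ⊆ sector θ₀ → ∀ P : ℝ, 0 ≤ P → perimeter θ₀ p R ≤ ENNReal.ofReal P →
  ∀ (F1 F2 G1 G2 : ℝ × ℝ → ℝ) (c d κ C : ℝ), 0 < c → c < d → 0 < κ → κ < θ₀ / 2 →
  Measurable F1 → Measurable F2 → Measurable G1 → Measurable G2 →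
  (∀ x, |G1 x| ≤ C) → (∀ x, |G2 x| ≤ C) → (∀ x, F1 x ^ 2 + F2 x ^ 2 ≤ 1) →
  (∀ x : ℝ × ℝ, ¬ (c ≤ x.1 ∧ x.1 ≤ d ∧ κ ≤ x.2 ∧ x.2 ≤ θ₀ - κ) →
    F1 x = 0 ∧ F2 x = 0 ∧ G1 x = 0 ∧ G2 x = 0) →
  (∀ r θ, F1 (r, θ) = ∫ s in (0 : ℝ)..r, G1 (s, θ)) →
  (∀ r θ, F2 (r, θ) = ∫ s in (0 : ℝ)..θ, G2 (r, s)) →
  ∫ x in R, ((p + 1) * x.1 ^ p * F1 x + x.1 ^ (p + 1) * G1 x + x.1 ^ p * G2 x) ≤ P

/-- GEO: from the sector to the one-dimensional problem. -/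
def S_GEO : Prop := ∀ (θ₀ p : ℝ), 0 < θ₀ → 0 < p → ∀ R : Set (ℝ × ℝ), MeasurableSet R →
  R ⊆ sector θ₀ → ∀ P : ℝ, 0 ≤ P → perimeter θ₀ p R ≤ ENNReal.ofReal P →
  LB θ₀ (p + 1) (lamOf θ₀ R) P

/-- UPG: upper bound for the perimeter of a graph region. -/
def S_UPG : Prop := ∀ (θ₀ p : ℝ), 0 < θ₀ → 0 < p → ∀ f : ℝ → ℝ, ContDiff ℝ 1 f →
  (∀ θ, 0 < f θ) → perimeter θ₀ p (graphRegion θ₀ f) ≤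
    ENNReal.ofReal (∫ θ in (0 : ℝ)..θ₀, f θ ^ p * Real.sqrt (f θ ^ 2 + deriv f θ ^ 2))

/-- AREA1: the area of a graph region. -/
def S_AREA1 : Prop := ∀ (θ₀ p : ℝ), 0 < θ₀ → 0 < p → ∀ f : ℝ → ℝ, Continuous f →
  (∀ θ, 0 < f θ) → MeasurableSet (graphRegion θ₀ f) ∧
    area p (graphRegion θ₀ f) = ENNReal.ofReal (∫ θ in (0 : ℝ)..θ₀, f θ ^ (p + 2) / (p + 2))

/-- AREA2: the profile of a region of finite area. -/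
def S_AREA2 : Prop := ∀ (θ₀ p : ℝ), 0 < θ₀ → 0 < p → ∀ R : Set (ℝ × ℝ), MeasurableSet R →
  R ⊆ sector θ₀ → area p R < ⊤ → Prof (p + 1) (lamOf θ₀ R) ∧
    area p R = ENNReal.ofReal (θ₀ * ∫ r, lamOf θ₀ R r * r ^ (p + 1))

/-- DENS: Lebesgue's differentiation theorem, one-sided averages. -/
def S_DENS : Prop := ∀ lam : ℝ → ℝ, Measurable lam → (∀ r, 0 ≤ lam r) → (∀ r, lam r ≤ 1) →
  ∀ᵐ x : ℝ, LeftVal lam x (lam x) ∧ RightVal lam x (lam x)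

/-- TC: fields with a jump at `u` and cut off at `v`. -/
def S_TC : Prop := ∀ (θ₀ n : ℝ) (lam : ℝ → ℝ) (P : ℝ), 0 < θ₀ → 1 < n → Prof n lam →
  LB θ₀ n lam P → ∀ (u v κ y₀ : ℝ) (γ β : ℝ → ℝ), 0 < u → u < v → LeftVal lam u κ →
  RightVal lam v 0 → Measurable γ → (∃ C, ∀ r ∈ Icc u v, |γ r| ≤ C) → Measurable β →
  (∀ r, 0 ≤ β r) →
  (∀ r ∈ Icc u v, (y₀ + ∫ s in u..r, γ s) ^ 2 + (r ^ n * β r) ^ 2 ≤ (r ^ n) ^ 2) →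
  θ₀ * (κ * y₀ + ∫ r in u..v, lam r * γ r) +
    ∫ r in {r | r ∈ Icc u v ∧ 0 < lam r ∧ lam r < 1}, r ^ (n - 1) * β r ≤ P

/-- CUT: superadditivity at a cut point. -/
def S_CUT : Prop := ∀ (θ₀ n : ℝ) (lam : ℝ → ℝ) (P : ℝ), 0 < θ₀ → 1 < n → Prof n lam →
  LB θ₀ n lam P → ∀ x, Cut lam x → ∃ P₁ P₂ : ℝ, P₁ + P₂ ≤ P ∧
    LB θ₀ n (fun r => if r < x then lam r else 0) P₁ ∧
    LB θ₀ n (fun r => if x < r then lam r else 0) P₂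

/-- the value `c(E)` with `c^{n+1} = μ^n E (n+1)^{n+1} / n^n` -/
noncomputable def cc (n μ E : ℝ) : ℝ := (μ ^ n * E * ((n + 1) ^ (n + 1) / n ^ n)) ^ (1 / (n + 1))

/-- KA1: the pairing inequality. -/
def S_KA1 : Prop := ∀ (n μ t E r₁ r₂ : ℝ), 1 < n → 0 < μ → 0 < t → 0 < E → 0 < r₁ →
  r₁ < n * t / ((n + 1) * μ) → n * t / ((n + 1) * μ) < r₂ → r₂ < t / μ →
  (t - μ * r₁) * r₁ ^ n = E → (t - μ * r₂) * r₂ ^ n = E →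
  cc n μ E < t ∧ 2 / (Real.sqrt n * Real.sqrt (t ^ 2 - cc n μ E ^ 2)) ≤
    1 / (n * t - (n + 1) * μ * r₁) + 1 / ((n + 1) * μ * r₂ - n * t)

/-- KA2: the lower bound for the weighted width. -/
def S_KA2 : Prop := ∀ (n μ t E : ℝ), 1 < n → 0 < μ → 0 < t → 0 ≤ E →
  ∫⁻ e in {e : ℝ | E < e ∧ cc n μ e < t},
      ENNReal.ofReal (2 / (Real.sqrt n * Real.sqrt (t ^ 2 - cc n μ e ^ 2))) ≤
    ∫⁻ r in {r : ℝ | 0 < r ∧ E < (t - μ * r) * r ^ n}, ENNReal.ofReal (r ^ (n - 1))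

/-- ARC: an arcsine integral. -/
def S_ARC : Prop := ∀ c : ℝ, 0 ≤ c → c < 1 →
  ENNReal.ofReal (Real.pi / 2) ≤
    ∫⁻ t in Ioo c 1, ENNReal.ofReal (t / (Real.sqrt (1 - t ^ 2) * Real.sqrt (t ^ 2 - c ^ 2)))

/-- KA3: the key inequality for `E ≥ 0`. -/
def S_KA3 : Prop := ∀ (n μ E : ℝ), 1 < n → 0 < μ → 0 ≤ E →
  ENNReal.ofReal (Real.pi / Real.sqrt n * (n ^ n / ((n + 1) ^ (n + 1) * μ ^ n) - E)) ≤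
    ∫⁻ r in {r : ℝ | 0 < r ∧ E + μ * r ^ (n + 1) < r ^ n},
      ENNReal.ofReal (r ^ (n - 1) * Real.sqrt (1 - ((E + μ * r ^ (n + 1)) / r ^ n) ^ 2))

/-- KB: the comparison for `E = -e ≤ 0`. -/
def S_KB : Prop := ∀ (n μ e α β : ℝ), 1 < n → 0 < μ → 0 ≤ e → 0 ≤ α → α < β →
  -e + μ * α ^ (n + 1) = -α ^ n → -e + μ * β ^ (n + 1) = β ^ n →
  ∫⁻ r in Ioo 0 (1 / μ), ENNReal.ofReal (r ^ (n - 1) * Real.sqrt (1 - (μ * r) ^ 2)) ≤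
    ∫⁻ r in Ioo α β,
      ENNReal.ofReal (r ^ (n - 1) * Real.sqrt (1 - ((-e + μ * r ^ (n + 1)) / r ^ n) ^ 2))

/-- GF: profiles in a bounded interval. -/
def S_GF : Prop := ∀ (θ₀ n : ℝ) (lam : ℝ → ℝ) (P g h : ℝ), 0 < θ₀ → 1 < n →
  θ₀ ≤ Real.pi / Real.sqrt n → Prof n lam → LB θ₀ n lam P → 0 ≤ g → g < h →
  (∀ r, r ∉ Ioo g h → lam r = 0) →
  θ₀ * ((n + 1) * ∫ r, lam r * r ^ n) ^ (n / (n + 1)) ≤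
    P + ∫ r in {r | r ∈ Ioo g h ∧ lam r = 0}, r ^ (n - 1)

/-- MAIN: the one-dimensional inequality. -/
def S_MAIN : Prop := ∀ (θ₀ n : ℝ) (lam : ℝ → ℝ) (P : ℝ), 0 < θ₀ → 1 < n →
  θ₀ ≤ Real.pi / Real.sqrt n → Prof n lam → LB θ₀ n lam P →
  θ₀ * ((n + 1) * ∫ r, lam r * r ^ n) ^ (n / (n + 1)) ≤ P

/-- EPS: the second variation. -/
def S_EPS : Prop := ∀ (θ₀ n : ℝ), 0 < θ₀ → 1 < n → Real.pi / Real.sqrt n < θ₀ →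
  ∃ ε, 0 < ε ∧ ε < 1 ∧
    θ₀⁻¹ * (∫ θ in (0 : ℝ)..θ₀, Real.sqrt ((1 + ε * Real.cos (Real.pi * θ / θ₀)) ^ 2 +
      (ε * Real.pi / (n * θ₀) * Real.sin (Real.pi * θ / θ₀)) ^ 2)) <
    (θ₀⁻¹ * ∫ θ in (0 : ℝ)..θ₀, (1 + ε * Real.cos (Real.pi * θ / θ₀)) ^ ((n + 1) / n)) ^
      (n / (n + 1))

end Pool.R872.SEC
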