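import Pool.Agent.R872.SEC.Stm

/-!
# SEC-TC: one-dimensional test pairs with a jump
-/

set_option autoImplicit false

open MeasureTheory Set
open scoped ENNReal

namespace Pool.R872.SEC

namespace TCaux

theorem int_ind (f : ℝ → ℝ) {a b r : ℝ} (h0 : 0 ≤ a) (hr : 0 ≤ r) :
    ∫ s in (0 : ℝ)..r, (Ioc a b).indicator f s = ∫ s in a..(max a (min r b)), f s := by
  rw [intervalIntegral.integral_of_le hr, setIntegral_indicator measurableSet_Ioc,
    Ioc_inter_Ioc, intervalIntegral.integral_of_le (le_max_left _ _)]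
  have h1 : (0 : ℝ) ⊔ a = a := max_eq_right h0
  rw [h1]
  rcases le_total a (min r b) with h | h
  · rw [max_eq_right h]
  · rw [max_eq_left h, Ioc_self, Ioc_eq_empty (not_lt.mpr h)]

theorem int_ind_all (f : ℝ → ℝ) {a b : ℝ} (hab : a ≤ b) :
    ∫ s, (Ioc a b).indicator f s = ∫ s in a..b, f s := by
  rw [integral_indicator measurableSet_Ioc, intervalIntegral.integral_of_le hab]

theorem integrable_ind {f : ℝ → ℝ} (hf : Measurable f) {a b C : ℝ}
    (hC : ∀ r ∈ Ioc a b, |f r| ≤ C) : Integrable ((Ioc a b).indicator f) := by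
  refine IntegrableOn.integrable_indicator ?_ measurableSet_Ioc
  refine Measure.integrableOn_of_bounded (M := C) measure_Ioc_lt_top.ne hf.aestronglyMeasurable ?_
  filter_upwards [ae_restrict_mem measurableSet_Ioc] with x hx
  rw [Real.norm_eq_abs]
  exact hC x hx

theorem int_add3 {f g h : ℝ → ℝ} (hf : Integrable f) (hg : Integrable g) (hh : Integrable h) :
    ∫ a, (f a + g a + h a) = (∫ a, f a) + (∫ a, g a) + ∫ a, h a := by
  have hfg : Integrable (fun a => f a + g a) := hf.add hg
  rw [integral_add hfg hh, integral_add hf hg]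

section

variable {θ₀ n P u v κ y₀ δ η C : ℝ} {lam γ β : ℝ → ℝ}

/-- the field -/
noncomputable def gg (u v y₀ δ η : ℝ) (γ : ℝ → ℝ) (r : ℝ) : ℝ :=
  (1 - η) * ((Ioc (u - δ) u).indicator (fun _ => y₀ / δ) r + (Ioc u v).indicator γ r +
    (Ioc v (v + δ)).indicator (fun _ => -(y₀ + ∫ s in u..v, γ s) / δ) r)

/-- its angular part -/
noncomputable def bb (u v η : ℝ) (β : ℝ → ℝ) (r : ℝ) : ℝ := (1 - η) * (Icc u v).indicator β r

theorem adm (hn : 1 < n) (hu : 0 < u) (huv : u < v) (hγm : Measurable γ)
    (hC : ∀ r ∈ Icc u v, |γ r| ≤ C) (hβm : Measurable β) (hβ : ∀ r, 0 ≤ β r)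
    (hnorm : ∀ r ∈ Icc u v, (y₀ + ∫ s in u..r, γ s) ^ 2 + (r ^ n * β r) ^ 2 ≤ (r ^ n) ^ 2)
    (hη0 : 0 < η) (hη1 : η < 1) (hδ0 : 0 < δ) (hδu : δ < u)
    (hδn : (1 - η) * u ^ n ≤ (u - δ) ^ n) : Adm n (gg u v y₀ δ η γ) (bb u v η β) := by
  have hn0 : 0 < n := by linarith
  have hC0 : 0 ≤ C := (abs_nonneg _).trans (hC u ⟨le_rfl, huv.le⟩)
  have hm1 : Measurable ((Ioc (u - δ) u).indicator (fun _ : ℝ => y₀ / δ)) :=
    measurable_const.indicator measurableSet_Ioc
  have hm2 : Measurable ((Ioc u v).indicator γ) := hγm.indicator measurableSet_Ioc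
  have hm3 : Measurable ((Ioc v (v + δ)).indicator
      (fun _ : ℝ => -(y₀ + ∫ s in u..v, γ s) / δ)) :=
    measurable_const.indicator measurableSet_Ioc
  have hi1 : Integrable ((Ioc (u - δ) u).indicator (fun _ : ℝ => y₀ / δ)) :=
    integrable_ind measurable_const (C := |y₀ / δ|) fun r _ => le_rfl
  have hi2 : Integrable ((Ioc u v).indicator γ) :=
    integrable_ind hγm fun r hr => hC r ⟨hr.1.le, hr.2⟩
  have hi3 : Integrable ((Ioc v (v + δ)).indicator
      (fun _ : ℝ => -(y₀ + ∫ s in u..v, γ s) / δ)) :=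
    integrable_ind measurable_const (C := |-(y₀ + ∫ s in u..v, γ s) / δ|) fun r _ => le_rfl
  -- the primitive
  have hY : ∀ r : ℝ, 0 ≤ r → ∫ s in (0 : ℝ)..r, gg u v y₀ δ η γ s = (1 - η) *
      ((∫ s in (u - δ)..(max (u - δ) (min r u)), y₀ / δ) +
        (∫ s in u..(max u (min r v)), γ s) +
        ∫ s in v..(max v (min r (v + δ))), -(y₀ + ∫ s in u..v, γ s) / δ) := by
    intro r hr
    unfold gg
    rw [intervalIntegral.integral_const_mul, intervalIntegral.integral_add
      (hi1.intervalIntegrable.add hi2.intervalIntegrable) hi3.intervalIntegrable,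
      intervalIntegral.integral_add hi1.intervalIntegrable hi2.intervalIntegrable,
      int_ind _ (by linarith) hr, int_ind _ hu.le hr, int_ind _ (by linarith) hr]
  have hpow : ∀ r : ℝ, 0 < r → 0 < r ^ n := fun r hr => Real.rpow_pos_of_pos hr n
  have hy0 : |y₀| ≤ u ^ n := by
    have h1 := hnorm u ⟨le_rfl, huv.le⟩
    rw [intervalIntegral.integral_same, add_zero] at h1
    refine abs_le_of_sq_le_sq ?_ (hpow u hu).le
    have := sq_nonneg (u ^ n * β u)
    linarith
  have hYv : |y₀ + ∫ s in u..v, γ s| ≤ v ^ n := by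
    have h1 := hnorm v ⟨huv.le, le_rfl⟩
    refine abs_le_of_sq_le_sq ?_ (hpow v (hu.trans huv)).le
    have := sq_nonneg (v ^ n * β v)
    linarith
  refine ⟨?_, ?_, ?_, ?_, ?_, ?_, ?_⟩
  · exact ((hm1.add hm2).add hm3).const_mul _
  · refine ⟨(1 - η) * (|y₀ / δ| + C + |-(y₀ + ∫ s in u..v, γ s) / δ|), fun r => ?_⟩
    unfold gg
    rw [abs_mul, abs_of_pos (by linarith : 0 < 1 - η)]
    refine mul_le_mul_of_nonneg_left ?_ (by linarith)
    have hb : ∀ (s : Set ℝ) (f : ℝ → ℝ) (D : ℝ), 0 ≤ D → (∀ x ∈ s, |f x| ≤ D) →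
        |s.indicator f r| ≤ D := by
      intro s f D hD h
      by_cases hr : r ∈ s
      · rw [indicator_of_mem hr]
        exact h r hr
      · rw [indicator_of_notMem hr, abs_zero]
        exact hD
    refine (abs_add_le _ _).trans (add_le_add ((abs_add_le _ _).trans (add_le_add ?_ ?_)) ?_)
    · exact hb _ _ _ (abs_nonneg _) fun x _ => le_rfl
    · exact hb _ _ _ hC0 fun x hx => hC x ⟨hx.1.le, hx.2⟩
    · exact hb _ _ _ (abs_nonneg _) fun x _ => le_rfl
  · exact (hβm.indicator measurableSet_Icc).const_mul _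
  · intro r
    exact mul_nonneg (by linarith) (indicator_nonneg (fun x _ => hβ x) r)
  · refine ⟨u - δ, v + δ, by linarith, by linarith, fun r hr => ?_, fun r hr => ?_⟩
    · unfold gg
      rw [indicator_of_notMem fun h => hr ⟨h.1.le, by linarith [h.2]⟩,
        indicator_of_notMem fun h => hr ⟨by linarith [h.1], by linarith [h.2]⟩,
        indicator_of_notMem fun h => hr ⟨by linarith [h.1], h.2⟩]
      ring
    · unfold bb
      rw [indicator_of_notMem fun h => hr ⟨by linarith [h.1], by linarith [h.2]⟩, mul_zero]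
  · unfold gg
    rw [integral_const_mul, int_add3 hi1 hi2 hi3,
      int_ind_all _ (by linarith), int_ind_all _ huv.le, int_ind_all _ (by linarith),
      intervalIntegral.integral_const, intervalIntegral.integral_const, smul_eq_mul, smul_eq_mul]
    field_simp
    ring
  · intro r hr
    rw [hY r hr.le]
    by_cases h1 : r ≤ v
    · by_cases h2 : u ≤ r
      · -- inside
        have e1 : max (u - δ) (min r u) = u := by
          rw [min_eq_right h2]
          exact max_eq_right (by linarith)
        have e2 : max u (min r v) = r := by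
          rw [min_eq_left h1]
          exact max_eq_right h2
        have e3 : max v (min r (v + δ)) = v := max_eq_left ((min_le_left _ _).trans h1)
        rw [e1, e2, e3, intervalIntegral.integral_same, intervalIntegral.integral_const,
          smul_eq_mul, add_zero]
        unfold bb
        rw [indicator_of_mem (show r ∈ Icc u v from ⟨h2, h1⟩)]
        have h3 : (u - (u - δ)) * (y₀ / δ) = y₀ := by
          field_simp
          ring
        rw [h3]
        have h4 := hnorm r ⟨h2, h1⟩
        have h5 : ((1 - η) * (y₀ + ∫ s in u..r, γ s)) ^ 2 + (r ^ n * ((1 - η) * β r)) ^ 2 =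
            (1 - η) ^ 2 * ((y₀ + ∫ s in u..r, γ s) ^ 2 + (r ^ n * β r) ^ 2) := by ring
        rw [h5]
        have h6 : (1 - η) ^ 2 ≤ 1 := by nlinarith
        calc (1 - η) ^ 2 * ((y₀ + ∫ s in u..r, γ s) ^ 2 + (r ^ n * β r) ^ 2)
            ≤ 1 * (r ^ n) ^ 2 := mul_le_mul h6 h4 (by positivity) (by norm_num)
          _ = _ := one_mul _
      · -- left
        push Not at h2
        have hb : bb u v η β r = 0 := by
          unfold bb
          rw [indicator_of_notMem fun h => absurd h.1 (not_le.mpr h2), mul_zero]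
        have e2 : max u (min r v) = u := max_eq_left ((min_le_left _ _).trans h2.le)
        have e3 : max v (min r (v + δ)) = v := max_eq_left ((min_le_left _ _).trans h1)
        rw [hb, mul_zero, e2, e3, intervalIntegral.integral_same, intervalIntegral.integral_same,
          intervalIntegral.integral_const, smul_eq_mul, min_eq_left h2.le]
        have h7 : |(1 - η) * ((max (u - δ) r - (u - δ)) * (y₀ / δ) + 0 + 0)| ≤ r ^ n := by
          rw [add_zero, add_zero, abs_mul, abs_of_pos (by linarith : 0 < 1 - η)]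
          rcases le_total r (u - δ) with h | h
          · rw [max_eq_left h, sub_self, zero_mul, abs_zero, mul_zero]
            exact (hpow r hr).le
          · rw [max_eq_right h]
            have h8 : |(r - (u - δ)) * (y₀ / δ)| ≤ u ^ n := by
              rw [abs_mul, abs_div, abs_of_pos hδ0, abs_of_nonneg (by linarith)]
              calc (r - (u - δ)) * (|y₀| / δ) ≤ δ * (|y₀| / δ) :=
                    mul_le_mul_of_nonneg_right (by linarith) (by positivity)
                _ = |y₀| := by field_simp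
                _ ≤ u ^ n := hy0
            calc (1 - η) * |(r - (u - δ)) * (y₀ / δ)| ≤ (1 - η) * u ^ n :=
                  mul_le_mul_of_nonneg_left h8 (by linarith)
              _ ≤ (u - δ) ^ n := hδn
              _ ≤ r ^ n := Real.rpow_le_rpow (by linarith) h hn0.le
        have h9 := sq_le_sq' (neg_le_of_abs_le h7) (le_of_abs_le h7)
        linarith
    · -- right
      push Not at h1
      have hb : bb u v η β r = 0 := by
        unfold bb
        rw [indicator_of_notMem fun h => absurd h.2 (not_le.mpr h1), mul_zero]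
      have e1 : max (u - δ) (min r u) = u := by
        rw [min_eq_right (by linarith)]
        exact max_eq_right (by linarith)
      have e2 : max u (min r v) = v := by
        rw [min_eq_right h1.le]
        exact max_eq_right huv.le
      have e3 : max v (min r (v + δ)) = min r (v + δ) :=
        max_eq_right (le_min h1.le (by linarith))
      rw [hb, mul_zero, e1, e2, e3, intervalIntegral.integral_const,
        intervalIntegral.integral_const, smul_eq_mul, smul_eq_mul]
      set Y := y₀ + ∫ s in u..v, γ s with hYdef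
      set m := min r (v + δ) with hm
      have hm1 : v ≤ m := le_min h1.le (by linarith)
      have hm2 : m ≤ v + δ := min_le_right _ _
      have h10 : (1 - η) * ((u - (u - δ)) * (y₀ / δ) + (∫ s in u..v, γ s) + (m - v) * (-Y / δ)) =
          (1 - η) * (Y * (1 - (m - v) / δ)) := by
        rw [hYdef]
        field_simp
        ring
      rw [h10]
      have h11 : |(1 - η) * (Y * (1 - (m - v) / δ))| ≤ r ^ n := by
        have h12 : (m - v) / δ ≤ 1 := by
          rw [div_le_one hδ0]
          linarith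
        have h13 : 0 ≤ (m - v) / δ := div_nonneg (by linarith) hδ0.le
        rw [abs_mul, abs_mul, abs_of_pos (by linarith : 0 < 1 - η),
          abs_of_nonneg (by linarith : 0 ≤ 1 - (m - v) / δ)]
        calc (1 - η) * (|Y| * (1 - (m - v) / δ)) ≤ 1 * (|Y| * 1) := by
              refine mul_le_mul (by linarith) ?_ ?_ (by norm_num)
              · exact mul_le_mul_of_nonneg_left (by linarith) (abs_nonneg _)
              · exact mul_nonneg (abs_nonneg _) (by linarith)
          _ = |Y| := by ring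
          _ ≤ v ^ n := hYv
          _ ≤ r ^ n := Real.rpow_le_rpow (by linarith) h1.le hn0.le
      have h14 := sq_le_sq' (neg_le_of_abs_le h11) (le_of_abs_le h11)
      linarith

theorem T_eq (hlam : Prof n lam) (huv : u < v) (hγm : Measurable γ)
    (hC : ∀ r ∈ Icc u v, |γ r| ≤ C) (hδ0 : 0 < δ) :
    T θ₀ n lam (gg u v y₀ δ η γ) (bb u v η β) =
      (1 - η) * (θ₀ * (y₀ * (δ⁻¹ * ∫ r in (u - δ)..u, lam r) + (∫ r in u..v, lam r * γ r) -
        (y₀ + ∫ s in u..v, γ s) * (δ⁻¹ * ∫ r in v..(v + δ), lam r)) +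
      ∫ r in {r | r ∈ Icc u v ∧ 0 < lam r ∧ lam r < 1}, r ^ (n - 1) * β r) := by
  have hl : ∀ r, |lam r| ≤ 1 := fun r => by
    rw [abs_of_nonneg (hlam.nonneg r)]
    exact hlam.le_one r
  have hmul : ∀ (c : ℝ) (a b : ℝ), Integrable ((Ioc a b).indicator (fun r => lam r * c)) := by
    intro c a b
    refine integrable_ind (hlam.meas.mul_const c) (C := 1 * |c|) fun r _ => ?_
    rw [abs_mul]
    exact mul_le_mul_of_nonneg_right (hl r) (abs_nonneg _)
  have hmul2 : Integrable ((Ioc u v).indicator (fun r => lam r * γ r)) := by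
    have hm : Measurable (fun r => lam r * γ r) := hlam.meas.mul hγm
    refine integrable_ind hm (C := 1 * C) fun r hr => ?_
    rw [abs_mul]
    exact mul_le_mul (hl r) (hC r ⟨hr.1.le, hr.2⟩) (abs_nonneg _) (by norm_num)
  have h1 : ∫ r, lam r * gg u v y₀ δ η γ r = (1 - η) *
      (y₀ * (δ⁻¹ * ∫ r in (u - δ)..u, lam r) + (∫ r in u..v, lam r * γ r) -
        (y₀ + ∫ s in u..v, γ s) * (δ⁻¹ * ∫ r in v..(v + δ), lam r)) := by
    have h2 : (fun r => lam r * gg u v y₀ δ η γ r) = fun r => (1 - η) *
        ((Ioc (u - δ) u).indicator (fun r => lam r * (y₀ / δ)) r +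
          (Ioc u v).indicator (fun r => lam r * γ r) r +
          (Ioc v (v + δ)).indicator (fun r => lam r * (-(y₀ + ∫ s in u..v, γ s) / δ)) r) := by
      funext r
      unfold gg
      have hi : ∀ (s : Set ℝ) (f : ℝ → ℝ), s.indicator (fun r => lam r * f r) r =
          lam r * s.indicator f r := by
        intro s f
        by_cases hr : r ∈ s
        · rw [indicator_of_mem hr, indicator_of_mem hr]
        · rw [indicator_of_notMem hr, indicator_of_notMem hr, mul_zero]
      rw [hi _ (fun _ => y₀ / δ), hi _ γ, hi _ (fun _ => -(y₀ + ∫ s in u..v, γ s) / δ)]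
      ring
    rw [h2, integral_const_mul, int_add3 (hmul _ _ _) hmul2 (hmul _ _ _), int_ind_all _ (by linarith), int_ind_all _ huv.le,
      int_ind_all _ (by linarith), intervalIntegral.integral_mul_const,
      intervalIntegral.integral_mul_const]
    congr 1
    rw [div_eq_mul_inv, div_eq_mul_inv]
    ring
  have h3 : ∫ r in {r | 0 < lam r ∧ lam r < 1}, r ^ (n - 1) * bb u v η β r =
      (1 - η) * ∫ r in {r | r ∈ Icc u v ∧ 0 < lam r ∧ lam r < 1}, r ^ (n - 1) * β r := by
    have h4 : ∀ r, r ^ (n - 1) * bb u v η β r =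
        (1 - η) * (Icc u v).indicator (fun r => r ^ (n - 1) * β r) r := by
      intro r
      unfold bb
      by_cases hr : r ∈ Icc u v
      · rw [indicator_of_mem hr, indicator_of_mem hr]
        ring
      · rw [indicator_of_notMem hr, indicator_of_notMem hr]
        ring
    simp_rw [h4]
    rw [integral_const_mul, setIntegral_indicator measurableSet_Icc]
    congr 2
    congr 1
    ext r
    simp only [mem_inter_iff, mem_ofPred_eq]
    tauto
  unfold T
  rw [h1, h3]
  ring

end

end TCaux

open TCaux Filter Topology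

theorem TC : S_TC := by
  intro θ₀ n lam P hθ hn hlam hLB u v κ y₀ γ β hu huv hκ hv hγm hγC hβm hβ hnorm
  obtain ⟨C, hC⟩ := hγC
  set J := ∫ r in {r | r ∈ Icc u v ∧ 0 < lam r ∧ lam r < 1}, r ^ (n - 1) * β r with hJ
  have key : ∀ η : ℝ, 0 < η → η < 1 →
      (1 - η) * (θ₀ * (κ * y₀ + ∫ r in u..v, lam r * γ r) + J) ≤ P := by
    intro η hη0 hη1
    have hev : ∀ᶠ δ in 𝓝[>] (0 : ℝ), (1 - η) * (θ₀ * (y₀ * (δ⁻¹ * ∫ r in (u - δ)..u, lam r) +
        (∫ r in u..v, lam r * γ r) -
        (y₀ + ∫ s in u..v, γ s) * (δ⁻¹ * ∫ r in v..(v + δ), lam r)) + J) ≤ P := by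
      have h1 : ∀ᶠ δ in 𝓝[>] (0 : ℝ), 0 < δ := self_mem_nhdsWithin
      have h2 : ∀ᶠ δ in 𝓝[>] (0 : ℝ), δ < u := by
        filter_upwards [Ioo_mem_nhdsGT hu] with δ hδ
        exact hδ.2
      have h3 : ∀ᶠ δ in 𝓝[>] (0 : ℝ), (1 - η) * u ^ n < (u - δ) ^ n := by
        have hc : Tendsto (fun δ : ℝ => (u - δ) ^ n) (𝓝[>] (0 : ℝ)) (𝓝 (u ^ n)) := by
          have h4 : ContinuousAt (fun δ : ℝ => (u - δ) ^ n) 0 := by
            refine ContinuousAt.rpow_const ?_ (Or.inl ?_)
            · fun_prop
            · simp only [sub_zero]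
              exact hu.ne'
          have h5 := h4.tendsto
          simp only [sub_zero] at h5
          exact h5.mono_left nhdsWithin_le_nhds
        refine hc.eventually_const_lt ?_
        have := Real.rpow_pos_of_pos hu n
        nlinarith
      filter_upwards [h1, h2, h3] with δ hδ0 hδu hδn
      have hA := adm (y₀ := y₀) hn hu huv hγm hC hβm hβ hnorm hη0 hη1 hδ0 hδu hδn.le
      have hT := hLB _ _ hA
      rw [T_eq hlam huv hγm hC hδ0] at hT
      exact hT
    have hlim : Tendsto (fun δ : ℝ => (1 - η) * (θ₀ * (y₀ * (δ⁻¹ * ∫ r in (u - δ)..u, lam r) +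
        (∫ r in u..v, lam r * γ r) -
        (y₀ + ∫ s in u..v, γ s) * (δ⁻¹ * ∫ r in v..(v + δ), lam r)) + J)) (𝓝[>] (0 : ℝ))
        (𝓝 ((1 - η) * (θ₀ * (y₀ * κ + (∫ r in u..v, lam r * γ r) -
          (y₀ + ∫ s in u..v, γ s) * 0) + J))) :=
      ((((hκ.const_mul y₀).add_const _).sub (hv.const_mul _)).const_mul θ₀ |>.add_const J
        |>.const_mul (1 - η))
    have h6 := le_of_tendsto hlim hev
    rw [mul_zero, sub_zero, mul_comm y₀ κ] at h6
    exact h6
  -- `η → 0`
  have hlim2 : Tendsto (fun η : ℝ => (1 - η) *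
      (θ₀ * (κ * y₀ + ∫ r in u..v, lam r * γ r) + J)) (𝓝[>] (0 : ℝ))
      (𝓝 ((1 - 0) * (θ₀ * (κ * y₀ + ∫ r in u..v, lam r * γ r) + J))) := by
    have hc : Continuous (fun η : ℝ => (1 - η) *
      (θ₀ * (κ * y₀ + ∫ r in u..v, lam r * γ r) + J)) := by fun_prop
    exact (hc.tendsto 0).mono_left nhdsWithin_le_nhds
  have h7 := le_of_tendsto hlim2 (by
    filter_upwards [Ioo_mem_nhdsGT (zero_lt_one' ℝ)] with η hη
    exact key η hη.1 hη.2)
  rwa [sub_zero, one_mul] at h7

end Pool.R872.SEC
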